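import Pool.Agent.R479.DA.Lim

/-!
# Thin sets in short windows around the values of starshaped functions

`f n`, `n = 0, 1, 2, …`, are positive functions on `(a, ∞)`, `a ≥ 0`, such that `f n x / x` is nondecreasing, and
the sequence `f n x` has exponent of convergence at most `τ` for each `x > a`. If a set of objects has at most
`C X ^ (s + ε)` members of height at most `X`, then for all `x > a` outside a set of Hausdorff dimension at most
`(s + τ) / (1 - θ)` and every constant `c`, for all but finitely many `n` there is no member of height `H` with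
`|H - f n x| ≤ c (f n x) ^ θ`.
-/

set_option autoImplicit false

open Filter Topology Finset

namespace Pool.Agent.R482.ST

/-- the functions `f n` are positive on `(a, ∞)`, and `f n x / x` is nondecreasing there -/
def Star (a : ℝ) (f : ℕ → ℝ → ℝ) : Prop :=
  ∀ n : ℕ, ∀ x y : ℝ, a < x → x ≤ y → 0 < f n x ∧ f n x / x ≤ f n y / y

/-- for each `x > a` the exponent of convergence of the sequence `f n x` is at most `τ` -/
def Conv (a : ℝ) (f : ℕ → ℝ → ℝ) (τ : ℝ) : Prop :=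
  ∀ x : ℝ, a < x → ∀ t : ℝ, τ < t → Summable (fun n : ℕ => (f n x) ^ (-t))

/-- the sets of the window -/
def W {T : Type} (h : T → ℝ) (f : ℕ → ℝ → ℝ) (θ c L R : ℝ) (p : ℕ × T) : Set ℝ :=
  {x : ℝ | L ≤ x ∧ x ≤ R ∧ |h p.2 - f p.1 x| ≤ c * (f p.1 x) ^ θ ∧ f p.1 x ≤ 2 * h p.2 ∧ h p.2 ≤ 2 * f p.1 x}

lemma few {f : ℕ → ℝ → ℝ} {a τ : ℝ} (hf : Star a f) (hv : Conv a f τ) (hτ : 0 ≤ τ) {L : ℝ} (hL : a < L)
    (ε : ℝ) (hε : 0 < ε) : ∃ C : ℝ, 0 ≤ C ∧ ∀ X : ℝ, 1 ≤ X → {n : ℕ | f n L ≤ 2 * X}.Finite ∧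
      (({n : ℕ | f n L ≤ 2 * X}.ncard : ℕ) : ℝ) ≤ C * X ^ (τ + ε) := by
  classical
  have hpos : ∀ n, 0 < f n L := fun n => (hf n L L hL le_rfl).1
  have hsum := hv L hL (τ + ε) (by linarith)
  set S : ℝ := ∑' n : ℕ, (f n L) ^ (-(τ + ε)) with hS
  have hnn : ∀ n : ℕ, 0 ≤ (f n L) ^ (-(τ + ε)) := fun n => Real.rpow_nonneg (hpos n).le _
  have hS0 : 0 ≤ S := tsum_nonneg hnn
  refine ⟨S * 2 ^ (τ + ε), by positivity, fun X hX => ?_⟩
  have hX0 : 0 < X := by linarith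
  have key : ∀ n : ℕ, f n L ≤ 2 * X → (2 * X) ^ (-(τ + ε)) ≤ (f n L) ^ (-(τ + ε)) := fun n hn =>
    Real.rpow_le_rpow_of_nonpos (hpos n) hn (by linarith)
  have hp2 : (0 : ℝ) < (2 * X) ^ (-(τ + ε)) := by positivity
  have hfin : {n : ℕ | f n L ≤ 2 * X}.Finite := by
    have h1 := hsum.tendsto_cofinite_zero
    have h2 := h1.eventually (gt_mem_nhds hp2)
    rw [Filter.eventually_cofinite] at h2
    refine h2.subset fun n hn => ?_
    exact not_lt.2 (key n hn)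
  refine ⟨hfin, ?_⟩
  rw [Set.ncard_eq_toFinset_card _ hfin]
  have h3 : (hfin.toFinset.card : ℝ) * (2 * X) ^ (-(τ + ε)) ≤ S := by
    rw [← nsmul_eq_mul, ← Finset.sum_const]
    calc ∑ n ∈ hfin.toFinset, (2 * X) ^ (-(τ + ε))
        ≤ ∑ n ∈ hfin.toFinset, (f n L) ^ (-(τ + ε)) :=
          Finset.sum_le_sum fun n hn => key n (hfin.mem_toFinset.mp hn)
      _ ≤ S := hsum.sum_le_tsum _ fun n _ => hnn n
  have h4 : (2 * X) ^ (-(τ + ε)) * (2 * X) ^ (τ + ε) = 1 := by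
    rw [← Real.rpow_add (by positivity), neg_add_cancel, Real.rpow_zero]
  calc (hfin.toFinset.card : ℝ) =
      (hfin.toFinset.card : ℝ) * (2 * X) ^ (-(τ + ε)) * (2 * X) ^ (τ + ε) := by
        rw [mul_assoc, h4, mul_one]
    _ ≤ S * (2 * X) ^ (τ + ε) := mul_le_mul_of_nonneg_right h3 (by positivity)
    _ = S * 2 ^ (τ + ε) * X ^ (τ + ε) := by
        rw [Real.mul_rpow (by norm_num) hX0.le]
        ring

lemma large {u : ℕ → ℝ} (hu : ∀ n, 0 < u n) {t : ℝ} (ht : 0 < t) (hs : Summable fun n => (u n) ^ (-t))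
    (M : ℝ) : ∀ᶠ n in atTop, M ≤ u n := by
  have hM : 0 < max M 1 := lt_of_lt_of_le one_pos (le_max_right _ _)
  have h1 := hs.tendsto_atTop_zero.eventually (gt_mem_nhds (show 0 < (max M 1) ^ (-t) by positivity))
  filter_upwards [h1] with n hn
  by_contra hcon
  push Not at hcon
  have h2 : u n ≤ max M 1 := hcon.le.trans (le_max_left _ _)
  exact absurd hn (not_lt.2 (Real.rpow_le_rpow_of_nonpos (hu n) h2 (by linarith)))

lemma rpow_le {u h θ : ℝ} (hu : 0 < u) (hh : 0 < h) (h1 : u ≤ 2 * h) (h2 : h ≤ 2 * u) :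
    u ^ θ ≤ 2 ^ |θ| * h ^ θ := by
  rcases le_total 0 θ with h0 | h0
  · rw [abs_of_nonneg h0, ← Real.mul_rpow (by norm_num) hh.le]
    exact Real.rpow_le_rpow hu.le h1 h0
  · rw [abs_of_nonpos h0]
    have h3 : h / 2 ≤ u := by linarith
    calc u ^ θ ≤ (h / 2) ^ θ := Real.rpow_le_rpow_of_nonpos (by positivity) h3 h0
      _ = 2 ^ (-θ) * h ^ θ := by
          rw [Real.div_rpow hh.le (by norm_num), Real.rpow_neg (by norm_num)]
          field_simp

lemma close {f : ℕ → ℝ → ℝ} {a θ c L R : ℝ} (ha : 0 ≤ a) (hf : Star a f) (hL : a < L) (hc : 0 < c) {n : ℕ}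
    {H x y : ℝ} (hH : 0 < H) (hx : L ≤ x) (hxy : x ≤ y) (hy : y ≤ R) (x1 : |H - f n x| ≤ c * (f n x) ^ θ)
    (x2 : f n x ≤ 2 * H) (x3 : H ≤ 2 * f n x) (y1 : |H - f n y| ≤ c * (f n y) ^ θ)
    (y2 : f n y ≤ 2 * H) (y3 : H ≤ 2 * f n y) : y - x ≤ 4 * 2 ^ |θ| * c * R * H ^ (θ - 1) := by
  have hax : a < x := lt_of_lt_of_le hL hx
  have hx0 : 0 < x := lt_of_le_of_lt ha hax
  have hy0 : 0 < y := lt_of_lt_of_le hx0 hxy
  have hR0 : 0 < R := lt_of_lt_of_le hy0 hy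
  obtain ⟨p1, p2⟩ := hf n x y hax hxy
  have p3 : 0 < f n y := (hf n y y (lt_of_lt_of_le hax hxy) le_rfl).1
  have hdiff : f n y * ((y - x) / R) ≤ f n y - f n x := by
    have e1 : f n x ≤ x * (f n y / y) := by
      rw [div_le_iff₀ hx0] at p2
      linarith
    have e2 : f n y * ((y - x) / y) = f n y - x * (f n y / y) := by
      field_simp
    have e3 : f n y * ((y - x) / R) ≤ f n y * ((y - x) / y) := by
      apply mul_le_mul_of_nonneg_left _ p3.le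
      exact div_le_div_of_nonneg_left (by linarith) hy0 hy
    linarith
  have h6 : f n y - f n x ≤ 2 * (c * (2 ^ |θ| * H ^ θ)) := by
    have e1 := mul_le_mul_of_nonneg_left (rpow_le (θ := θ) p1 hH x2 x3) hc.le
    have e2 := mul_le_mul_of_nonneg_left (rpow_le (θ := θ) p3 hH y2 y3) hc.le
    have e3 := (abs_le.mp x1).2
    have e4 := (abs_le.mp y1).1
    linarith
  have h7 : H / 2 * ((y - x) / R) ≤ 2 * (c * (2 ^ |θ| * H ^ θ)) := by
    refine le_trans (mul_le_mul_of_nonneg_right (by linarith : H / 2 ≤ f n y) ?_) (hdiff.trans h6)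
    exact div_nonneg (by linarith) hR0.le
  have h8 : H ^ (θ - 1) = H ^ θ / H := by rw [Real.rpow_sub hH, Real.rpow_one]
  rw [h8]
  have h9 : y - x = H / 2 * ((y - x) / R) * (2 * R / H) := by field_simp
  rw [h9]
  calc H / 2 * ((y - x) / R) * (2 * R / H) ≤ 2 * (c * (2 ^ |θ| * H ^ θ)) * (2 * R / H) :=
        mul_le_mul_of_nonneg_right h7 (by positivity)
    _ = 4 * 2 ^ |θ| * c * R * (H ^ θ / H) := by ring

/-- the windows with `x` in a fixed interval -/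
theorem dim_int {T : Type} (S : Set T) (h : T → ℝ) {f : ℕ → ℝ → ℝ} {a s τ θ : ℝ} (ha : 0 ≤ a)
    (hf : Star a f) (hv : Conv a f τ) (hs : 0 ≤ s) (hτ : 0 ≤ τ) (hθ : θ < 1)
    (hS : ∀ ε : ℝ, 0 < ε → ∃ C : ℝ, ∀ X : ℝ, 1 ≤ X →
      {t | t ∈ S ∧ h t ≤ X}.Finite ∧ ({t | t ∈ S ∧ h t ≤ X}.ncard : ℝ) ≤ C * X ^ (s + ε))
    {c L R : ℝ} (hc : 0 < c) (hL : a < L) (hLR : L ≤ R) :
    dimH {x : ℝ | {p : ℕ × T | (p.2 ∈ S ∧ 1 ≤ h p.2 ∧ f p.1 L ≤ 2 * h p.2) ∧ x ∈ W h f θ c L R p}.Infinite} ≤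
      ENNReal.ofReal ((s + τ) / (1 - θ)) := by
  classical
  have hθ' : 0 < 1 - θ := by linarith
  apply ENNReal.le_of_forall_pos_le_add
  intro ε hε _
  have hε' : (0 : ℝ) < ε := by exact_mod_cast hε
  rw [← ENNReal.ofReal_coe_nnreal (p := ε), ← ENNReal.ofReal_add (by positivity) hε'.le]
  set D : ℝ := (s + τ) / (1 - θ) + ε with hD
  have hD0 : 0 < D := by positivity
  have hDτ : D * (1 - θ) = s + τ + ε * (1 - θ) := by
    rw [hD, add_mul, div_mul_cancel₀ _ hθ'.ne']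
  set Q : Set (ℕ × T) := {p | p.2 ∈ S ∧ 1 ≤ h p.2 ∧ f p.1 L ≤ 2 * h p.2} with hQ
  set η : ℝ := ε * (1 - θ) / 4 with hη
  have hη0 : 0 < η := by positivity
  obtain ⟨C1, hcP⟩ := hS η hη0
  obtain ⟨C2, hC2, hcn⟩ := few hf hv hτ hL η hη0
  have hR0 : 0 < R := by linarith
  have hScount : S.Countable := by
    have h1 : S ⊆ ⋃ N : ℕ, {t | t ∈ S ∧ h t ≤ (N : ℝ) + 1} := by
      intro t ht
      obtain ⟨N, hN⟩ := exists_nat_ge (h t)
      exact Set.mem_iUnion.2 ⟨N, ht, by linarith⟩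
    refine (Set.countable_iUnion fun N => ?_).mono h1
    refine (hcP _ ?_).1.countable
    have : (0 : ℝ) ≤ N := Nat.cast_nonneg N
    linarith
  have hQc : Countable Q := by
    have h1 : Q ⊆ (Set.univ : Set ℕ) ×ˢ S := fun p hp => ⟨Set.mem_univ _, hp.1⟩
    exact ((Set.countable_univ.prod hScount).mono h1).to_subtype
  have hone : ∀ p : Q, (1 : ℝ) ≤ h p.1.2 := fun p => p.2.2.1
  have hpos : ∀ p : Q, (0 : ℝ) < h p.1.2 := fun p => lt_of_lt_of_le one_pos (hone p)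
  have h1 := Pool.Agent.R479.DA.dimH_limsup (fun p : Q => W h f θ c L R p.1)
    (fun p => 4 * 2 ^ |θ| * c * R * (h p.1.2) ^ (θ - 1))
    (fun p => by
      have := hpos p
      positivity)
    (fun p => by
      apply Metric.ediam_le
      intro x hx y hy
      rw [edist_dist]
      apply ENNReal.ofReal_le_ofReal
      rw [Real.dist_eq]
      obtain ⟨x1, x2, x3, x4, x5⟩ := hx
      obtain ⟨y1, y2, y3, y4, y5⟩ := hy
      rcases le_total x y with hle | hle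
      · rw [abs_sub_comm, abs_of_nonneg (by linarith)]
        exact close ha hf hL hc (hpos p) x1 hle y2 x3 x4 x5 y3 y4 y5
      · rw [abs_of_nonneg (by linarith)]
        exact close ha hf hL hc (hpos p) y1 hle x2 y3 y4 y5 x3 x4 x5) hD0 (by
      have h2 := Pool.Agent.R479.DA.summable_heights (ι := Q) (fun p => h p.1.2) hone
        (s := s + η + (τ + η)) (p := D * (1 - θ)) (C := |C1| * C2)
        (by rw [hDτ, hη]; nlinarith [mul_pos hε' hθ']) (by positivity) (by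
          intro X hX
          have hX0 : 0 < X := by linarith
          have hinj : Set.InjOn (Subtype.val : Q → ℕ × T) {p | h p.1.2 ≤ X} :=
            Subtype.val_injective.injOn
          have himg : (Subtype.val : Q → ℕ × T) '' {p | h p.1.2 ≤ X} ⊆
              {n : ℕ | f n L ≤ 2 * X} ×ˢ {t : T | t ∈ S ∧ h t ≤ X} := by
            rintro _ ⟨p, hp, rfl⟩
            refine ⟨?_, p.2.1, hp⟩
            refine p.2.2.2.trans ?_
            have : h p.1.2 ≤ X := hp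
            linarith
          have hfn := (hcn X hX).1
          have hfd := (hcP X hX).1
          have hfp := hfn.prod hfd
          refine ⟨Set.Finite.of_finite_image (hfp.subset himg) hinj, ?_⟩
          rw [← hinj.ncard_image]
          have h3 := Set.ncard_le_ncard himg hfp
          rw [Set.ncard_prod] at h3
          have h4 : ({t : T | t ∈ S ∧ h t ≤ X}.ncard : ℝ) ≤ |C1| * X ^ (s + η) :=
            (hcP X hX).2.trans (mul_le_mul_of_nonneg_right (le_abs_self C1) (by positivity))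
          calc (((Subtype.val : Q → ℕ × T) '' {p | h p.1.2 ≤ X}).ncard : ℝ)
              ≤ ((({n : ℕ | f n L ≤ 2 * X}.ncard *
                {t : T | t ∈ S ∧ h t ≤ X}.ncard : ℕ)) : ℝ) := by exact_mod_cast h3
            _ = ({n : ℕ | f n L ≤ 2 * X}.ncard : ℝ) *
                ({t : T | t ∈ S ∧ h t ≤ X}.ncard : ℝ) := by push_cast; rfl
            _ ≤ (C2 * X ^ (τ + η)) * (|C1| * X ^ (s + η)) :=
                mul_le_mul (hcn X hX).2 h4 (Nat.cast_nonneg _) (by positivity)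
            _ = |C1| * C2 * (X ^ (s + η) * X ^ (τ + η)) := by ring
            _ = |C1| * C2 * X ^ (s + η + (τ + η)) := by rw [← Real.rpow_add hX0])
      refine (h2.mul_left ((4 * 2 ^ |θ| * c * R) ^ D)).congr fun p => ?_
      have := hpos p
      have e : (4 * 2 ^ |θ| * c * R * (h p.1.2) ^ (θ - 1)) ^ D =
          (4 * 2 ^ |θ| * c * R) ^ D * ((h p.1.2) ^ (θ - 1)) ^ D :=
        Real.mul_rpow (by positivity) (by positivity)
      rw [e, ← Real.rpow_mul this.le]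
      congr 2
      ring)
  refine le_trans (dimH_mono ?_) h1
  intro x hx
  simp only [Set.mem_ofPred_eq] at hx ⊢
  have himg : (Subtype.val : Q → ℕ × T) '' {p | x ∈ W h f θ c L R p.1} =
      {p : ℕ × T | (p.2 ∈ S ∧ 1 ≤ h p.2 ∧ f p.1 L ≤ 2 * h p.2) ∧ x ∈ W h f θ c L R p} := by
    ext p
    constructor
    · rintro ⟨u, hu, rfl⟩
      exact ⟨u.2, hu⟩
    · rintro ⟨hp, hpα⟩
      exact ⟨⟨p, hp⟩, hpα, rfl⟩
  rw [← himg] at hx
  exact fun hfin => hx (hfin.image _)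

/-- **Thin sets and the values of starshaped functions.** -/
theorem star_windows {T : Type} (S : Set T) (h : T → ℝ) {f : ℕ → ℝ → ℝ} {a s τ θ : ℝ} (ha : 0 ≤ a)
    (hf : Star a f) (hv : Conv a f τ) (hs : 0 ≤ s) (hτ : 0 ≤ τ) (hθ : θ < 1)
    (hS : ∀ ε : ℝ, 0 < ε → ∃ C : ℝ, ∀ X : ℝ, 1 ≤ X →
      {t | t ∈ S ∧ h t ≤ X}.Finite ∧ ({t | t ∈ S ∧ h t ≤ X}.ncard : ℝ) ≤ C * X ^ (s + ε)) :
    ∃ E : Set ℝ, dimH E ≤ ENNReal.ofReal ((s + τ) / (1 - θ)) ∧ ∀ x : ℝ, a < x → x ∉ E → ∀ c : ℝ,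
      ∃ n₀ : ℕ, ∀ n : ℕ, n₀ ≤ n → ∀ t ∈ S, c * (f n x) ^ θ < |h t - f n x| := by
  classical
  have hθ' : 0 < 1 - θ := by linarith
  refine ⟨⋃ K : ℕ, {x : ℝ | {p : ℕ × T | (p.2 ∈ S ∧ 1 ≤ h p.2 ∧ f p.1 (a + 1 / ((K : ℝ) + 1)) ≤ 2 * h p.2) ∧
      x ∈ W h f θ ((K : ℝ) + 1) (a + 1 / ((K : ℝ) + 1)) (a + 1 + (K : ℝ)) p}.Infinite}, ?_, ?_⟩
  · rw [dimH_iUnion]
    refine iSup_le fun K => ?_
    have hK : (0 : ℝ) ≤ K := Nat.cast_nonneg K
    have h1 : (0 : ℝ) < 1 / ((K : ℝ) + 1) := by positivity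
    have h2 : 1 / ((K : ℝ) + 1) ≤ 1 := by
      rw [div_le_one (by positivity)]
      linarith
    exact dim_int S h ha hf hv hs hτ hθ hS (by linarith) (by linarith) (by linarith)
  · intro x hx hxE c
    have hx0 : 0 < x := lt_of_le_of_lt ha hx
    obtain ⟨K, hK⟩ := exists_nat_ge (max (1 / (x - a)) (max x c))
    have hK1 := (le_max_left _ _).trans hK
    have hK2 := (le_max_left _ _).trans ((le_max_right _ _).trans hK)
    have hK3 := (le_max_right _ _).trans ((le_max_right _ _).trans hK)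
    have hxa : 0 < x - a := by linarith
    have hK0 : (0 : ℝ) ≤ K := Nat.cast_nonneg K
    have hL0 : (0 : ℝ) < 1 / ((K : ℝ) + 1) := by positivity
    have hfin : ¬ {p : ℕ × T | (p.2 ∈ S ∧ 1 ≤ h p.2 ∧ f p.1 (a + 1 / ((K : ℝ) + 1)) ≤ 2 * h p.2) ∧
      x ∈ W h f θ ((K : ℝ) + 1) (a + 1 / ((K : ℝ) + 1)) (a + 1 + (K : ℝ)) p}.Infinite := fun hi =>
      hxE (Set.mem_iUnion.2 ⟨K, hi⟩)
    rw [Set.not_infinite] at hfin
    have hfp : ∀ n, 0 < f n x := fun n => (hf n x x hx le_rfl).1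
    have hlarge := large hfp (show 0 < τ + 1 by linarith) (hv x hx (τ + 1) (by linarith))
      (max 2 ((2 * ((K : ℝ) + 1)) ^ (1 / (1 - θ))))
    obtain ⟨n1, hn1⟩ := eventually_atTop.1 hlarge
    refine ⟨max n1 ((hfin.toFinset.image Prod.fst).sup id + 1), fun n hn t ht => ?_⟩
    by_contra hcon
    rw [not_lt] at hcon
    have hbig := hn1 n ((le_max_left _ _).trans hn)
    have hu2 : 2 ≤ f n x := (le_max_left _ _).trans hbig
    have hu3 : (2 * ((K : ℝ) + 1)) ^ (1 / (1 - θ)) ≤ f n x := (le_max_right _ _).trans hbig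
    have hu0 := hfp n
    have hcon : |h t - f n x| ≤ ((K : ℝ) + 1) * (f n x) ^ θ :=
      hcon.trans (mul_le_mul_of_nonneg_right (by linarith) (by positivity))
    have h3 : 2 * ((K : ℝ) + 1) ≤ (f n x) ^ (1 - θ) := by
      calc 2 * ((K : ℝ) + 1) = ((2 * ((K : ℝ) + 1)) ^ (1 / (1 - θ))) ^ (1 - θ) := by
            rw [← Real.rpow_mul (by positivity), one_div_mul_cancel hθ'.ne', Real.rpow_one]
        _ ≤ (f n x) ^ (1 - θ) := Real.rpow_le_rpow (by positivity) hu3 hθ'.le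
    have h4 : ((K : ℝ) + 1) * (f n x) ^ θ ≤ f n x / 2 := by
      have e1 : (f n x) ^ θ * (f n x) ^ (1 - θ) = f n x := by
        rw [← Real.rpow_add hu0]
        rw [show θ + (1 - θ) = 1 by ring, Real.rpow_one]
      have e2 : (0 : ℝ) < (f n x) ^ θ := by positivity
      nlinarith
    have h5 := (abs_le.mp hcon).1
    have h6 := (abs_le.mp hcon).2
    have h7 : f n x ≤ 2 * h t := by linarith
    have h8 : h t ≤ 2 * f n x := by linarith
    have h9 : a + 1 / ((K : ℝ) + 1) ≤ x := by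
      have e1 : 1 / ((K : ℝ) + 1) ≤ x - a := by
        rw [div_le_iff₀ (by positivity)]
        rw [div_le_iff₀ hxa] at hK1
        nlinarith
      linarith
    have h10 : f n (a + 1 / ((K : ℝ) + 1)) ≤ f n x := by
      obtain ⟨q1, q2⟩ := hf n (a + 1 / ((K : ℝ) + 1)) x (by linarith) h9
      have hL : 0 < a + 1 / ((K : ℝ) + 1) := by linarith
      rw [div_le_div_iff₀ hL hx0] at q2
      by_contra hcon2
      rw [not_le] at hcon2
      nlinarith
    have hmem : (n, t) ∈ hfin.toFinset := by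
      rw [Set.Finite.mem_toFinset]
      exact ⟨⟨ht, by linarith, h10.trans h7⟩, h9, by linarith, hcon, h7, h8⟩
    have h11 : n ≤ (hfin.toFinset.image Prod.fst).sup id :=
      Finset.le_sup (f := id) (Finset.mem_image_of_mem Prod.fst hmem)
    have h12 := (le_max_right _ _).trans hn
    omega

open Classical in
/-- the case of a set of natural numbers -/
theorem star_nat (P : Set ℕ) {f : ℕ → ℝ → ℝ} {a s τ θ : ℝ} (ha : 0 ≤ a)
    (hf : Star a f) (hv : Conv a f τ) (hs : 0 ≤ s) (hτ : 0 ≤ τ) (hθ : θ < 1)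
    (hP : ∀ ε : ℝ, 0 < ε → ∃ C : ℝ, ∀ X : ℕ, 1 ≤ X →
      (((Ioc 0 X).filter (fun t => t ∈ P)).card : ℝ) ≤ C * (X : ℝ) ^ (s + ε)) :
    ∃ E : Set ℝ, dimH E ≤ ENNReal.ofReal ((s + τ) / (1 - θ)) ∧ ∀ x : ℝ, a < x → x ∉ E → ∀ c : ℝ,
      ∃ n₀ : ℕ, ∀ n : ℕ, n₀ ≤ n → ∀ m : ℕ, |(m : ℝ) - f n x| ≤ c * (f n x) ^ θ → 0 < m ∧ m ∉ P := by
  obtain ⟨E, hE, h⟩ := star_windows {t : ℕ | t ∈ P ∨ t = 0} (fun t : ℕ => (t : ℝ)) (θ := θ) ha hf hv hs hτ hθ (by
    intro ε hε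
    obtain ⟨C, hC⟩ := hP ε hε
    refine ⟨|C| + 1, fun X hX => ?_⟩
    have hX1 : 1 ≤ ⌊X⌋₊ := Nat.le_floor (by exact_mod_cast hX)
    have hsub : {t : ℕ | t ∈ {t : ℕ | t ∈ P ∨ t = 0} ∧ (t : ℝ) ≤ X} ⊆
        (((Ioc 0 ⌊X⌋₊).filter (fun t => t ∈ P) ∪ {0} : Finset ℕ) : Set ℕ) := by
      rintro t ⟨ht, htX⟩
      rw [mem_coe, mem_union, mem_filter, mem_Ioc, mem_singleton]
      rcases Nat.eq_zero_or_pos t with h0 | h0
      · exact Or.inr h0
      · rcases ht with ht | ht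
        · exact Or.inl ⟨⟨h0, Nat.le_floor htX⟩, ht⟩
        · exact Or.inr ht
    refine ⟨(Finset.finite_toSet _).subset hsub, ?_⟩
    have h1 := Set.ncard_le_ncard hsub (Finset.finite_toSet _)
    rw [Set.ncard_coe_finset] at h1
    have h2 := h1.trans (Finset.card_union_le _ _)
    rw [card_singleton] at h2
    have h3 : ({t : ℕ | t ∈ {t : ℕ | t ∈ P ∨ t = 0} ∧ (t : ℝ) ≤ X}.ncard : ℝ) ≤
        (((Ioc 0 ⌊X⌋₊).filter (fun t => t ∈ P)).card : ℝ) + 1 := by exact_mod_cast h2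
    have h4 := hC ⌊X⌋₊ hX1
    have h5 : ((⌊X⌋₊ : ℕ) : ℝ) ^ (s + ε) ≤ X ^ (s + ε) :=
      Real.rpow_le_rpow (Nat.cast_nonneg _) (Nat.floor_le (by linarith)) (by positivity)
    have h6 : C * ((⌊X⌋₊ : ℕ) : ℝ) ^ (s + ε) ≤ |C| * X ^ (s + ε) :=
      (mul_le_mul_of_nonneg_right (le_abs_self C) (by positivity)).trans
        (mul_le_mul_of_nonneg_left h5 (abs_nonneg C))
    have h7 : (1 : ℝ) ≤ X ^ (s + ε) := Real.one_le_rpow hX (by positivity)
    nlinarith)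
  refine ⟨E, hE, fun α hα hαE c => ?_⟩
  obtain ⟨n0, hn⟩ := h α hα hαE c
  refine ⟨n0, fun n hn1 m hm => ?_⟩
  constructor
  · rcases Nat.eq_zero_or_pos m with h0 | h0
    · exact absurd (hn n hn1 m (Or.inr h0)) (not_lt.2 hm)
    · exact h0
  · intro hmP
    exact absurd (hn n hn1 m (Or.inl hmP)) (not_lt.2 hm)

/-! ## The same with the arguments in another order -/

/-- the functions `f n` are positive on `(a, ∞)`, `a ≥ 0`, and `f n x / x` is nondecreasing there -/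
def Starshaped (a : ℝ) (f : ℕ → ℝ → ℝ) : Prop :=
  0 ≤ a ∧ ∀ n : ℕ, ∀ x y : ℝ, a < x → x ≤ y → 0 < f n x ∧ f n x / x ≤ f n y / y

theorem windows {T : Type} (S : Set T) (h : T → ℝ) {f : ℕ → ℝ → ℝ} {a s τ θ : ℝ} (hf : Starshaped a f)
    (hτ : 0 ≤ τ) (hv : Conv a f τ) (hs : 0 ≤ s) (hθ : θ < 1)
    (hS : ∀ ε : ℝ, 0 < ε → ∃ C : ℝ, ∀ X : ℝ, 1 ≤ X →
      {t | t ∈ S ∧ h t ≤ X}.Finite ∧ ({t | t ∈ S ∧ h t ≤ X}.ncard : ℝ) ≤ C * X ^ (s + ε)) :
    ∃ E : Set ℝ, dimH E ≤ ENNReal.ofReal ((s + τ) / (1 - θ)) ∧ ∀ x : ℝ, a < x → x ∉ E → ∀ c : ℝ,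
      ∃ n₀ : ℕ, ∀ n : ℕ, n₀ ≤ n → ∀ t ∈ S, c * (f n x) ^ θ < |h t - f n x| :=
  star_windows S h hf.1 hf.2 hv hs hτ hθ hS

open Classical in
theorem win_nat (P : Set ℕ) {f : ℕ → ℝ → ℝ} {a s τ θ : ℝ} (hf : Starshaped a f) (hτ : 0 ≤ τ)
    (hv : Conv a f τ) (hs : 0 ≤ s) (hθ : θ < 1)
    (hP : ∀ ε : ℝ, 0 < ε → ∃ C : ℝ, ∀ X : ℕ, 1 ≤ X →
      (((Ioc 0 X).filter (fun t => t ∈ P)).card : ℝ) ≤ C * (X : ℝ) ^ (s + ε)) :
    ∃ E : Set ℝ, dimH E ≤ ENNReal.ofReal ((s + τ) / (1 - θ)) ∧ ∀ x : ℝ, a < x → x ∉ E → ∀ c : ℝ,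
      ∃ n₀ : ℕ, ∀ n : ℕ, n₀ ≤ n → ∀ m : ℕ, |(m : ℝ) - f n x| ≤ c * (f n x) ^ θ → 0 < m ∧ m ∉ P :=
  star_nat P hf.1 hf.2 hv hs hτ hθ hP

/-! ## Examples -/

/-- multiples of a sequence -/
lemma star_mul {v : ℕ → ℝ} (hv : ∀ n, 0 < v n) : Star 0 (fun n x => v n * x) := by
  intro n x y hx hxy
  have hy : 0 < y := lt_of_lt_of_le hx hxy
  refine ⟨mul_pos (hv n) hx, ?_⟩
  rw [mul_div_assoc, div_self hx.ne', mul_div_assoc, div_self hy.ne']

lemma conv_mul {v : ℕ → ℝ} (hv : ∀ n, 0 < v n) {τ : ℝ}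
    (h : ∀ t : ℝ, τ < t → Summable (fun n : ℕ => (v n) ^ (-t))) : Conv 0 (fun n x => v n * x) τ := by
  intro x hx t ht
  refine ((h t ht).mul_right (x ^ (-t))).congr fun n => ?_
  rw [Real.mul_rpow (hv n).le hx.le]

/-- powers -/
lemma star_pow {v : ℕ → ℝ} (hv : ∀ n, 1 ≤ v n) : Star 1 (fun n x => x ^ (v n)) := by
  intro n x y hx hxy
  have hx0 : 0 < x := by linarith
  have hy : 0 < y := lt_of_lt_of_le hx0 hxy
  refine ⟨by positivity, ?_⟩
  show x ^ (v n) / x ≤ y ^ (v n) / y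
  rw [← Real.rpow_sub_one hx0.ne', ← Real.rpow_sub_one hy.ne']
  exact Real.rpow_le_rpow hx0.le hxy (by linarith [hv n])

lemma conv_pow {v : ℕ → ℝ} (h : ∀ t : ℝ, 0 < t → Summable fun n : ℕ => Real.exp (-(t * v n))) :
    Conv 1 (fun n x => x ^ (v n)) 0 := by
  intro x hx t ht
  have hx0 : 0 < x := by linarith
  refine (h (t * Real.log x) (mul_pos ht (Real.log_pos hx))).congr fun n => ?_
  rw [← Real.rpow_mul hx0.le, Real.rpow_def_of_pos hx0]
  congr 1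
  ring

/-- the orbits of a starshaped map with `g x > x` -/
lemma orbit {a : ℝ} (ha : 0 ≤ a) {g : ℝ → ℝ} (hg : ∀ x y : ℝ, a < x → x ≤ y → g x / x ≤ g y / y)
    (hg1 : ∀ x : ℝ, a < x → x < g x) : Star a (fun n x => g^[n] x) ∧ Conv a (fun n x => g^[n] x) 0 := by
  have hmono : ∀ x y : ℝ, a < x → x ≤ y → g x ≤ g y := by
    intro x y hx hxy
    have hx0 : 0 < x := lt_of_le_of_lt ha hx
    have hy0 : 0 < y := lt_of_lt_of_le hx0 hxy
    have h1 := hg x y hx hxy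
    have h2 := hg1 y (lt_of_lt_of_le hx hxy)
    rw [div_le_div_iff₀ hx0 hy0] at h1
    by_contra hcon
    rw [not_le] at hcon
    have h3 : 0 < g y := hy0.trans h2
    nlinarith
  have hS : ∀ n : ℕ, ∀ x y : ℝ, a < x → x ≤ y → a < g^[n] x ∧ g^[n] x ≤ g^[n] y ∧
      g^[n] x / x ≤ g^[n] y / y := by
    intro n
    induction n with
    | zero =>
      intro x y hx hxy
      have hx0 : 0 < x := lt_of_le_of_lt ha hx
      have hy0 : 0 < y := lt_of_lt_of_le hx0 hxy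
      refine ⟨hx, hxy, ?_⟩
      show x / x ≤ y / y
      rw [div_self hx0.ne', div_self hy0.ne']
    | succ n ih =>
      intro x y hx hxy
      have hx0 : 0 < x := lt_of_le_of_lt ha hx
      have hy0 : 0 < y := lt_of_lt_of_le hx0 hxy
      obtain ⟨h1, h2, h3⟩ := ih x y hx hxy
      rw [Function.iterate_succ_apply', Function.iterate_succ_apply']
      have hp1 : 0 < g^[n] x := lt_of_le_of_lt ha h1
      have hp2 : 0 < g^[n] y := lt_of_lt_of_le hp1 h2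
      refine ⟨h1.trans (hg1 _ h1), hmono _ _ h1 h2, ?_⟩
      have h4 := hg _ _ h1 h2
      have e1 : g (g^[n] x) / x = g (g^[n] x) / g^[n] x * (g^[n] x / x) := by field_simp
      have e2 : g (g^[n] y) / y = g (g^[n] y) / g^[n] y * (g^[n] y / y) := by field_simp
      rw [e1, e2]
      have h5 : 0 ≤ g (g^[n] y) / g^[n] y := by
        have := hg1 _ (lt_of_lt_of_le h1 h2)
        exact div_nonneg (by linarith) hp2.le
      exact mul_le_mul h4 h3 (by positivity) h5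
  refine ⟨fun n x y hx hxy => ⟨lt_of_le_of_lt ha (hS n x y hx hxy).1, (hS n x y hx hxy).2.2⟩, ?_⟩
  intro x hx t ht
  have hx0 : 0 < x := lt_of_le_of_lt ha hx
  set q : ℝ := g x / x with hq
  have hq1 : 1 < q := by
    rw [hq, lt_div_iff₀ hx0]
    linarith [hg1 x hx]
  have hq0 : 0 < q := by linarith
  have hlow : ∀ n : ℕ, q ^ n * x ≤ g^[n] x ∧ x ≤ g^[n] x := by
    intro n
    induction n with
    | zero => simp
    | succ n ih =>
      rw [Function.iterate_succ_apply']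
      have h1 := hg x _ hx ih.2
      have hp : 0 < g^[n] x := lt_of_lt_of_le hx0 ih.2
      rw [← hq, le_div_iff₀ hp] at h1
      constructor
      · calc q ^ (n + 1) * x = q * (q ^ n * x) := by ring
          _ ≤ q * g^[n] x := mul_le_mul_of_nonneg_left ih.1 hq0.le
          _ ≤ _ := h1
      · have h2 := hg1 _ (lt_of_lt_of_le hx ih.2)
        linarith [ih.2]
  have hgeo : Summable fun n : ℕ => (q ^ (-t)) ^ n * x ^ (-t) := by
    refine (summable_geometric_of_lt_one (by positivity) ?_).mul_right _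
    exact Real.rpow_lt_one_of_one_lt_of_neg hq1 (by linarith)
  refine Summable.of_nonneg_of_le (fun n => Real.rpow_nonneg (hx0.le.trans (hlow n).2) _) (fun n => ?_) hgeo
  calc (g^[n] x) ^ (-t) ≤ (q ^ n * x) ^ (-t) :=
        Real.rpow_le_rpow_of_nonpos (by positivity) (hlow n).1 (by linarith)
    _ = (q ^ (-t)) ^ n * x ^ (-t) := by
        rw [Real.mul_rpow (by positivity) hx0.le, ← Real.rpow_natCast, ← Real.rpow_natCast,
          ← Real.rpow_mul hq0.le, ← Real.rpow_mul hq0.le, mul_comm (n : ℝ)]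

theorem ex_mul (v : ℕ → ℝ) (τ : ℝ) (hv : ∀ n, 0 < v n)
    (h : ∀ t : ℝ, τ < t → Summable (fun n : ℕ => (v n) ^ (-t))) :
    Starshaped 0 (fun n x => v n * x) ∧ Conv 0 (fun n x => v n * x) τ :=
  ⟨⟨le_rfl, star_mul hv⟩, conv_mul hv h⟩

theorem ex_pow (v : ℕ → ℝ) (hv : ∀ n, 1 ≤ v n)
    (h : ∀ t : ℝ, 0 < t → Summable fun n : ℕ => Real.exp (-(t * v n))) :
    Starshaped 1 (fun n x => x ^ (v n)) ∧ Conv 1 (fun n x => x ^ (v n)) 0 :=
  ⟨⟨zero_le_one, star_pow hv⟩, conv_pow h⟩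

theorem ex_orbit (a : ℝ) (g : ℝ → ℝ) (ha : 0 ≤ a) (hg : ∀ x y : ℝ, a < x → x ≤ y → g x / x ≤ g y / y)
    (hg1 : ∀ x : ℝ, a < x → x < g x) :
    Starshaped a (fun n x => g^[n] x) ∧ Conv a (fun n x => g^[n] x) 0 :=
  ⟨⟨ha, (orbit ha hg hg1).1⟩, (orbit ha hg hg1).2⟩

end Pool.Agent.R482.ST
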