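import Pool.Agent.R482.ST.Star

/-!
# Sets of small density in short windows around the values of starshaped functions, for almost all arguments

`f n`, `n = 0, 1, 2, …`, are positive functions on `(a, ∞)`, `a ≥ 0`, such that `f n x / x` is nondecreasing, and bounded
below by a positive constant for each `x`. If `S n` has at most `C n * X` members of height at most `X`, and the sums of
`C n * L n * (1 + log (f n y / f n x))` converge, then for almost all `x > a` and all but finitely many `n` no member of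
`S n` has a height `H` with `|H - f n x| ≤ L n`.
-/

set_option autoImplicit false

open Filter Topology Finset MeasureTheory
open scoped ENNReal

namespace Pool.Agent.R482.ST

/-- the sets of the window -/
def B {T : Type} (S : Set T) (h : T → ℝ) (f : ℝ → ℝ) (L lo hi : ℝ) : Set ℝ :=
  {x : ℝ | lo ≤ x ∧ x ≤ hi ∧ ∃ t ∈ S, |h t - f x| ≤ L}

lemma vol_piece {f : ℝ → ℝ} {a : ℝ} (ha : 0 ≤ a)
    (hf : ∀ x y : ℝ, a < x → x ≤ y → 0 < f x ∧ f x / x ≤ f y / y) {H L lo hi G : ℝ} (hlo : a < lo)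
    (hL : 0 ≤ L) (hG : 0 < G) :
    volume {x : ℝ | lo ≤ x ∧ x ≤ hi ∧ G ≤ f x ∧ |H - f x| ≤ L} ≤ ENNReal.ofReal (2 * hi * L / G) := by
  refine (Real.volume_le_diam _).trans ?_
  have key : ∀ x y : ℝ, lo ≤ x → x ≤ y → y ≤ hi → G ≤ f y → |H - f x| ≤ L → |H - f y| ≤ L →
      y - x ≤ 2 * hi * L / G := by
    intro x y hx hxy hy hGy h1 h2
    have hax : a < x := lt_of_lt_of_le hlo hx
    have hx0 : 0 < x := lt_of_le_of_lt ha hax
    have hy0 : 0 < y := lt_of_lt_of_le hx0 hxy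
    obtain ⟨p1, p2⟩ := hf x y hax hxy
    have p3 : 0 < f y := lt_of_lt_of_le hG hGy
    have h3 : f y - f x ≤ 2 * L := by
      have e1 := (abs_le.mp h1).2
      have e2 := (abs_le.mp h2).1
      linarith
    rw [div_le_div_iff₀ hx0 hy0] at p2
    -- f x * y ≤ f y * x
    have h4 : f y * (y - x) ≤ 2 * L * y := by nlinarith
    rw [le_div_iff₀ hG]
    calc (y - x) * G ≤ (y - x) * f y := mul_le_mul_of_nonneg_left hGy (by linarith)
      _ = f y * (y - x) := by ring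
      _ ≤ 2 * L * y := h4
      _ ≤ 2 * L * hi := mul_le_mul_of_nonneg_left hy (by linarith)
      _ = 2 * hi * L := by ring
  apply Metric.ediam_le
  intro x hx y hy
  rw [edist_dist]
  apply ENNReal.ofReal_le_ofReal
  rw [Real.dist_eq]
  obtain ⟨x1, x2, x3, x4⟩ := hx
  obtain ⟨y1, y2, y3, y4⟩ := hy
  rcases le_total x y with hle | hle
  · rw [abs_sub_comm, abs_of_nonneg (by linarith)]
    exact key x y x1 hle y2 y3 x4 y4
  · rw [abs_of_nonneg (by linarith)]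
    exact key y x y1 hle x2 x3 y4 x4

lemma vol_B {T : Type} (S : Set T) (h : T → ℝ) {f : ℝ → ℝ} {a : ℝ} (ha : 0 ≤ a)
    (hf : ∀ x y : ℝ, a < x → x ≤ y → 0 < f x ∧ f x / x ≤ f y / y) {C L lo hi m : ℝ} (hlo : a < lo)
    (hlh : lo ≤ hi) (hL : 0 ≤ L) (hC : 0 ≤ C) (hm : 0 < m) (hmf : m ≤ f lo) (hLf : L ≤ f lo)
    (hS : ∀ X : ℝ, 1 ≤ X → {t | t ∈ S ∧ h t ≤ X}.Finite ∧ ({t | t ∈ S ∧ h t ≤ X}.ncard : ℝ) ≤ C * X) :
    volume (B S h f L lo hi) ≤
      ENNReal.ofReal (16 * hi * (1 + 1 / m) * (C * L * (1 + Real.log (f hi / f lo)))) := by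
  classical
  set F0 : ℝ := f lo with hF0
  have hF0p : 0 < F0 := lt_of_lt_of_le hm hmf
  have hlo0 : 0 < lo := lt_of_le_of_lt ha hlo
  have hhi0 : 0 < hi := lt_of_lt_of_le hlo0 hlh
  have hmono : ∀ x y : ℝ, a < x → x ≤ y → f x ≤ f y := by
    intro x y hx hxy
    have hx0 : 0 < x := lt_of_le_of_lt ha hx
    have hy0 : 0 < y := lt_of_lt_of_le hx0 hxy
    obtain ⟨p1, p2⟩ := hf x y hx hxy
    rw [div_le_div_iff₀ hx0 hy0] at p2
    by_contra hcon
    rw [not_le] at hcon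
    have p3 : 0 < f y := (hf y y (lt_of_lt_of_le hx hxy) le_rfl).1
    nlinarith
  have hF1 : F0 ≤ f hi := hmono lo hi hlo hlh
  set K : ℕ := ⌊Real.log (f hi / F0) / Real.log 2⌋₊ with hK
  have hl2 : 0 < Real.log 2 := Real.log_pos (by norm_num)
  have hlog0 : 0 ≤ Real.log (f hi / F0) := Real.log_nonneg (by rw [le_div_iff₀ hF0p]; linarith)
  have hX : ∀ k : ℕ, (1 : ℝ) ≤ (1 + 1 / m) * (2 ^ (k + 2) * F0) := by
    intro k
    have e1 : (1 : ℝ) ≤ 2 ^ (k + 2) := one_le_pow₀ (by norm_num)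
    have e2 : F0 ≤ 2 ^ (k + 2) * F0 := le_mul_of_one_le_left hF0p.le e1
    calc (1 : ℝ) = 1 / m * m := by field_simp
      _ ≤ (1 + 1 / m) * (2 ^ (k + 2) * F0) := by
          apply mul_le_mul _ (hmf.trans e2) hm.le (by positivity)
          linarith
  have hsub : B S h f L lo hi ⊆ ⋃ k ∈ range (K + 1),
      ⋃ t ∈ (hS _ (hX k)).1.toFinset, {x : ℝ | lo ≤ x ∧ x ≤ hi ∧ 2 ^ k * F0 ≤ f x ∧ |h t - f x| ≤ L} := by
    rintro x ⟨hx1, hx2, t, ht, htx⟩
    have hfx : F0 ≤ f x := hmono lo x hlo hx1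
    obtain ⟨k, hk1, hk2⟩ := exists_nat_pow_near (x := f x / F0) (y := (2 : ℝ))
      (by rw [le_div_iff₀ hF0p]; linarith) (by norm_num)
    rw [le_div_iff₀ hF0p] at hk1
    rw [div_lt_iff₀ hF0p] at hk2
    rw [Set.mem_iUnion₂]
    refine ⟨k, ?_, ?_⟩
    · rw [mem_range, Nat.lt_succ_iff]
      apply Nat.le_floor
      rw [le_div_iff₀ hl2, ← Real.log_pow]
      apply Real.log_le_log (by positivity)
      rw [le_div_iff₀ hF0p]
      exact hk1.trans (hmono x hi (lt_of_lt_of_le hlo hx1) hx2)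
    · rw [Set.mem_iUnion₂]
      refine ⟨t, ?_, hx1, hx2, hk1, htx⟩
      rw [Set.Finite.mem_toFinset]
      refine ⟨ht, ?_⟩
      have e1 := (abs_le.mp htx).2
      have e3 : F0 ≤ 2 ^ (k + 1) * F0 := le_mul_of_one_le_left hF0p.le (one_le_pow₀ (by norm_num))
      have e2 : 2 ^ (k + 2) * F0 = 2 ^ (k + 1) * F0 + 2 ^ (k + 1) * F0 := by ring
      have e4 : h t ≤ 2 ^ (k + 2) * F0 := by linarith
      have e5 : 0 ≤ 1 / m * (2 ^ (k + 2) * F0) := by positivity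
      linarith
  refine (measure_mono hsub).trans ((measure_biUnion_finset_le _ _).trans ?_)
  have hterm : ∀ k ∈ range (K + 1), volume (⋃ t ∈ (hS _ (hX k)).1.toFinset,
      {x : ℝ | lo ≤ x ∧ x ≤ hi ∧ 2 ^ k * F0 ≤ f x ∧ |h t - f x| ≤ L}) ≤
        ENNReal.ofReal (8 * hi * (1 + 1 / m) * (C * L)) := by
    intro k _
    refine (measure_biUnion_finset_le _ _).trans ?_
    have hG : (0 : ℝ) < 2 ^ k * F0 := by positivity
    have hnn : 0 ≤ 2 * hi * L / (2 ^ k * F0) := by positivity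
    calc ∑ t ∈ (hS _ (hX k)).1.toFinset, volume {x : ℝ | lo ≤ x ∧ x ≤ hi ∧ 2 ^ k * F0 ≤ f x ∧ |h t - f x| ≤ L}
        ≤ ∑ _t ∈ (hS _ (hX k)).1.toFinset, ENNReal.ofReal (2 * hi * L / (2 ^ k * F0)) :=
          sum_le_sum fun t _ => vol_piece ha hf hlo hL hG
      _ = ENNReal.ofReal (((hS _ (hX k)).1.toFinset.card : ℝ) * (2 * hi * L / (2 ^ k * F0))) := by
          rw [sum_const, nsmul_eq_mul, ENNReal.ofReal_mul (Nat.cast_nonneg _), ENNReal.ofReal_natCast]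
      _ ≤ ENNReal.ofReal (C * ((1 + 1 / m) * (2 ^ (k + 2) * F0)) * (2 * hi * L / (2 ^ k * F0))) := by
          apply ENNReal.ofReal_le_ofReal
          apply mul_le_mul_of_nonneg_right _ hnn
          have := (hS _ (hX k)).2
          rwa [Set.ncard_eq_toFinset_card _ (hS _ (hX k)).1] at this
      _ = ENNReal.ofReal (8 * hi * (1 + 1 / m) * (C * L)) := by
          congr 1
          field_simp
          ring
  refine (sum_le_sum hterm).trans ?_
  rw [sum_const, card_range, nsmul_eq_mul, ← ENNReal.ofReal_natCast, ← ENNReal.ofReal_mul (Nat.cast_nonneg _)]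
  apply ENNReal.ofReal_le_ofReal
  have hKle : ((K + 1 : ℕ) : ℝ) ≤ 2 * (1 + Real.log (f hi / F0)) := by
    push_cast
    have e1 : (K : ℝ) ≤ Real.log (f hi / F0) / Real.log 2 := Nat.floor_le (by positivity)
    have e2 : Real.log (f hi / F0) / Real.log 2 ≤ 2 * Real.log (f hi / F0) := by
      rw [div_le_iff₀ hl2]
      have := Real.log_two_gt_d9
      nlinarith
    linarith
  calc ((K + 1 : ℕ) : ℝ) * (8 * hi * (1 + 1 / m) * (C * L)) ≤
      (2 * (1 + Real.log (f hi / F0))) * (8 * hi * (1 + 1 / m) * (C * L)) :=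
        mul_le_mul_of_nonneg_right hKle (by positivity)
    _ = 16 * hi * (1 + 1 / m) * (C * L * (1 + Real.log (f hi / F0))) := by ring

/-- **Sets of small density and the values of starshaped functions.** -/
theorem star_ae {T : Type} (S : ℕ → Set T) (h : T → ℝ) {f : ℕ → ℝ → ℝ} {a : ℝ} (ha : 0 ≤ a) (hf : Star a f)
    (hm : ∀ x : ℝ, a < x → ∃ m : ℝ, 0 < m ∧ ∀ n, m ≤ f n x) {C L : ℕ → ℝ} (hC : ∀ n, 0 ≤ C n)
    (hL : ∀ n, 0 ≤ L n) (hLf : ∀ x : ℝ, a < x → ∀ᶠ n in atTop, L n ≤ f n x)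
    (hsum : ∀ x y : ℝ, a < x → x ≤ y → Summable fun n => C n * L n * (1 + Real.log (f n y / f n x)))
    (hS : ∀ n, ∀ X : ℝ, 1 ≤ X →
      {t | t ∈ S n ∧ h t ≤ X}.Finite ∧ ({t | t ∈ S n ∧ h t ≤ X}.ncard : ℝ) ≤ C n * X) :
    ∃ N : Set ℝ, volume N = 0 ∧ ∀ x : ℝ, a < x → x ∉ N →
      ∃ n₀ : ℕ, ∀ n : ℕ, n₀ ≤ n → ∀ t ∈ S n, L n < |h t - f n x| := by
  classical
  have hone : ∀ K : ℕ, ∃ N : Set ℝ, volume N = 0 ∧ ∀ x : ℝ, a + 1 / ((K : ℝ) + 1) ≤ x → x ≤ a + 1 + K → x ∉ N →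
      ∃ n₀ : ℕ, ∀ n : ℕ, n₀ ≤ n → ∀ t ∈ S n, L n < |h t - f n x| := by
    intro K
    set lo : ℝ := a + 1 / ((K : ℝ) + 1) with hlo
    set hi : ℝ := a + 1 + K with hhi
    have hK : (0 : ℝ) ≤ K := Nat.cast_nonneg K
    have hloa : a < lo := by
      have : (0 : ℝ) < 1 / ((K : ℝ) + 1) := by positivity
      linarith
    have hlh : lo ≤ hi := by
      have : 1 / ((K : ℝ) + 1) ≤ 1 := by
        rw [div_le_one (by positivity)]
        linarith
      linarith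
    obtain ⟨m, hm0, hmf⟩ := hm lo hloa
    obtain ⟨n1, hn1⟩ := eventually_atTop.1 (hLf lo hloa)
    set D : ℝ := 16 * hi * (1 + 1 / m) with hD
    have hhi0 : 0 ≤ hi := by linarith
    have hD0 : 0 ≤ D := by positivity
    have hnn : ∀ n, 0 ≤ D * (C n * L n * (1 + Real.log (f n hi / f n lo))) := by
      intro n
      have hlog : 0 ≤ Real.log (f n hi / f n lo) := by
        apply Real.log_nonneg
        obtain ⟨p1, p2⟩ := hf n lo hi hloa hlh
        have hlo0 : 0 < lo := lt_of_le_of_lt ha hloa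
        have hhi1 : 0 < hi := lt_of_lt_of_le hlo0 hlh
        rw [div_le_div_iff₀ hlo0 hhi1] at p2
        rw [le_div_iff₀ p1]
        by_contra hcon
        rw [not_le] at hcon
        have p3 : 0 < f n hi := (hf n hi hi (lt_of_lt_of_le hloa hlh) le_rfl).1
        nlinarith
      have := hC n
      have := hL n
      positivity
    have hfin : ∑' n, volume (B (S (n + n1)) h (f (n + n1)) (L (n + n1)) lo hi) ≠ ∞ := by
      have hs1 : Summable fun n => D * (C (n + n1) * L (n + n1) *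
          (1 + Real.log (f (n + n1) hi / f (n + n1) lo))) :=
        ((summable_nat_add_iff n1).2 (hsum lo hi hloa hlh)).mul_left D
      have hle : ∑' n, volume (B (S (n + n1)) h (f (n + n1)) (L (n + n1)) lo hi) ≤
          ∑' n, ENNReal.ofReal (D * (C (n + n1) * L (n + n1) *
            (1 + Real.log (f (n + n1) hi / f (n + n1) lo)))) := by
        apply ENNReal.tsum_le_tsum
        intro n
        exact vol_B (S (n + n1)) h ha (hf (n + n1)) hloa hlh (hL _) (hC _) hm0 (hmf _)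
          (hn1 _ (Nat.le_add_left _ _)) (hS _)
      refine ne_top_of_le_ne_top ?_ hle
      rw [← ENNReal.ofReal_tsum_of_nonneg (fun n => hnn _) hs1]
      exact ENNReal.ofReal_ne_top
    have hae := ae_eventually_notMem hfin
    rw [ae_iff] at hae
    refine ⟨_, hae, fun x hx1 hx2 hxN => ?_⟩
    rw [Set.mem_ofPred_eq, not_not] at hxN
    obtain ⟨n2, hn2⟩ := eventually_atTop.1 hxN
    refine ⟨n2 + n1, fun n hn t ht => ?_⟩
    by_contra hcon
    rw [not_lt] at hcon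
    have h1 := hn2 (n - n1) (by omega)
    rw [show n - n1 + n1 = n by omega] at h1
    exact h1 ⟨hx1, hx2, t, ht, hcon⟩
  choose N hN hN2 using hone
  refine ⟨⋃ K, N K, measure_iUnion_null hN, fun x hx hxN => ?_⟩
  obtain ⟨K, hK⟩ := exists_nat_ge (max (1 / (x - a)) x)
  have hK1 := (le_max_left _ _).trans hK
  have hK2 := (le_max_right _ _).trans hK
  have hxa : 0 < x - a := by linarith
  have hK0 : (0 : ℝ) ≤ K := Nat.cast_nonneg K
  rw [Set.mem_iUnion] at hxN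
  push Not at hxN
  refine hN2 K x ?_ (by linarith) (hxN K)
  have e1 : 1 / ((K : ℝ) + 1) ≤ x - a := by
    rw [div_le_iff₀ (by positivity)]
    rw [div_le_iff₀ hxa] at hK1
    nlinarith
  linarith

lemma summable_pow {A v : ℕ → ℝ} (hA : ∀ n, 0 ≤ A n) (hv : ∀ n, 1 ≤ v n) (hs : Summable fun n => A n * v n)
    {x y : ℝ} (hx : 1 < x) (hxy : x ≤ y) :
    Summable fun n => A n * (1 + Real.log (y ^ (v n) / x ^ (v n))) := by
  have hx0 : 0 < x := by linarith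
  have hy0 : 0 < y := by linarith
  have hl : 0 ≤ Real.log (y / x) := Real.log_nonneg (by rw [le_div_iff₀ hx0]; linarith)
  have e : ∀ n, Real.log (y ^ (v n) / x ^ (v n)) = v n * Real.log (y / x) := by
    intro n
    rw [← Real.div_rpow hy0.le hx0.le, Real.log_rpow (by positivity)]
  refine Summable.of_nonneg_of_le (fun n => ?_) (fun n => ?_) (hs.mul_right (1 + Real.log (y / x)))
  · rw [e]
    have := hA n
    have := hv n
    positivity
  · rw [e, mul_assoc]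
    apply mul_le_mul_of_nonneg_left _ (hA n)
    nlinarith [hv n]

lemma pow_lower {v : ℕ → ℝ} (hv : ∀ n, 1 ≤ v n) (x : ℝ) (hx : 1 < x) : ∃ m : ℝ, 0 < m ∧ ∀ n, m ≤ x ^ (v n) :=
  ⟨1, one_pos, fun n => Real.one_le_rpow hx.le (by linarith [hv n])⟩

/-- the same with the arguments in another order -/
theorem ae_windows {T : Type} (S : ℕ → Set T) (h : T → ℝ) {f : ℕ → ℝ → ℝ} {a : ℝ} (hf : Starshaped a f)
    (hm : ∀ x : ℝ, a < x → ∃ m : ℝ, 0 < m ∧ ∀ n, m ≤ f n x) {C L : ℕ → ℝ} (hC : ∀ n, 0 ≤ C n)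
    (hL : ∀ n, 0 ≤ L n) (hLf : ∀ x : ℝ, a < x → ∀ᶠ n in atTop, L n ≤ f n x)
    (hsum : ∀ x y : ℝ, a < x → x ≤ y → Summable fun n => C n * L n * (1 + Real.log (f n y / f n x)))
    (hS : ∀ n, ∀ X : ℝ, 1 ≤ X →
      {t | t ∈ S n ∧ h t ≤ X}.Finite ∧ ({t | t ∈ S n ∧ h t ≤ X}.ncard : ℝ) ≤ C n * X) :
    ∃ N : Set ℝ, volume N = 0 ∧ ∀ x : ℝ, a < x → x ∉ N →
      ∃ n₀ : ℕ, ∀ n : ℕ, n₀ ≤ n → ∀ t ∈ S n, L n < |h t - f n x| :=
  star_ae S h hf.1 hf.2 hm hC hL hLf hsum hS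

theorem pow_ae_windows {T : Type} (S : ℕ → Set T) (h : T → ℝ) {v : ℕ → ℝ} (hv : ∀ n, 1 ≤ v n)
    {C L : ℕ → ℝ} (hC : ∀ n, 0 ≤ C n)
    (hL : ∀ n, 0 ≤ L n) (hLf : ∀ x : ℝ, 1 < x → ∀ᶠ n in atTop, L n ≤ x ^ (v n))
    (hsum : Summable fun n => C n * L n * v n)
    (hS : ∀ n, ∀ X : ℝ, 1 ≤ X →
      {t | t ∈ S n ∧ h t ≤ X}.Finite ∧ ({t | t ∈ S n ∧ h t ≤ X}.ncard : ℝ) ≤ C n * X) :
    ∃ N : Set ℝ, volume N = 0 ∧ ∀ x : ℝ, 1 < x → x ∉ N →
      ∃ n₀ : ℕ, ∀ n : ℕ, n₀ ≤ n → ∀ t ∈ S n, L n < |h t - x ^ (v n)| :=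
  star_ae S h (f := fun n x => x ^ (v n)) zero_le_one (star_pow hv) (pow_lower hv) hC hL hLf
    (fun _ _ hx hxy => summable_pow (fun n => mul_nonneg (hC n) (hL n)) hv hsum hx hxy) hS

end Pool.Agent.R482.ST
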