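import Pool.Agent.R482.ST.Ae

/-!
# Sets of density zero in short windows around the values of starshaped functions, for almost all arguments

The same as in `Pool.Agent.R482.ST.Ae` for a fixed set with at most `D X * X` members of height at most `X`, `D`
nonincreasing; in particular for sets with `O (X / (log X) ^ b)` members of height at most `X` for every `b` and the windows
`|h - x ^ (v n)| ≤ (v n) ^ A`.
-/

set_option autoImplicit false

open Filter Topology Finset MeasureTheory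
open scoped ENNReal

namespace Pool.Agent.R482.ST

lemma ae_core {T : Type} (S : ℕ → Set T) (h : T → ℝ) {f : ℕ → ℝ → ℝ} {a : ℝ} {L : ℕ → ℝ}
    (hpiece : ∀ lo hi : ℝ, a < lo → lo ≤ hi → ∃ u : ℕ → ℝ, (∀ n, 0 ≤ u n) ∧ Summable u ∧
      ∀ᶠ n in atTop, volume (B (S n) h (f n) (L n) lo hi) ≤ ENNReal.ofReal (u n)) :
    ∃ N : Set ℝ, volume N = 0 ∧ ∀ x : ℝ, a < x → x ∉ N →
      ∃ n₀ : ℕ, ∀ n : ℕ, n₀ ≤ n → ∀ t ∈ S n, L n < |h t - f n x| := by
  classical
  have hone : ∀ K : ℕ, ∃ N : Set ℝ, volume N = 0 ∧ ∀ x : ℝ, a + 1 / ((K : ℝ) + 1) ≤ x → x ≤ a + 1 + K → x ∉ N →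
      ∃ n₀ : ℕ, ∀ n : ℕ, n₀ ≤ n → ∀ t ∈ S n, L n < |h t - f n x| := by
    intro K
    set lo : ℝ := a + 1 / ((K : ℝ) + 1) with hlo
    set hi : ℝ := a + 1 + K with hhi
    have hK : (0 : ℝ) ≤ K := Nat.cast_nonneg K
    have hloa : a < lo := by
      have : (0 : ℝ) < 1 / ((K : ℝ) + 1) := by positivity
      linarith
    have hlh : lo ≤ hi := by
      have : 1 / ((K : ℝ) + 1) ≤ 1 := by
        rw [div_le_one (by positivity)]
        linarith
      linarith
    obtain ⟨u, hu0, hus, hev⟩ := hpiece lo hi hloa hlh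
    obtain ⟨n1, hn1⟩ := eventually_atTop.1 hev
    have hfin : ∑' n, volume (B (S (n + n1)) h (f (n + n1)) (L (n + n1)) lo hi) ≠ ∞ := by
      have hs1 : Summable fun n => u (n + n1) := (summable_nat_add_iff n1).2 hus
      have hle : ∑' n, volume (B (S (n + n1)) h (f (n + n1)) (L (n + n1)) lo hi) ≤
          ∑' n, ENNReal.ofReal (u (n + n1)) :=
        ENNReal.tsum_le_tsum fun n => hn1 _ (Nat.le_add_left _ _)
      refine ne_top_of_le_ne_top ?_ hle
      rw [← ENNReal.ofReal_tsum_of_nonneg (fun n => hu0 _) hs1]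
      exact ENNReal.ofReal_ne_top
    have hae := ae_eventually_notMem hfin
    rw [ae_iff] at hae
    refine ⟨_, hae, fun x hx1 hx2 hxN => ?_⟩
    rw [Set.mem_ofPred_eq, not_not] at hxN
    obtain ⟨n2, hn2⟩ := eventually_atTop.1 hxN
    refine ⟨n2 + n1, fun n hn t ht => ?_⟩
    by_contra hcon
    rw [not_lt] at hcon
    have h1 := hn2 (n - n1) (by omega)
    rw [show n - n1 + n1 = n by omega] at h1
    exact h1 ⟨hx1, hx2, t, ht, hcon⟩
  choose N hN hN2 using hone
  refine ⟨⋃ K, N K, measure_iUnion_null hN, fun x hx hxN => ?_⟩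
  obtain ⟨K, hK⟩ := exists_nat_ge (max (1 / (x - a)) (x - a))
  have hK1 := (le_max_left _ _).trans hK
  have hK2 := (le_max_right _ _).trans hK
  have hxa : 0 < x - a := by linarith
  have hK0 : (0 : ℝ) ≤ K := Nat.cast_nonneg K
  rw [Set.mem_iUnion] at hxN
  push Not at hxN
  refine hN2 K x ?_ (by linarith) (hxN K)
  have e1 : 1 / ((K : ℝ) + 1) ≤ x - a := by
    rw [div_le_iff₀ (by positivity)]
    rw [div_le_iff₀ hxa] at hK1
    nlinarith
  linarith

/-- **Sets of density zero and the values of starshaped functions.** -/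
theorem star_density {T : Type} (S : Set T) (h : T → ℝ) {f : ℕ → ℝ → ℝ} {a : ℝ} (ha : 0 ≤ a) (hf : Star a f)
    (hinf : ∀ x : ℝ, a < x → Tendsto (fun n => f n x) atTop atTop) {D : ℝ → ℝ} (hD0 : ∀ X : ℝ, 1 ≤ X → 0 ≤ D X)
    (hD : ∀ X Y : ℝ, 1 ≤ X → X ≤ Y → D Y ≤ D X) {L : ℕ → ℝ}
    (hL : ∀ n, 0 ≤ L n) (hLf : ∀ x : ℝ, a < x → ∀ᶠ n in atTop, 2 * L n ≤ f n x)
    (hsum : ∀ x y : ℝ, a < x → x ≤ y → Summable fun n => D (f n x / 2) * L n * (1 + Real.log (f n y / f n x)))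
    (hS : ∀ X : ℝ, 1 ≤ X →
      {t | t ∈ S ∧ h t ≤ X}.Finite ∧ ({t | t ∈ S ∧ h t ≤ X}.ncard : ℝ) ≤ D X * X) :
    ∃ N : Set ℝ, volume N = 0 ∧ ∀ x : ℝ, a < x → x ∉ N →
      ∃ n₀ : ℕ, ∀ n : ℕ, n₀ ≤ n → ∀ t ∈ S, L n < |h t - f n x| := by
  apply ae_core (fun _ => S) h
  intro lo hi hlo hlh
  have hlo0 : 0 < lo := lt_of_le_of_lt ha hlo
  have hhi0 : 0 < hi := lt_of_lt_of_le hlo0 hlh
  have hlog : ∀ n, 0 ≤ Real.log (f n hi / f n lo) := by
    intro n
    apply Real.log_nonneg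
    obtain ⟨p1, p2⟩ := hf n lo hi hlo hlh
    rw [div_le_div_iff₀ hlo0 hhi0] at p2
    rw [le_div_iff₀ p1]
    by_contra hcon
    rw [not_le] at hcon
    have p3 : 0 < f n hi := (hf n hi hi (lt_of_lt_of_le hlo hlh) le_rfl).1
    nlinarith
  refine ⟨fun n => |16 * hi * (1 + 1 / 1) * (D (f n lo / 2) * L n * (1 + Real.log (f n hi / f n lo)))|,
    fun n => abs_nonneg _, ((hsum lo hi hlo hlh).mul_left _).abs, ?_⟩
  have h2 := (hinf lo hlo).eventually (eventually_ge_atTop 2)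
  filter_upwards [h2, hLf lo hlo] with n hn2 hn3
  have hmono : ∀ x y : ℝ, a < x → x ≤ y → f n x ≤ f n y := by
    intro x y hx hxy
    have hx0 : 0 < x := lt_of_le_of_lt ha hx
    have hy0 : 0 < y := lt_of_lt_of_le hx0 hxy
    obtain ⟨p1, p2⟩ := hf n x y hx hxy
    rw [div_le_div_iff₀ hx0 hy0] at p2
    by_contra hcon
    rw [not_le] at hcon
    have p3 : 0 < f n y := (hf n y y (lt_of_lt_of_le hx hxy) le_rfl).1
    nlinarith
  have hsub : B S h (f n) (L n) lo hi ⊆ B {t | t ∈ S ∧ f n lo / 2 ≤ h t} h (f n) (L n) lo hi := by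
    rintro x ⟨hx1, hx2, t, ht, htx⟩
    refine ⟨hx1, hx2, t, ⟨ht, ?_⟩, htx⟩
    have e1 := (abs_le.mp htx).1
    have e2 := hmono lo x hlo hx1
    linarith
  refine (measure_mono hsub).trans ((vol_B {t | t ∈ S ∧ f n lo / 2 ≤ h t} h ha (hf n) (C := D (f n lo / 2))
    (m := 1) hlo hlh (hL n) (hD0 _ (by linarith)) one_pos (by linarith) (by linarith [hL n]) ?_).trans ?_)
  · intro X hX
    have hs : {t | t ∈ {t | t ∈ S ∧ f n lo / 2 ≤ h t} ∧ h t ≤ X} ⊆ {t | t ∈ S ∧ h t ≤ X} := by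
      rintro t ⟨⟨h1, -⟩, h3⟩
      exact ⟨h1, h3⟩
    refine ⟨(hS X hX).1.subset hs, ?_⟩
    have hDn : 0 ≤ D (f n lo / 2) := hD0 _ (by linarith)
    rcases lt_or_ge X (f n lo / 2) with hlt | hge
    · have he : {t | t ∈ {t | t ∈ S ∧ f n lo / 2 ≤ h t} ∧ h t ≤ X} = ∅ := by
        rw [Set.eq_empty_iff_forall_notMem]
        rintro t ⟨⟨-, h2⟩, h3⟩
        linarith
      rw [he, Set.ncard_empty, Nat.cast_zero]
      positivity
    · calc ({t | t ∈ {t | t ∈ S ∧ f n lo / 2 ≤ h t} ∧ h t ≤ X}.ncard : ℝ)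
          ≤ ({t | t ∈ S ∧ h t ≤ X}.ncard : ℝ) := by exact_mod_cast Set.ncard_le_ncard hs (hS X hX).1
        _ ≤ D X * X := (hS X hX).2
        _ ≤ D (f n lo / 2) * X :=
            mul_le_mul_of_nonneg_right (hD _ _ (by linarith) hge) (by linarith)
  · exact ENNReal.ofReal_le_ofReal (le_abs_self _)

/-- **Sets with a saving of arbitrary powers of the logarithm, and powers.** -/
theorem pow_log_windows {T : Type} (S : Set T) (h : T → ℝ) {v : ℕ → ℝ} (hv : ∀ n, 1 ≤ v n) {t : ℝ}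
    (hvt : Summable fun n => (v n) ^ (-t)) (ht : 0 < t)
    (hS : ∀ b : ℝ, 0 < b → ∃ C : ℝ, ∀ X : ℝ, 1 ≤ X →
      {t | t ∈ S ∧ h t ≤ X}.Finite ∧ ({t | t ∈ S ∧ h t ≤ X}.ncard : ℝ) ≤ C * X * (1 + Real.log X) ^ (-b)) :
    ∃ N : Set ℝ, volume N = 0 ∧ ∀ x : ℝ, 1 < x → x ∉ N → ∀ A : ℝ,
      ∃ n₀ : ℕ, ∀ n : ℕ, n₀ ≤ n → ∀ s ∈ S, (v n) ^ A < |h s - x ^ (v n)| := by
  have hvinf : Tendsto v atTop atTop := by
    rw [tendsto_atTop]
    intro M
    exact large (fun n => by linarith [hv n]) ht hvt M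
  have hone : ∀ A : ℕ, ∃ N : Set ℝ, volume N = 0 ∧ ∀ x : ℝ, 1 < x → x ∉ N →
      ∃ n₀ : ℕ, ∀ n : ℕ, n₀ ≤ n → ∀ s ∈ S, (v n) ^ A < |h s - x ^ (v n)| := by
    intro A
    obtain ⟨C, hC⟩ := hS (t + A + 1) (by positivity)
    refine star_density S h (f := fun n x => x ^ (v n)) zero_le_one (star_pow hv) ?_
      (D := fun X => |C| * (1 + Real.log X) ^ (-(t + A + 1))) ?_ ?_ (L := fun n => (v n) ^ A) ?_ ?_ ?_ ?_
    · intro x hx
      have h1 : Tendsto (fun n => Real.log x * v n) atTop atTop := hvinf.const_mul_atTop (Real.log_pos hx)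
      have h2 := Real.tendsto_exp_atTop.comp h1
      refine h2.congr fun n => ?_
      rw [Function.comp, ← Real.rpow_def_of_pos (by linarith)]
    · intro X hX
      have := Real.log_nonneg hX
      positivity
    · intro X Y hX hXY
      apply mul_le_mul_of_nonneg_left _ (abs_nonneg C)
      have h0 := Real.log_nonneg hX
      apply Real.rpow_le_rpow_of_nonpos (by linarith)
      · have := Real.log_le_log (by linarith) hXY
        linarith
      · have : (0 : ℝ) ≤ A := Nat.cast_nonneg A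
        linarith
    · intro n
      have := hv n
      positivity
    · intro x hx
      -- 2 v^A ≤ x^v eventually
      have hx0 : 0 < Real.log x := Real.log_pos hx
      have h1 : Tendsto (fun y : ℝ => Real.exp (Real.log x * y) / y ^ A) atTop atTop := by
        have h2 := tendsto_exp_mul_div_rpow_atTop (A : ℝ) (Real.log x) hx0
        refine h2.congr fun y => ?_
        rw [Real.rpow_natCast]
      have h3 := (h1.comp hvinf).eventually (eventually_ge_atTop 2)
      filter_upwards [h3] with n hn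
      have hvn : 0 < v n := by linarith [hv n]
      have h4 : 2 ≤ Real.exp (Real.log x * v n) / (v n) ^ A := hn
      rw [le_div_iff₀ (by positivity)] at h4
      rw [Real.rpow_def_of_pos (by linarith)]
      exact h4
    · intro x y hx hxy
      have hx0 : 0 < Real.log x := Real.log_pos hx
      have hxp : 0 < x := by linarith
      have hyp : 0 < y := by linarith
      have hly : 0 ≤ Real.log (y / x) := Real.log_nonneg (by rw [le_div_iff₀ hxp]; linarith)
      refine Summable.of_nonneg_of_le (fun n => ?_) (fun n => ?_)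
        (hvt.mul_left (|C| * (Real.log x) ^ (-(t + A + 1)) * (1 + Real.log (y / x))))
      all_goals
        have hvn : 1 ≤ v n := hv n
        have hvn0 : 0 < v n := by linarith
        have e : Real.log (y ^ (v n) / x ^ (v n)) = v n * Real.log (y / x) := by
          rw [← Real.div_rpow hyp.le hxp.le, Real.log_rpow (by positivity)]
        have e2 : Real.log (x ^ (v n) / 2) = v n * Real.log x - Real.log 2 := by
          rw [Real.log_div (by positivity) (by norm_num), Real.log_rpow hxp]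
        have e3 : v n * Real.log x ≤ 1 + Real.log (x ^ (v n) / 2) := by
          rw [e2]
          have := Real.log_two_lt_d9
          linarith
        have e4 : 0 < v n * Real.log x := by positivity
      · show 0 ≤ |C| * (1 + Real.log (x ^ (v n) / 2)) ^ (-(t + A + 1)) * (v n) ^ A *
          (1 + Real.log (y ^ (v n) / x ^ (v n)))
        rw [e]
        have : 0 < 1 + Real.log (x ^ (v n) / 2) := lt_of_lt_of_le e4 e3
        positivity
      · show |C| * (1 + Real.log (x ^ (v n) / 2)) ^ (-(t + A + 1)) * (v n) ^ A *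
          (1 + Real.log (y ^ (v n) / x ^ (v n))) ≤
            |C| * (Real.log x) ^ (-(t + A + 1)) * (1 + Real.log (y / x)) * (v n) ^ (-t)
        rw [e]
        have e5 : (1 + Real.log (x ^ (v n) / 2)) ^ (-(t + A + 1)) ≤ (v n * Real.log x) ^ (-(t + A + 1)) := by
          apply Real.rpow_le_rpow_of_nonpos e4 e3
          have : (0 : ℝ) ≤ A := Nat.cast_nonneg A
          linarith
        have e6 : (v n * Real.log x) ^ (-(t + A + 1)) = (v n) ^ (-(t + A + 1)) * (Real.log x) ^ (-(t + A + 1)) :=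
          Real.mul_rpow hvn0.le hx0.le
        have e7 : 1 + v n * Real.log (y / x) ≤ v n * (1 + Real.log (y / x)) := by nlinarith
        have e8 : (v n) ^ (-(t + A + 1)) * (v n) ^ A * v n = (v n) ^ (-t) := by
          rw [← Real.rpow_natCast (v n) A, ← Real.rpow_add hvn0]
          nth_rewrite 2 [← Real.rpow_one (v n)]
          rw [← Real.rpow_add hvn0]
          congr 1
          ring
        calc |C| * (1 + Real.log (x ^ (v n) / 2)) ^ (-(t + A + 1)) * (v n) ^ A * (1 + v n * Real.log (y / x))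
            ≤ |C| * (v n * Real.log x) ^ (-(t + A + 1)) * (v n) ^ A * (v n * (1 + Real.log (y / x))) := by
              gcongr
          _ = |C| * (Real.log x) ^ (-(t + A + 1)) * (1 + Real.log (y / x)) *
                ((v n) ^ (-(t + A + 1)) * (v n) ^ A * v n) := by
              rw [e6]
              ring
          _ = _ := by rw [e8]
    · intro X hX
      refine ⟨(hC X hX).1, (hC X hX).2.trans ?_⟩
      have h0 := Real.log_nonneg hX
      calc C * X * (1 + Real.log X) ^ (-(t + A + 1)) ≤ |C| * X * (1 + Real.log X) ^ (-(t + A + 1)) := by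
            gcongr
            exact le_abs_self C
        _ = |C| * (1 + Real.log X) ^ (-(t + A + 1)) * X := by ring
  choose N hN hN2 using hone
  refine ⟨⋃ A, N A, measure_iUnion_null hN, fun x hx hxN A => ?_⟩
  rw [Set.mem_iUnion] at hxN
  push Not at hxN
  obtain ⟨j, hj⟩ := exists_nat_ge A
  obtain ⟨n₀, hn⟩ := hN2 j x hx (hxN j)
  refine ⟨n₀, fun n hn1 s hs => lt_of_le_of_lt ?_ (hn n hn1 s hs)⟩
  rw [← Real.rpow_natCast]
  exact Real.rpow_le_rpow_of_exponent_le (hv n) hj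

open Classical in
/-- from a count for large `X` to a count for all `X ≥ 1` -/
lemma log_count (S : Set ℕ) (b : ℝ) (hb : 0 < b) (h : ∃ X₀ : ℕ, ∀ X : ℕ, X₀ ≤ X →
    (((Finset.Icc 1 X).filter (fun N => N ∈ S)).card : ℝ) ≤ X / Real.log X ^ b) :
    ∃ C : ℝ, ∀ X : ℝ, 1 ≤ X → {t : ℕ | t ∈ S ∧ (t : ℝ) ≤ X}.Finite ∧
      ({t : ℕ | t ∈ S ∧ (t : ℝ) ≤ X}.ncard : ℝ) ≤ C * X * (1 + Real.log X) ^ (-b) := by
  obtain ⟨X₀, hX₀⟩ := h
  refine ⟨4 ^ b + ((X₀ : ℝ) + 9) * (b ^ b * Real.exp 1), fun X hX => ?_⟩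
  have hX0 : 0 < X := by linarith
  have hsub : {t : ℕ | t ∈ S ∧ (t : ℝ) ≤ X} ⊆
      ((insert 0 ((Finset.Icc 1 ⌊X⌋₊).filter (fun N => N ∈ S)) : Finset ℕ) : Set ℕ) := by
    rintro t ⟨ht, htX⟩
    rw [Finset.mem_coe, Finset.mem_insert, Finset.mem_filter, Finset.mem_Icc]
    rcases Nat.eq_zero_or_pos t with h0 | h0
    · exact Or.inl h0
    · exact Or.inr ⟨⟨h0, Nat.le_floor htX⟩, ht⟩
  refine ⟨(Finset.finite_toSet _).subset hsub, ?_⟩
  have h1 := Set.ncard_le_ncard hsub (Finset.finite_toSet _)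
  rw [Set.ncard_coe_finset] at h1
  have h2 := h1.trans (Finset.card_insert_le _ _)
  have h3 : ({t : ℕ | t ∈ S ∧ (t : ℝ) ≤ X}.ncard : ℝ) ≤
      (((Finset.Icc 1 ⌊X⌋₊).filter (fun N => N ∈ S)).card : ℝ) + 1 := by exact_mod_cast h2
  have hlog : 0 ≤ Real.log X := Real.log_nonneg hX
  have hy : 0 < 1 + Real.log X := by linarith
  -- (1 + log X) ^ b ≤ b ^ b e X
  have h4 : (1 + Real.log X) ^ b ≤ b ^ b * Real.exp 1 * X := by
    have e1 : (1 + Real.log X) / b ≤ Real.exp ((1 + Real.log X) / b) := by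
      have := Real.add_one_le_exp ((1 + Real.log X) / b)
      linarith
    have e2 : ((1 + Real.log X) / b) ^ b ≤ (Real.exp ((1 + Real.log X) / b)) ^ b :=
      Real.rpow_le_rpow (by positivity) e1 hb.le
    rw [Real.div_rpow hy.le hb.le, ← Real.exp_mul, div_mul_cancel₀ _ hb.ne', Real.exp_add, Real.exp_log hX0,
      div_le_iff₀ (by positivity)] at e2
    linarith
  have h5 : 1 ≤ b ^ b * Real.exp 1 * X * (1 + Real.log X) ^ (-b) := by
    rw [Real.rpow_neg hy.le, ← div_eq_mul_inv, le_div_iff₀ (by positivity), one_mul]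
    exact h4
  have h6 : 0 ≤ X * (1 + Real.log X) ^ (-b) := by positivity
  rcases le_or_gt (X₀ + 8) ⌊X⌋₊ with hge | hlt
  · have h7 := hX₀ ⌊X⌋₊ (by omega)
    have hf8 : (8 : ℝ) ≤ (⌊X⌋₊ : ℝ) := by
      have : 8 ≤ ⌊X⌋₊ := by omega
      exact_mod_cast this
    have hf : (⌊X⌋₊ : ℝ) ≤ X := Nat.floor_le hX0.le
    have hf2 : X ≤ 2 * (⌊X⌋₊ : ℝ) := by
      have := (Nat.lt_floor_add_one X).le
      linarith
    have hl8 : 2 ≤ Real.log (⌊X⌋₊ : ℝ) := by
      rw [Real.le_log_iff_exp_le (by linarith)]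
      have h1 : Real.exp 2 = Real.exp 1 ^ 2 := by rw [← Real.exp_nat_mul]; norm_num
      have h2 := Real.exp_one_lt_d9
      rw [h1]
      nlinarith [Real.exp_pos 1]
    have hl : (1 + Real.log X) / 4 ≤ Real.log (⌊X⌋₊ : ℝ) := by
      have e1 : Real.log X ≤ Real.log 2 + Real.log (⌊X⌋₊ : ℝ) := by
        rw [← Real.log_mul (by norm_num) (by linarith)]
        exact Real.log_le_log hX0 hf2
      have := Real.log_two_lt_d9
      linarith
    have h8 : (⌊X⌋₊ : ℝ) / Real.log (⌊X⌋₊ : ℝ) ^ b ≤ 4 ^ b * (X * (1 + Real.log X) ^ (-b)) := by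
      have e1 : ((1 + Real.log X) / 4) ^ b ≤ Real.log (⌊X⌋₊ : ℝ) ^ b := Real.rpow_le_rpow (by positivity) hl hb.le
      calc (⌊X⌋₊ : ℝ) / Real.log (⌊X⌋₊ : ℝ) ^ b ≤ X / ((1 + Real.log X) / 4) ^ b := by
            gcongr
        _ = 4 ^ b * (X * (1 + Real.log X) ^ (-b)) := by
            rw [Real.div_rpow hy.le (by norm_num), Real.rpow_neg hy.le]
            field_simp
    have h9 : 0 ≤ ((X₀ : ℝ) + 8) * (b ^ b * Real.exp 1) * (X * (1 + Real.log X) ^ (-b)) := by positivity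
    nlinarith
  · have h7 : (((Finset.Icc 1 ⌊X⌋₊).filter (fun N => N ∈ S)).card : ℝ) ≤ (X₀ : ℝ) + 8 := by
      have e1 : ((Finset.Icc 1 ⌊X⌋₊).filter (fun N => N ∈ S)).card ≤ ⌊X⌋₊ := by
        refine (Finset.card_filter_le _ _).trans ?_
        rw [Nat.card_Icc]
        omega
      have e2 : ((Finset.Icc 1 ⌊X⌋₊).filter (fun N => N ∈ S)).card ≤ X₀ + 8 := by omega
      exact_mod_cast e2
    have h8 : 0 ≤ (4 : ℝ) ^ b * (X * (1 + Real.log X) ^ (-b)) := by positivity
    have h9 : (X₀ : ℝ) + 9 ≤ ((X₀ : ℝ) + 9) * (b ^ b * Real.exp 1 * X * (1 + Real.log X) ^ (-b)) :=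
      le_mul_of_one_le_right (by positivity) h5
    nlinarith

end Pool.Agent.R482.ST
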