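import Pool.Agent.R482.ST.Radial

/-!
# Families of exceptional tuples of fractions and radial starshaped maps

For each `X ≥ 1` let the members of height at most `X` with a relation of size `(X ^ A, X ^ (-B))` be at most `C X ^ s` in
number. Then for all vectors `u` outside a set of Hausdorff dimension at most `(s + τ) / (1 - θ)` and all large `k` the
members near `(r / ‖u‖) u`, `r = f k ‖u‖`, have no relation of size `(r ^ A, r ^ (-B'))`.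
-/

set_option autoImplicit false

open Filter Topology Finset MeasureTheory

namespace Pool.Agent.R482.ST

section abstract

variable {W : Type} [NormedAddCommGroup W] [NormedSpace ℝ W]

omit [NormedSpace ℝ W] in
/-- the count of the members with a relation of the size of their height -/
lemma dyadic {T : Type} (I : Set T) (V : T → W) (D : T → ℝ → Prop) (Rel : T → ℝ → ℝ → Prop)
    (hD : ∀ t X, ‖V t‖ ≤ X → D t X)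
    (hR : ∀ t M δ M' δ', M ≤ M' → δ ≤ δ' → Rel t M δ → Rel t M' δ')
    (hF : ∀ X : ℝ, {t | ‖V t‖ ≤ X}.Finite) {A B C s : ℝ} (hA : 0 ≤ A) (hs : 0 < s)
    (hcount : ∀ X : ℝ, 1 ≤ X → {t | t ∈ I ∧ D t X ∧ Rel t (X ^ A) (X ^ (-B))}.Finite ∧
      ({t | t ∈ I ∧ D t X ∧ Rel t (X ^ A) (X ^ (-B))}.ncard : ℝ) ≤ C * X ^ s) :
    ∃ C' : ℝ, ∀ X : ℝ, 1 ≤ X →
      {t | (t ∈ I ∧ Rel t ((2 * ‖V t‖) ^ A) ((‖V t‖ / 2) ^ (-(|B| + 1)))) ∧ ‖V t‖ ≤ X}.Finite ∧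
      ({t | (t ∈ I ∧ Rel t ((2 * ‖V t‖) ^ A) ((‖V t‖ / 2) ^ (-(|B| + 1)))) ∧ ‖V t‖ ≤ X}.ncard : ℝ) ≤ C' * X ^ s := by
  classical
  set X0 : ℝ := 8 ^ (|B| + 1) with hX0
  have hX01 : 1 ≤ X0 := Real.one_le_rpow (by norm_num) (by positivity)
  set b : ℝ := 2 ^ s with hb
  have hb1 : 1 < b := Real.one_lt_rpow (by norm_num) hs
  have hb0 : 0 < b - 1 := by linarith
  refine ⟨({t | ‖V t‖ ≤ X0}.ncard : ℝ) + |C| * b * 4 ^ s / (b - 1), fun X hX => ?_⟩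
  have hX1 : 0 < X := by linarith
  set J : ℕ := ⌈Real.logb 2 X⌉₊ with hJ
  have hJ1 : (2 : ℝ) ^ (J : ℝ) ≤ 2 * X := by
    have h1 : (J : ℝ) < Real.logb 2 X + 1 := Nat.ceil_lt_add_one (Real.logb_nonneg (by norm_num) hX)
    calc (2 : ℝ) ^ (J : ℝ) ≤ 2 ^ (Real.logb 2 X + 1) := Real.rpow_le_rpow_of_exponent_le (by norm_num) h1.le
      _ = 2 * X := by
          rw [Real.rpow_add (by norm_num), Real.rpow_logb (by norm_num) (by norm_num) hX1, Real.rpow_one]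
          ring
  have hsub : {t | (t ∈ I ∧ Rel t ((2 * ‖V t‖) ^ A) ((‖V t‖ / 2) ^ (-(|B| + 1)))) ∧ ‖V t‖ ≤ X} ⊆
      {t | ‖V t‖ ≤ X0} ∪ ⋃ j ∈ range (J + 1), {t | t ∈ I ∧ D t ((2 : ℝ) ^ ((j : ℝ) + 1)) ∧
        Rel t (((2 : ℝ) ^ ((j : ℝ) + 1)) ^ A) (((2 : ℝ) ^ ((j : ℝ) + 1)) ^ (-B))} := by
    rintro t ⟨⟨h1, h2⟩, h3⟩
    by_cases h4 : ‖V t‖ ≤ X0
    · exact Or.inl h4
    rw [not_le] at h4
    right
    set h : ℝ := ‖V t‖ with hh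
    have hh0 : 0 < h := by linarith
    have hh1 : 1 ≤ h := by linarith
    set j : ℕ := ⌈Real.logb 2 h⌉₊ with hj
    have hlog0 : 0 ≤ Real.logb 2 h := Real.logb_nonneg (by norm_num) hh1
    have hj1 : Real.logb 2 h ≤ j := Nat.le_ceil _
    have hj2 : (j : ℝ) < Real.logb 2 h + 1 := Nat.ceil_lt_add_one hlog0
    have hjJ : j ≤ J := Nat.ceil_le_ceil (Real.logb_le_logb_of_le (by norm_num) hh0 h3)
    have e1 : h ≤ 2 ^ (j : ℝ) := by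
      calc h = 2 ^ (Real.logb 2 h) := (Real.rpow_logb (by norm_num) (by norm_num) hh0).symm
        _ ≤ _ := Real.rpow_le_rpow_of_exponent_le (by norm_num) hj1
    have e2 : (2 : ℝ) ^ (j : ℝ) ≤ 2 * h := by
      calc (2 : ℝ) ^ (j : ℝ) ≤ 2 ^ (Real.logb 2 h + 1) := Real.rpow_le_rpow_of_exponent_le (by norm_num) hj2.le
        _ = 2 * h := by
            rw [Real.rpow_add (by norm_num), Real.rpow_logb (by norm_num) (by norm_num) hh0, Real.rpow_one]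
            ring
    have e3 : (2 : ℝ) ^ ((j : ℝ) + 1) = 2 * 2 ^ (j : ℝ) := by
      rw [Real.rpow_add (by norm_num), Real.rpow_one]
      ring
    set Y : ℝ := 2 ^ ((j : ℝ) + 1) with hY
    have hY0 : 0 < Y := by positivity
    have hYX : X0 ≤ Y := by linarith
    have hY1 : 1 ≤ Y := by linarith
    rw [Set.mem_iUnion₂]
    refine ⟨j, mem_range.2 (by omega), h1, hD t _ (by rw [← hh]; linarith), hR t _ _ _ _ ?_ ?_ h2⟩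
    · exact Real.rpow_le_rpow (by linarith) (by linarith) hA
    · have f1 : Y / 8 ≤ h / 2 := by linarith
      have f2 : (h / 2) ^ (-(|B| + 1)) ≤ (Y / 8) ^ (-(|B| + 1)) :=
        Real.rpow_le_rpow_of_nonpos (by positivity) f1 (by linarith [abs_nonneg B])
      have f3 : (Y / 8) ^ (-(|B| + 1)) = X0 * Y ^ (-(|B| + 1)) := by
        rw [Real.div_rpow hY0.le (by norm_num), Real.rpow_neg (by norm_num : (0:ℝ) ≤ 8), div_inv_eq_mul, mul_comm]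
      have f4 : Y * Y ^ (-(|B| + 1)) = Y ^ (-|B|) := by
        nth_rewrite 1 [← Real.rpow_one Y]
        rw [← Real.rpow_add hY0]
        congr 1
        ring
      calc (h / 2) ^ (-(|B| + 1)) ≤ X0 * Y ^ (-(|B| + 1)) := f2.trans f3.le
        _ ≤ Y * Y ^ (-(|B| + 1)) := mul_le_mul_of_nonneg_right hYX (by positivity)
        _ = Y ^ (-|B|) := f4
        _ ≤ Y ^ (-B) := Real.rpow_le_rpow_of_exponent_le hY1 (by linarith [le_abs_self B])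
  have hcnt : ∀ j : ℕ, {t | t ∈ I ∧ D t ((2 : ℝ) ^ ((j : ℝ) + 1)) ∧
        Rel t (((2 : ℝ) ^ ((j : ℝ) + 1)) ^ A) (((2 : ℝ) ^ ((j : ℝ) + 1)) ^ (-B))}.Finite ∧
      ({t | t ∈ I ∧ D t ((2 : ℝ) ^ ((j : ℝ) + 1)) ∧
        Rel t (((2 : ℝ) ^ ((j : ℝ) + 1)) ^ A) (((2 : ℝ) ^ ((j : ℝ) + 1)) ^ (-B))}.ncard : ℝ) ≤ |C| * b * b ^ j := by
    intro j
    obtain ⟨g1, g2⟩ := hcount ((2 : ℝ) ^ ((j : ℝ) + 1)) (Real.one_le_rpow (by norm_num) (by positivity))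
    refine ⟨g1, g2.trans ?_⟩
    have g3 : ((2 : ℝ) ^ ((j : ℝ) + 1)) ^ s = b * b ^ j := by
      rw [← Real.rpow_mul (by norm_num), hb, ← Real.rpow_natCast, ← Real.rpow_mul (by norm_num),
        ← Real.rpow_add (by norm_num)]
      congr 1
      ring
    rw [g3, mul_assoc]
    exact mul_le_mul_of_nonneg_right (le_abs_self C) (by positivity)
  have hfin : ({t | ‖V t‖ ≤ X0} ∪ ⋃ j ∈ range (J + 1), {t | t ∈ I ∧ D t ((2 : ℝ) ^ ((j : ℝ) + 1)) ∧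
        Rel t (((2 : ℝ) ^ ((j : ℝ) + 1)) ^ A) (((2 : ℝ) ^ ((j : ℝ) + 1)) ^ (-B))}).Finite :=
    (hF X0).union ((Finset.finite_toSet _).biUnion fun j _ => (hcnt j).1)
  refine ⟨hfin.subset hsub, ?_⟩
  have k1 := (Set.ncard_le_ncard hsub hfin).trans (Set.ncard_union_le _ _)
  have k2 : ∀ N : ℕ, ((⋃ j ∈ range N, {t | t ∈ I ∧ D t ((2 : ℝ) ^ ((j : ℝ) + 1)) ∧
        Rel t (((2 : ℝ) ^ ((j : ℝ) + 1)) ^ A) (((2 : ℝ) ^ ((j : ℝ) + 1)) ^ (-B))}).ncard : ℝ) ≤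
      ∑ j ∈ range N, |C| * b * b ^ j := by
    intro N
    induction N with
    | zero => simp
    | succ N ih =>
      rw [Finset.sum_range_succ, Finset.range_add_one, Finset.set_biUnion_insert]
      refine le_trans (Nat.cast_le.2 (Set.ncard_union_le _ _)) ?_
      rw [Nat.cast_add]
      linarith [(hcnt N).2, ih]
  have k3 : ∑ j ∈ range (J + 1), |C| * b * b ^ j ≤ |C| * b * 4 ^ s / (b - 1) * X ^ s := by
    rw [← Finset.mul_sum, geom_sum_eq hb1.ne']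
    have g1 : b ^ (J + 1) ≤ (4 * X) ^ s := by
      calc b ^ (J + 1) = ((2 : ℝ) ^ (J : ℝ) * 2) ^ s := by
            rw [hb, ← Real.rpow_natCast, ← Real.rpow_mul (by norm_num), Real.mul_rpow (by positivity) (by norm_num),
              ← Real.rpow_mul (by norm_num), ← Real.rpow_add (by norm_num)]
            congr 1
            push_cast
            ring
        _ ≤ (4 * X) ^ s := Real.rpow_le_rpow (by positivity) (by linarith) hs.le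
    have g2 : (b ^ (J + 1) - 1) / (b - 1) ≤ (4 * X) ^ s / (b - 1) :=
      div_le_div_of_nonneg_right (by linarith) hb0.le
    calc |C| * b * ((b ^ (J + 1) - 1) / (b - 1)) ≤ |C| * b * ((4 * X) ^ s / (b - 1)) :=
          mul_le_mul_of_nonneg_left g2 (by positivity)
      _ = |C| * b * 4 ^ s / (b - 1) * X ^ s := by
          rw [Real.mul_rpow (by norm_num) hX1.le]
          ring
  have k4 : (1 : ℝ) ≤ X ^ s := Real.one_le_rpow hX hs.le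
  have k5 : (({t | (t ∈ I ∧ Rel t ((2 * ‖V t‖) ^ A) ((‖V t‖ / 2) ^ (-(|B| + 1)))) ∧ ‖V t‖ ≤ X}.ncard : ℕ) : ℝ) ≤
      ({t | ‖V t‖ ≤ X0}.ncard : ℝ) + ((⋃ j ∈ range (J + 1), {t | t ∈ I ∧ D t ((2 : ℝ) ^ ((j : ℝ) + 1)) ∧
        Rel t (((2 : ℝ) ^ ((j : ℝ) + 1)) ^ A) (((2 : ℝ) ^ ((j : ℝ) + 1)) ^ (-B))}).ncard : ℝ) := by
    rw [← Nat.cast_add]
    exact Nat.cast_le.2 k1
  have k6 : (0 : ℝ) ≤ ({t | ‖V t‖ ≤ X0}.ncard : ℝ) := Nat.cast_nonneg _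
  have k7 := k2 (J + 1)
  nlinarith

/-- **The abstract theorem.** -/
theorem rel_windows {T : Type} (I : Set T) (V : T → W) (D : T → ℝ → Prop) (Rel : T → ℝ → ℝ → Prop)
    (hD : ∀ t X, ‖V t‖ ≤ X → D t X)
    (hR : ∀ t M δ M' δ', M ≤ M' → δ ≤ δ' → Rel t M δ → Rel t M' δ')
    (hF : ∀ X : ℝ, {t | ‖V t‖ ≤ X}.Finite) {A s : ℝ} (hA : 0 ≤ A) (hs : 0 < s)
    (hcount : ∃ B C : ℝ, ∀ X : ℝ, 1 ≤ X → {t | t ∈ I ∧ D t X ∧ Rel t (X ^ A) (X ^ (-B))}.Finite ∧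
      ({t | t ∈ I ∧ D t X ∧ Rel t (X ^ A) (X ^ (-B))}.ncard : ℝ) ≤ C * X ^ s) :
    ∃ B : ℝ, ∀ (f : ℕ → ℝ → ℝ) (a τ θ : ℝ), Starshaped a f → 0 ≤ τ → Conv a f τ → θ < 1 →
      ∃ E : Set W, dimH E ≤ ENNReal.ofReal ((s + τ) / (1 - θ)) ∧ ∀ u : W, a < ‖u‖ → u ∉ E → ∀ c : ℝ,
        ∃ k₀ : ℕ, ∀ k : ℕ, k₀ ≤ k → ∀ t ∈ I, ‖V t - rad (f k) u‖ ≤ c * (f k ‖u‖) ^ θ →
          ¬ Rel t ((f k ‖u‖) ^ A) ((f k ‖u‖) ^ (-B)) := by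
  obtain ⟨B, C, hC⟩ := hcount
  refine ⟨|B| + 1, fun f a τ θ hf hτ hv hθ => ?_⟩
  have hθ' : 0 < 1 - θ := by linarith
  obtain ⟨E, hE, h⟩ := radial_windows
    {t | t ∈ I ∧ Rel t ((2 * ‖V t‖) ^ A) ((‖V t‖ / 2) ^ (-(|B| + 1)))} V hf.1 hf.2 hv hs.le hτ hθ (by
      intro ε hε
      obtain ⟨C', hC'⟩ := dyadic I V D Rel hD hR hF hA hs hC
      refine ⟨|C'|, fun X hX => ⟨(hC' X hX).1, (hC' X hX).2.trans ?_⟩⟩
      have hX0 : 0 < X := by linarith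
      exact mul_le_mul (le_abs_self _) (Real.rpow_le_rpow_of_exponent_le hX (by linarith)) (by positivity)
        (abs_nonneg _))
  refine ⟨E, hE, fun u hu huE c => ?_⟩
  obtain ⟨n0, hn⟩ := h u hu huE c
  have hu0 : 0 < ‖u‖ := lt_of_le_of_lt hf.1 hu
  have hfp : ∀ n, 0 < f n ‖u‖ := fun n => (hf.2 n _ _ hu le_rfl).1
  set K : ℝ := max 1 (2 * |c|) with hK
  have hK1 : 1 ≤ K := le_max_left _ _
  have hK0 : 0 < K := by linarith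
  have hlarge := large hfp (show 0 < τ + 1 by linarith) (hv ‖u‖ hu (τ + 1) (by linarith)) (K ^ (1 / (1 - θ)))
  obtain ⟨n1, hn1⟩ := eventually_atTop.1 hlarge
  refine ⟨max n0 n1, fun k hk t ht htw hRel => ?_⟩
  set r : ℝ := f k ‖u‖ with hr
  have hr0 : 0 < r := hfp k
  have g0 := hn1 k ((le_max_right _ _).trans hk)
  have g1 : K ≤ r ^ (1 - θ) := by
    calc K = (K ^ (1 / (1 - θ))) ^ (1 - θ) := by
          rw [← Real.rpow_mul hK0.le, one_div_mul_cancel hθ'.ne', Real.rpow_one]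
      _ ≤ r ^ (1 - θ) := Real.rpow_le_rpow (by positivity) g0 hθ'.le
  have g2 : c * r ^ θ ≤ r / 2 := by
    have e1 : r ^ θ * r ^ (1 - θ) = r := by
      rw [← Real.rpow_add hr0, show θ + (1 - θ) = 1 by ring, Real.rpow_one]
    have e2 : (0 : ℝ) < r ^ θ := by positivity
    have e3 : 2 * |c| ≤ r ^ (1 - θ) := (le_max_right _ _).trans g1
    have e4 := le_abs_self c
    nlinarith
  have g3 := near_norm hu0 hr0.le (htw.trans g2)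
  rw [← hr] at g3
  have g4 := abs_le.mp g3
  have g5 : r ≤ 2 * ‖V t‖ := by linarith [g4.1]
  have g6 : ‖V t‖ / 2 ≤ r := by linarith [g4.2]
  have g7 : 0 < ‖V t‖ := by linarith
  refine absurd (hn k ((le_max_left _ _).trans hk) t ⟨ht, hR t _ _ _ _ ?_ ?_ hRel⟩) (not_lt.2 htw)
  · exact Real.rpow_le_rpow hr0.le g5 hA
  · exact Real.rpow_le_rpow_of_nonpos (by positivity) g6 (by linarith [abs_nonneg B])

end abstract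

/-! ## Fractions -/

lemma finite_rat (X : ℝ) : {q : ℚ | ((q.den : ℝ)) ≤ X ∧ |(q.num : ℝ)| ≤ X}.Finite := by
  apply Set.Finite.of_finite_image (f := fun q : ℚ => (q.num, q.den))
  · apply ((Set.finite_Icc (-(⌊X⌋)) ⌊X⌋).prod (Set.finite_Iic ⌊X⌋₊)).subset
    rintro _ ⟨q, ⟨h1, h2⟩, rfl⟩
    refine ⟨?_, ?_⟩
    · have h3 := abs_le.mp h2
      have e1 : q.num ≤ ⌊X⌋ := Int.le_floor.2 h3.2
      have e2 : -q.num ≤ ⌊X⌋ := Int.le_floor.2 (by push_cast; linarith [h3.1])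
      exact Set.mem_Icc.2 ⟨by show -⌊X⌋ ≤ q.num; omega, e1⟩
    · exact Set.mem_Iic.2 (Nat.le_floor h1)
  · intro q _ q' _ h
    exact Rat.ext (Prod.mk.inj h).1 (Prod.mk.inj h).2

/-- The fraction `q` is near the vector `u` multiplied by `g ‖u‖ / ‖u‖`: its denominator and its numerator differ by at
most `δ` from the components of this vector. -/
def NearOne (g : ℝ → ℝ) (δ : ℝ) (u : ℝ × ℝ) (q : ℚ) : Prop :=
  |(q.den : ℝ) - g ‖u‖ / ‖u‖ * u.1| ≤ δ ∧ |(q.num : ℝ) - g ‖u‖ / ‖u‖ * u.2| ≤ δ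

/-- The same for tuples of fractions. -/
def Near {n : ℕ} (g : ℝ → ℝ) (δ : ℝ) (u : Fin n → ℝ × ℝ) (q : Fin n → ℚ) : Prop :=
  ∀ j, |((q j).den : ℝ) - g ‖u‖ / ‖u‖ * (u j).1| ≤ δ ∧ |((q j).num : ℝ) - g ‖u‖ / ‖u‖ * (u j).2| ≤ δ

theorem one_windows (I : Set ℚ) (Rel : ℚ → ℝ → ℝ → Prop)
    (hR : ∀ t M δ M' δ', M ≤ M' → δ ≤ δ' → Rel t M δ → Rel t M' δ') {A s : ℝ} (hA : 0 ≤ A) (hs : 0 < s)
    (hcount : ∃ B C : ℝ, ∀ X : ℝ, 1 ≤ X → {t | t ∈ I ∧ (t.den : ℝ) ≤ X ∧ Rel t (X ^ A) (X ^ (-B))}.Finite ∧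
      ({t | t ∈ I ∧ (t.den : ℝ) ≤ X ∧ Rel t (X ^ A) (X ^ (-B))}.ncard : ℝ) ≤ C * X ^ s) :
    ∃ B : ℝ, ∀ (f : ℕ → ℝ → ℝ) (a τ θ : ℝ), Starshaped a f → 0 ≤ τ → Conv a f τ → θ < 1 →
      ∃ E : Set (ℝ × ℝ), dimH E ≤ ENNReal.ofReal ((s + τ) / (1 - θ)) ∧ ∀ u : ℝ × ℝ, a < ‖u‖ → u ∉ E → ∀ c : ℝ,
        ∃ k₀ : ℕ, ∀ k : ℕ, k₀ ≤ k → ∀ q ∈ I, NearOne (f k) (c * (f k ‖u‖) ^ θ) u q →
          ¬ Rel q ((f k ‖u‖) ^ A) ((f k ‖u‖) ^ (-B)) := by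
  obtain ⟨B, h⟩ := rel_windows I (fun q : ℚ => ((q.den : ℝ), (q.num : ℝ))) (fun q X => (q.den : ℝ) ≤ X) Rel
    (fun q X h => by
      refine le_trans ?_ ((norm_fst_le _).trans h)
      exact le_abs_self _) hR (fun X => by
      refine (finite_rat X).subset fun q hq => ?_
      have hq : ‖((q.den : ℝ), (q.num : ℝ))‖ ≤ X := hq
      exact ⟨(le_abs_self _).trans ((norm_fst_le ((q.den : ℝ), (q.num : ℝ))).trans hq),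
        (norm_snd_le ((q.den : ℝ), (q.num : ℝ))).trans hq⟩) hA hs hcount
  refine ⟨B, fun f a τ θ hf hτ hv hθ => ?_⟩
  obtain ⟨E, hE, h1⟩ := h f a τ θ hf hτ hv hθ
  refine ⟨E, hE, fun u hu huE c => ?_⟩
  obtain ⟨k0, h2⟩ := h1 u hu huE c
  refine ⟨k0, fun k hk q hq hn => h2 k hk q hq ?_⟩
  rw [Prod.norm_def]
  exact max_le hn.1 hn.2

theorem tuple_windows {n : ℕ} (I : Set (Fin n → ℚ)) (Rel : (Fin n → ℚ) → ℝ → ℝ → Prop)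
    (hR : ∀ t M δ M' δ', M ≤ M' → δ ≤ δ' → Rel t M δ → Rel t M' δ') {A s : ℝ} (hA : 0 ≤ A) (hs : 0 < s)
    (hcount : ∃ B C : ℝ, ∀ X : ℝ, 1 ≤ X →
      {t : Fin n → ℚ | t ∈ I ∧ (∀ j, ((t j).den : ℝ) ≤ X) ∧ Rel t (X ^ A) (X ^ (-B))}.Finite ∧
      ({t : Fin n → ℚ | t ∈ I ∧ (∀ j, ((t j).den : ℝ) ≤ X) ∧ Rel t (X ^ A) (X ^ (-B))}.ncard : ℝ) ≤ C * X ^ s) :
    ∃ B : ℝ, ∀ (f : ℕ → ℝ → ℝ) (a τ θ : ℝ), Starshaped a f → 0 ≤ τ → Conv a f τ → θ < 1 →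
      ∃ E : Set (Fin n → ℝ × ℝ), dimH E ≤ ENNReal.ofReal ((s + τ) / (1 - θ)) ∧
        ∀ u : Fin n → ℝ × ℝ, a < ‖u‖ → u ∉ E → ∀ c : ℝ,
          ∃ k₀ : ℕ, ∀ k : ℕ, k₀ ≤ k → ∀ q ∈ I, Near (f k) (c * (f k ‖u‖) ^ θ) u q →
            ¬ Rel q ((f k ‖u‖) ^ A) ((f k ‖u‖) ^ (-B)) := by
  rcases Nat.eq_zero_or_pos n with hn0 | hn0
  · subst hn0
    refine ⟨0, fun f a τ θ hf hτ hv hθ => ⟨∅, by simp, fun u hu => ?_⟩⟩
    exfalso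
    have : u = 0 := Subsingleton.elim _ _
    rw [this, norm_zero] at hu
    exact absurd hu (not_lt.2 hf.1)
  have : Nonempty (Fin n) := ⟨⟨0, hn0⟩⟩
  obtain ⟨B, h⟩ := rel_windows I (fun q : Fin n → ℚ => (fun j => (((q j).den : ℝ), ((q j).num : ℝ)) : Fin n → ℝ × ℝ))
    (fun q X => ∀ j, ((q j).den : ℝ) ≤ X) Rel
    (fun q X h j => by
      have h1 := (norm_le_pi_norm (fun j => (((q j).den : ℝ), ((q j).num : ℝ)) : Fin n → ℝ × ℝ) j).trans h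
      refine le_trans ?_ ((norm_fst_le _).trans h1)
      exact le_abs_self _) hR (fun X => by
      refine (Set.Finite.pi' fun j : Fin n => finite_rat X).subset fun q hq j => ?_
      have hq : ‖(fun j => (((q j).den : ℝ), ((q j).num : ℝ)) : Fin n → ℝ × ℝ)‖ ≤ X := hq
      have h1 := (norm_le_pi_norm (fun j => (((q j).den : ℝ), ((q j).num : ℝ)) : Fin n → ℝ × ℝ) j).trans hq
      exact ⟨(le_abs_self _).trans ((norm_fst_le (((q j).den : ℝ), ((q j).num : ℝ))).trans h1),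
        (norm_snd_le (((q j).den : ℝ), ((q j).num : ℝ))).trans h1⟩) hA hs hcount
  refine ⟨B, fun f a τ θ hf hτ hv hθ => ?_⟩
  obtain ⟨E, hE, h1⟩ := h f a τ θ hf hτ hv hθ
  refine ⟨E, hE, fun u hu huE c => ?_⟩
  obtain ⟨k0, h2⟩ := h1 u hu huE c
  refine ⟨k0, fun k hk q hq hn => h2 k hk q hq ?_⟩
  rw [pi_norm_le_iff_of_nonempty]
  intro j
  rw [Prod.norm_def]
  exact max_le (hn j).1 (hn j).2

lemma beta_pos {d m : ℕ} {β : ℝ} (h : 2 - 2 / (((d : ℝ) + 1) ^ m + 1) < β) : 0 < β := by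
  have h1 : (1 : ℝ) ≤ ((d : ℝ) + 1) ^ m := one_le_pow₀ (by have : (0 : ℝ) ≤ d := Nat.cast_nonneg d; linarith)
  have h2 : 2 / (((d : ℝ) + 1) ^ m + 1) ≤ 1 := by
    rw [div_le_one (by positivity)]
    linarith
  linarith

/-- polynomial relations between numbers attached to a tuple of fractions -/
theorem poly_windows {n : ℕ} (hn : 1 ≤ n) {ι : Type} (lo hi : Fin n → ℝ)
    (N : (Fin n → ℚ) → MvPolynomial ι ℤ → ℝ) (d : ℕ) {A β : ℝ} (hA : 0 ≤ A) (hβ : 0 < β)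
    (hcount : ∃ B C : ℝ, ∀ T : ℝ, 1 ≤ T →
      {q : Fin n → ℚ | (∀ j, lo j ≤ q j ∧ q j ≤ hi j ∧ ((q j).den : ℝ) ≤ T) ∧
        ∃ P : MvPolynomial ι ℤ, P ≠ 0 ∧ (∀ x, P.degreeOf x ≤ d) ∧ (∀ s, |((P.coeff s : ℤ) : ℝ)| ≤ T ^ A) ∧
          N q P ≤ T ^ (-B)}.Finite ∧
      ({q : Fin n → ℚ | (∀ j, lo j ≤ q j ∧ q j ≤ hi j ∧ ((q j).den : ℝ) ≤ T) ∧
        ∃ P : MvPolynomial ι ℤ, P ≠ 0 ∧ (∀ x, P.degreeOf x ≤ d) ∧ (∀ s, |((P.coeff s : ℤ) : ℝ)| ≤ T ^ A) ∧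
          N q P ≤ T ^ (-B)}.ncard : ℝ) ≤ C * T ^ (2 * ((n : ℝ) - 1) + β)) :
    ∃ B : ℝ, ∀ (f : ℕ → ℝ → ℝ) (a₀ τ θ : ℝ), Starshaped a₀ f → 0 ≤ τ → Conv a₀ f τ → θ < 1 →
      ∃ E : Set (Fin n → ℝ × ℝ), dimH E ≤ ENNReal.ofReal ((2 * ((n : ℝ) - 1) + β + τ) / (1 - θ)) ∧
        ∀ u : Fin n → ℝ × ℝ, a₀ < ‖u‖ → u ∉ E → ∀ c : ℝ, ∃ k₀ : ℕ, ∀ k : ℕ, k₀ ≤ k → ∀ q : Fin n → ℚ,
          (∀ j, lo j ≤ q j ∧ q j ≤ hi j) → Near (f k) (c * (f k ‖u‖) ^ θ) u q →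
            ∀ P : MvPolynomial ι ℤ, P ≠ 0 → (∀ x, P.degreeOf x ≤ d) →
              (∀ s, |((P.coeff s : ℤ) : ℝ)| ≤ (f k ‖u‖) ^ A) → (f k ‖u‖) ^ (-B) < N q P := by
  have hn' : (1 : ℝ) ≤ n := by exact_mod_cast hn
  obtain ⟨B0, C0, h0⟩ := hcount
  obtain ⟨B, h⟩ := tuple_windows {q : Fin n → ℚ | ∀ j, lo j ≤ q j ∧ q j ≤ hi j}
    (fun q M δ => ∃ P : MvPolynomial ι ℤ, P ≠ 0 ∧ (∀ x, P.degreeOf x ≤ d) ∧ (∀ s, |((P.coeff s : ℤ) : ℝ)| ≤ M) ∧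
      N q P ≤ δ)
    (fun q M δ M' δ' h1 h2 h3 => by
      obtain ⟨P, g1, g2, g3, g4⟩ := h3
      exact ⟨P, g1, g2, fun s => (g3 s).trans h1, g4.trans h2⟩) hA (s := 2 * ((n : ℝ) - 1) + β) (by linarith)
    ⟨B0, C0, fun X hX => by
      have he : {t : Fin n → ℚ | t ∈ {q : Fin n → ℚ | ∀ j, lo j ≤ q j ∧ q j ≤ hi j} ∧ (∀ j, ((t j).den : ℝ) ≤ X) ∧
          ∃ P : MvPolynomial ι ℤ, P ≠ 0 ∧ (∀ x, P.degreeOf x ≤ d) ∧ (∀ s, |((P.coeff s : ℤ) : ℝ)| ≤ X ^ A) ∧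
            N t P ≤ X ^ (-B0)} =
          {q : Fin n → ℚ | (∀ j, lo j ≤ q j ∧ q j ≤ hi j ∧ ((q j).den : ℝ) ≤ X) ∧
            ∃ P : MvPolynomial ι ℤ, P ≠ 0 ∧ (∀ x, P.degreeOf x ≤ d) ∧ (∀ s, |((P.coeff s : ℤ) : ℝ)| ≤ X ^ A) ∧
              N q P ≤ X ^ (-B0)} := by
        ext q
        constructor
        · rintro ⟨h1, h2, h3⟩
          exact ⟨fun j => ⟨(h1 j).1, (h1 j).2, h2 j⟩, h3⟩
        · rintro ⟨h1, h3⟩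
          exact ⟨fun j => ⟨(h1 j).1, (h1 j).2.1⟩, fun j => (h1 j).2.2, h3⟩
      rw [he]
      exact h0 X hX⟩
  refine ⟨B, fun f a₀ τ θ hf hτ hv hθ => ?_⟩
  obtain ⟨E, hE, h1⟩ := h f a₀ τ θ hf hτ hv hθ
  refine ⟨E, hE, fun u hu huE c => ?_⟩
  obtain ⟨k0, h2⟩ := h1 u hu huE c
  refine ⟨k0, fun k hk q hq hn P g1 g2 g3 => ?_⟩
  by_contra hcon
  exact h2 k hk q hq hn ⟨P, g1, g2, g3, not_lt.1 hcon⟩

/-- polynomial relations between numbers attached to one fraction -/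
theorem poly_one {ι : Type} (lo hi : ℝ) (N : ℚ → MvPolynomial ι ℤ → ℝ) (d : ℕ) {A β : ℝ} (hA : 0 ≤ A)
    (hβ : 0 < β) (hcount : ∃ B C : ℝ, ∀ T : ℝ, 1 ≤ T →
      {q : ℚ | lo ≤ q ∧ q ≤ hi ∧ (q.den : ℝ) ≤ T ∧
        ∃ P : MvPolynomial ι ℤ, P ≠ 0 ∧ (∀ x, P.degreeOf x ≤ d) ∧ (∀ s, |((P.coeff s : ℤ) : ℝ)| ≤ T ^ A) ∧
          N q P ≤ T ^ (-B)}.Finite ∧
      ({q : ℚ | lo ≤ q ∧ q ≤ hi ∧ (q.den : ℝ) ≤ T ∧
        ∃ P : MvPolynomial ι ℤ, P ≠ 0 ∧ (∀ x, P.degreeOf x ≤ d) ∧ (∀ s, |((P.coeff s : ℤ) : ℝ)| ≤ T ^ A) ∧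
          N q P ≤ T ^ (-B)}.ncard : ℝ) ≤ C * T ^ β) :
    ∃ B : ℝ, ∀ (f : ℕ → ℝ → ℝ) (a₀ τ θ : ℝ), Starshaped a₀ f → 0 ≤ τ → Conv a₀ f τ → θ < 1 →
      ∃ E : Set (ℝ × ℝ), dimH E ≤ ENNReal.ofReal ((β + τ) / (1 - θ)) ∧
        ∀ u : ℝ × ℝ, a₀ < ‖u‖ → u ∉ E → ∀ c : ℝ, ∃ k₀ : ℕ, ∀ k : ℕ, k₀ ≤ k → ∀ q : ℚ, lo ≤ q → q ≤ hi →
          NearOne (f k) (c * (f k ‖u‖) ^ θ) u q →
            ∀ P : MvPolynomial ι ℤ, P ≠ 0 → (∀ x, P.degreeOf x ≤ d) →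
              (∀ s, |((P.coeff s : ℤ) : ℝ)| ≤ (f k ‖u‖) ^ A) → (f k ‖u‖) ^ (-B) < N q P := by
  obtain ⟨B0, C0, h0⟩ := hcount
  obtain ⟨B, h⟩ := one_windows {q : ℚ | lo ≤ q ∧ q ≤ hi}
    (fun q M δ => ∃ P : MvPolynomial ι ℤ, P ≠ 0 ∧ (∀ x, P.degreeOf x ≤ d) ∧ (∀ s, |((P.coeff s : ℤ) : ℝ)| ≤ M) ∧
      N q P ≤ δ)
    (fun q M δ M' δ' h1 h2 h3 => by
      obtain ⟨P, g1, g2, g3, g4⟩ := h3
      exact ⟨P, g1, g2, fun s => (g3 s).trans h1, g4.trans h2⟩) hA (s := β) hβ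
    ⟨B0, C0, fun X hX => by
      have he : {t : ℚ | t ∈ {q : ℚ | lo ≤ q ∧ q ≤ hi} ∧ (t.den : ℝ) ≤ X ∧
          ∃ P : MvPolynomial ι ℤ, P ≠ 0 ∧ (∀ x, P.degreeOf x ≤ d) ∧ (∀ s, |((P.coeff s : ℤ) : ℝ)| ≤ X ^ A) ∧
            N t P ≤ X ^ (-B0)} =
          {q : ℚ | lo ≤ q ∧ q ≤ hi ∧ (q.den : ℝ) ≤ X ∧
            ∃ P : MvPolynomial ι ℤ, P ≠ 0 ∧ (∀ x, P.degreeOf x ≤ d) ∧ (∀ s, |((P.coeff s : ℤ) : ℝ)| ≤ X ^ A) ∧
              N q P ≤ X ^ (-B0)} := by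
        ext q
        constructor
        · rintro ⟨⟨h1, h2⟩, h3⟩
          exact ⟨h1, h2, h3⟩
        · rintro ⟨h1, h2, h3⟩
          exact ⟨⟨h1, h2⟩, h3⟩
      rw [he]
      exact h0 X hX⟩
  refine ⟨B, fun f a₀ τ θ hf hτ hv hθ => ?_⟩
  obtain ⟨E, hE, h1⟩ := h f a₀ τ θ hf hτ hv hθ
  refine ⟨E, hE, fun u hu huE c => ?_⟩
  obtain ⟨k0, h2⟩ := h1 u hu huE c
  refine ⟨k0, fun k hk q hq1 hq2 hn P g1 g2 g3 => ?_⟩
  by_contra hcon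
  exact h2 k hk q ⟨hq1, hq2⟩ hn ⟨P, g1, g2, g3, not_lt.1 hcon⟩

end Pool.Agent.R482.ST
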