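import Pool.Agent.R482.ST.Slow

/-!
# Square classes of integers near `x ^ (v n)`

If the squarefree integers `s`, `|s| ≤ X`, with a property `P` are `O (X (log X) ^ (-δ))`, then the integers whose squarefree part
has the property `P` are `O (X (log X) ^ (-δ))`, so that for almost all `x > 1` and all large `n` no integer `d` with
`||d| - x ^ (v n)| ≤ L n` has a squarefree part with property `P`.
-/

set_option autoImplicit false

open Filter Topology Finset MeasureTheory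
open scoped ENNReal

namespace Pool.Agent.R482.ST

lemma sf_decomp (d : ℤ) (hd : d ≠ 0) : ∃ s m : ℤ, Squarefree s ∧ 1 ≤ m ∧ d = s * m ^ 2 := by
  obtain ⟨a, b, h1, h2⟩ := Nat.sq_mul_squarefree d.natAbs
  have hb : b ≠ 0 := by
    rintro rfl
    have : d.natAbs ≠ 0 := Int.natAbs_ne_zero.2 hd
    simp at h1
    omega
  have hsa : Squarefree (a : ℤ) := Int.squarefree_natCast.2 h2
  refine ⟨d.sign * a, b, ?_, by omega, ?_⟩
  · rcases lt_or_gt_of_ne hd with h | h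
    · rw [Int.sign_eq_neg_one_of_neg h, neg_one_mul]
      intro x hx
      exact hsa x (by rwa [dvd_neg] at hx)
    · rw [Int.sign_eq_one_of_pos h, one_mul]
      exact hsa
  · have h3 : ((d.natAbs : ℕ) : ℤ) = (b : ℤ) ^ 2 * a := by
      rw [← h1]
      push_cast
      ring
    calc d = d.sign * d.natAbs := (Int.sign_mul_natAbs d).symm
      _ = d.sign * ((b : ℤ) ^ 2 * a) := by rw [h3]
      _ = _ := by ring

/-- the sum over the square factors -/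
lemma sum_sq {δ : ℝ} (hδ : 0 < δ) : Summable fun m : ℕ => (1 + 2 * Real.log m) ^ δ / (m : ℝ) ^ 2 := by
  have hb : ∃ K : ℝ, ∀ m : ℕ, 1 ≤ m → (1 + 2 * Real.log m) ^ δ ≤ K * (m : ℝ) ^ (1 / 2 : ℝ) := by
    refine ⟨(4 * δ) ^ δ * Real.exp 1, fun m hm => ?_⟩
    have hm1 : (1 : ℝ) ≤ m := by exact_mod_cast hm
    have hm0 : (0 : ℝ) < m := by linarith
    have hl : 0 ≤ Real.log m := Real.log_nonneg hm1
    have hy : 0 < 1 + 2 * Real.log m := by linarith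
    have e1 : (1 + 2 * Real.log m) / (4 * δ) ≤ Real.exp ((1 + 2 * Real.log m) / (4 * δ)) := by
      have := Real.add_one_le_exp ((1 + 2 * Real.log m) / (4 * δ))
      linarith
    have e2 : ((1 + 2 * Real.log m) / (4 * δ)) ^ δ ≤ (Real.exp ((1 + 2 * Real.log m) / (4 * δ))) ^ δ :=
      Real.rpow_le_rpow (by positivity) e1 hδ.le
    rw [Real.div_rpow hy.le (by positivity), ← Real.exp_mul, div_le_iff₀ (by positivity)] at e2
    have e3 : (1 + 2 * Real.log m) / (4 * δ) * δ = 1 / 4 + Real.log m * (1 / 2) := by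
      field_simp
      ring
    rw [e3, Real.exp_add, ← Real.rpow_def_of_pos hm0] at e2
    have e4 : Real.exp (1 / 4) ≤ Real.exp 1 := Real.exp_le_exp.2 (by norm_num)
    calc (1 + 2 * Real.log m) ^ δ ≤ Real.exp (1 / 4) * (m : ℝ) ^ (1 / 2 : ℝ) * (4 * δ) ^ δ := e2
      _ ≤ Real.exp 1 * (m : ℝ) ^ (1 / 2 : ℝ) * (4 * δ) ^ δ := by
          apply mul_le_mul_of_nonneg_right _ (by positivity)
          exact mul_le_mul_of_nonneg_right e4 (by positivity)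
      _ = _ := by ring
  obtain ⟨K, hK⟩ := hb
  have hs : Summable fun m : ℕ => 1 / (m : ℝ) ^ (3 / 2 : ℝ) := Real.summable_one_div_nat_rpow.2 (by norm_num)
  rw [← summable_nat_add_iff 1] at hs ⊢
  refine Summable.of_nonneg_of_le (fun m => ?_) (fun m => ?_) (hs.mul_left K)
  · have : (1 : ℝ) ≤ ((m + 1 : ℕ) : ℝ) := by
      push_cast
      have : (0 : ℝ) ≤ m := Nat.cast_nonneg m
      linarith
    have hl : 0 ≤ Real.log ((m + 1 : ℕ) : ℝ) := Real.log_nonneg this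
    positivity
  · have h1 : (1 : ℝ) ≤ ((m + 1 : ℕ) : ℝ) := by
      push_cast
      have : (0 : ℝ) ≤ m := Nat.cast_nonneg m
      linarith
    have h0 : (0 : ℝ) < ((m + 1 : ℕ) : ℝ) := by linarith
    have h2 := hK (m + 1) (by omega)
    rw [div_le_iff₀ (by positivity)]
    refine h2.trans (le_of_eq ?_)
    have e : ((m + 1 : ℕ) : ℝ) ^ 2 = ((m + 1 : ℕ) : ℝ) ^ (2 : ℝ) := by norm_cast
    have e5 : ((m + 1 : ℕ) : ℝ) ^ (2 : ℝ) = ((m + 1 : ℕ) : ℝ) ^ (1 / 2 : ℝ) * ((m + 1 : ℕ) : ℝ) ^ (3 / 2 : ℝ) := by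
      rw [← Real.rpow_add h0]
      norm_num
    rw [e, e5]
    have h3 : (0 : ℝ) < ((m + 1 : ℕ) : ℝ) ^ (3 / 2 : ℝ) := by positivity
    field_simp

/-- integers whose squarefree part has the property -/
lemma all_count (P : ℤ → Prop) {δ C : ℝ} (hδ : 0 < δ)
    (hP : ∀ Y : ℝ, 1 ≤ Y → {s : ℤ | s ∈ {s : ℤ | Squarefree s ∧ P s} ∧ |(s : ℝ)| ≤ Y}.Finite ∧
      ({s : ℤ | s ∈ {s : ℤ | Squarefree s ∧ P s} ∧ |(s : ℝ)| ≤ Y}.ncard : ℝ) ≤ C * Y * (1 + Real.log Y) ^ (-δ)) :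
    ∃ C' : ℝ, ∀ X : ℝ, 1 ≤ X →
      {d : ℤ | d ∈ {d : ℤ | ∃ s m : ℤ, Squarefree s ∧ P s ∧ 1 ≤ m ∧ d = s * m ^ 2} ∧ |(d : ℝ)| ≤ X}.Finite ∧
      ({d : ℤ | d ∈ {d : ℤ | ∃ s m : ℤ, Squarefree s ∧ P s ∧ 1 ≤ m ∧ d = s * m ^ 2} ∧ |(d : ℝ)| ≤ X}.ncard : ℝ) ≤
        C' * X * (1 + Real.log X) ^ (-δ) := by
  have hfin : ∀ X : ℝ,
      {d : ℤ | d ∈ {d : ℤ | ∃ s m : ℤ, Squarefree s ∧ P s ∧ 1 ≤ m ∧ d = s * m ^ 2} ∧ |(d : ℝ)| ≤ X}.Finite := by
    intro X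
    refine (Set.finite_Icc (-⌊X⌋) ⌊X⌋).subset ?_
    rintro k ⟨-, h1⟩
    rw [abs_le] at h1
    rw [Set.mem_Icc]
    constructor
    · rw [neg_le]
      apply Int.le_floor.2
      push_cast
      linarith [h1.1]
    · exact Int.le_floor.2 h1.2
  set Sg : ℝ := ∑' m : ℕ, (1 + 2 * Real.log m) ^ δ / (m : ℝ) ^ 2 with hSg
  have hsum := sum_sq hδ
  refine ⟨|C| * Sg, fun X hX => ⟨hfin X, ?_⟩⟩
  have hX0 : 0 < X := by linarith
  have hlX : 0 ≤ Real.log X := Real.log_nonneg hX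
  set M : Finset ℕ := (Finset.Icc 1 ⌊X⌋₊).filter (fun m : ℕ => (m : ℝ) ^ 2 ≤ X) with hM
  have hsub : {d : ℤ | d ∈ {d : ℤ | ∃ s m : ℤ, Squarefree s ∧ P s ∧ 1 ≤ m ∧ d = s * m ^ 2} ∧ |(d : ℝ)| ≤ X} ⊆
      ⋃ m ∈ M, (fun s : ℤ => s * (m : ℤ) ^ 2) ''
        {s : ℤ | s ∈ {s : ℤ | Squarefree s ∧ P s} ∧ |(s : ℝ)| ≤ X / (m : ℝ) ^ 2} := by
    rintro d ⟨⟨s, m, hs, hPs, hm, rfl⟩, hd⟩
    lift m to ℕ using (by omega)
    have hm1 : (1 : ℝ) ≤ (m : ℝ) := by exact_mod_cast hm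
    have hs0 : s ≠ 0 := hs.ne_zero
    have hs1 : (1 : ℝ) ≤ |(s : ℝ)| := by
      have : (1 : ℤ) ≤ |s| := Int.one_le_abs hs0
      exact_mod_cast this
    have hd' : |(s : ℝ)| * (m : ℝ) ^ 2 ≤ X := by
      have : |((s * (m : ℤ) ^ 2 : ℤ) : ℝ)| = |(s : ℝ)| * (m : ℝ) ^ 2 := by
        push_cast
        rw [abs_mul, abs_of_nonneg (by positivity : (0 : ℝ) ≤ (m : ℝ) ^ 2)]
      rw [← this]
      exact hd
    have hmX : (m : ℝ) ^ 2 ≤ X := by nlinarith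
    rw [Set.mem_iUnion₂]
    refine ⟨m, ?_, s, ⟨⟨hs, hPs⟩, ?_⟩, rfl⟩
    · rw [hM, mem_filter, mem_Icc]
      refine ⟨⟨by exact_mod_cast hm, Nat.le_floor ?_⟩, hmX⟩
      nlinarith
    · rw [le_div_iff₀ (by positivity)]
      exact hd'
  have hfinU : (⋃ m ∈ M, (fun s : ℤ => s * (m : ℤ) ^ 2) ''
        {s : ℤ | s ∈ {s : ℤ | Squarefree s ∧ P s} ∧ |(s : ℝ)| ≤ X / (m : ℝ) ^ 2}).Finite := by
    refine Set.Finite.biUnion (Finset.finite_toSet M) fun m hm => ?_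
    rw [Finset.mem_coe, hM, mem_filter, mem_Icc] at hm
    have hm1 : (1 : ℝ) ≤ (m : ℝ) := by exact_mod_cast hm.1.1
    exact (hP _ (by rw [le_div_iff₀ (by positivity), one_mul]; exact hm.2)).1.image _
  have h1 := (Set.ncard_le_ncard hsub hfinU).trans (Finset.set_ncard_biUnion_le M _)
  have h2 : ∀ m ∈ M, ((((fun s : ℤ => s * (m : ℤ) ^ 2) ''
        {s : ℤ | s ∈ {s : ℤ | Squarefree s ∧ P s} ∧ |(s : ℝ)| ≤ X / (m : ℝ) ^ 2}).ncard : ℕ) : ℝ) ≤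
      |C| * (X * (1 + Real.log X) ^ (-δ)) * ((1 + 2 * Real.log m) ^ δ / (m : ℝ) ^ 2) := by
    intro m hm
    rw [hM, mem_filter, mem_Icc] at hm
    have hm1 : (1 : ℝ) ≤ (m : ℝ) := by exact_mod_cast hm.1.1
    have hm0 : (0 : ℝ) < m := by linarith
    have hY : 1 ≤ X / (m : ℝ) ^ 2 := by
      rw [le_div_iff₀ (by positivity), one_mul]
      exact hm.2
    obtain ⟨g1, g2⟩ := hP _ hY
    have g3 : ((((fun s : ℤ => s * (m : ℤ) ^ 2) ''
        {s : ℤ | s ∈ {s : ℤ | Squarefree s ∧ P s} ∧ |(s : ℝ)| ≤ X / (m : ℝ) ^ 2}).ncard : ℕ) : ℝ) ≤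
        (({s : ℤ | s ∈ {s : ℤ | Squarefree s ∧ P s} ∧ |(s : ℝ)| ≤ X / (m : ℝ) ^ 2}.ncard : ℕ) : ℝ) := by
      exact_mod_cast Set.ncard_image_le g1
    have hlm : 0 ≤ Real.log m := Real.log_nonneg hm1
    have hlY : 0 ≤ Real.log (X / (m : ℝ) ^ 2) := Real.log_nonneg hY
    have hleq : Real.log X = Real.log (X / (m : ℝ) ^ 2) + 2 * Real.log m := by
      rw [Real.log_div hX0.ne' (by positivity), Real.log_pow]
      push_cast
      ring
    have g4 : 1 + Real.log X ≤ (1 + Real.log (X / (m : ℝ) ^ 2)) * (1 + 2 * Real.log m) := by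
      rw [hleq]
      nlinarith [mul_nonneg hlY hlm]
    have g5 : (1 + Real.log (X / (m : ℝ) ^ 2)) ^ (-δ) ≤ (1 + Real.log X) ^ (-δ) * (1 + 2 * Real.log m) ^ δ := by
      have e1 : 0 < 1 + Real.log (X / (m : ℝ) ^ 2) := by linarith
      have e2 : 0 < 1 + 2 * Real.log (m : ℝ) := by linarith
      have e3 : ((1 + Real.log (X / (m : ℝ) ^ 2)) * (1 + 2 * Real.log m)) ^ (-δ) ≤ (1 + Real.log X) ^ (-δ) :=
        Real.rpow_le_rpow_of_nonpos (by linarith) g4 (by linarith)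
      rw [Real.mul_rpow e1.le e2.le, Real.rpow_neg e2.le] at e3
      have e4 : 0 < (1 + 2 * Real.log (m : ℝ)) ^ δ := by positivity
      calc (1 + Real.log (X / (m : ℝ) ^ 2)) ^ (-δ) =
          (1 + Real.log (X / (m : ℝ) ^ 2)) ^ (-δ) * ((1 + 2 * Real.log m) ^ δ)⁻¹ * (1 + 2 * Real.log m) ^ δ := by
            field_simp
        _ ≤ _ := mul_le_mul_of_nonneg_right e3 e4.le
    have g6 : 0 ≤ (1 + Real.log (X / (m : ℝ) ^ 2)) ^ (-δ) := Real.rpow_nonneg (by linarith) _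
    calc _ ≤ C * (X / (m : ℝ) ^ 2) * (1 + Real.log (X / (m : ℝ) ^ 2)) ^ (-δ) := g3.trans g2
      _ ≤ |C| * (X / (m : ℝ) ^ 2) * (1 + Real.log (X / (m : ℝ) ^ 2)) ^ (-δ) := by
          apply mul_le_mul_of_nonneg_right _ g6
          exact mul_le_mul_of_nonneg_right (le_abs_self C) (by positivity)
      _ ≤ |C| * (X / (m : ℝ) ^ 2) * ((1 + Real.log X) ^ (-δ) * (1 + 2 * Real.log m) ^ δ) :=
          mul_le_mul_of_nonneg_left g5 (by positivity)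
      _ = _ := by
          field_simp
  have hnn : 0 ≤ |C| * (X * (1 + Real.log X) ^ (-δ)) := by positivity
  calc (({d : ℤ | d ∈ {d : ℤ | ∃ s m : ℤ, Squarefree s ∧ P s ∧ 1 ≤ m ∧ d = s * m ^ 2} ∧ |(d : ℝ)| ≤ X}.ncard : ℕ) : ℝ)
      ≤ ((∑ m ∈ M, ((fun s : ℤ => s * (m : ℤ) ^ 2) ''
        {s : ℤ | s ∈ {s : ℤ | Squarefree s ∧ P s} ∧ |(s : ℝ)| ≤ X / (m : ℝ) ^ 2}).ncard : ℕ) : ℝ) := Nat.cast_le.2 h1
    _ ≤ ∑ m ∈ M, |C| * (X * (1 + Real.log X) ^ (-δ)) * ((1 + 2 * Real.log m) ^ δ / (m : ℝ) ^ 2) := by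
        push_cast
        exact sum_le_sum h2
    _ = |C| * (X * (1 + Real.log X) ^ (-δ)) * ∑ m ∈ M, ((1 + 2 * Real.log m) ^ δ / (m : ℝ) ^ 2) := by
        rw [mul_sum]
    _ ≤ |C| * (X * (1 + Real.log X) ^ (-δ)) * Sg := by
        apply mul_le_mul_of_nonneg_left _ hnn
        refine hsum.sum_le_tsum _ fun m _ => ?_
        rcases Nat.eq_zero_or_pos m with h0 | h0
        · subst h0
          simp
        · have : (1 : ℝ) ≤ m := by exact_mod_cast h0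
          have := Real.log_nonneg this
          positivity
    _ = |C| * Sg * X * (1 + Real.log X) ^ (-δ) := by ring

lemma tend_of_sum {v L : ℕ → ℝ} (hv : ∀ n, 1 ≤ v n) (hL : ∀ n, 1 ≤ L n) {δ : ℝ} (hδ : 0 < δ)
    (hs : Summable fun n => L n * (v n) ^ (-δ)) :
    Tendsto v atTop atTop ∧ ∀ x : ℝ, 1 < x → ∀ᶠ n in atTop, 2 * L n ≤ x ^ (v n) := by
  have h1 : Summable fun n => (v n) ^ (-δ) := by
    refine Summable.of_nonneg_of_le (fun n => ?_) (fun n => ?_) hs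
    · have := hv n
      positivity
    · have e1 : 0 ≤ (v n) ^ (-δ) := by
        have := hv n
        positivity
      exact le_mul_of_one_le_left e1 (hL n)
  have hinf : Tendsto v atTop atTop := by
    rw [tendsto_atTop]
    intro M
    exact large (fun n => by linarith [hv n]) hδ h1 M
  refine ⟨hinf, fun x hx => ?_⟩
  have hx0 : 0 < Real.log x := Real.log_pos hx
  have h2 := hs.tendsto_atTop_zero.eventually (gt_mem_nhds (show (0 : ℝ) < 1 by norm_num))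
  have h3 := ((tendsto_exp_mul_div_rpow_atTop δ (Real.log x) hx0).comp hinf).eventually (eventually_ge_atTop 2)
  filter_upwards [h2, h3] with n hn2 hn3
  have hvn : 0 < v n := by linarith [hv n]
  have hn3 : 2 ≤ Real.exp (Real.log x * v n) / (v n) ^ δ := hn3
  rw [le_div_iff₀ (by positivity), ← Real.rpow_def_of_pos (by linarith)] at hn3
  rw [Real.rpow_neg hvn.le, ← div_eq_mul_inv, div_lt_one (by positivity)] at hn2
  linarith

/-- **Square classes near powers.** -/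
theorem mills_twists (P : ℤ → Prop) {δ C : ℝ} (hδ : 0 < δ) (X₀ : ℕ)
    (hP : ∀ X : ℕ, X₀ ≤ X → ({d : ℤ | d.natAbs ≤ X ∧ Squarefree d ∧ P d}.ncard : ℝ) ≤ C * X * (Real.log X) ^ (-δ))
    {v L : ℕ → ℝ} (hv : ∀ n, 1 ≤ v n) (hL : ∀ n, 1 ≤ L n) (hs : Summable fun n => L n * (v n) ^ (-δ)) :
    ∃ N : Set ℝ, volume N = 0 ∧ ∀ x : ℝ, 1 < x → x ∉ N → ∃ n₀ : ℕ, ∀ n : ℕ, n₀ ≤ n → ∀ s m : ℤ, Squarefree s →
      1 ≤ m → |(|s * m ^ 2| : ℝ) - x ^ (v n)| ≤ L n → ¬ P s := by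
  have hfin : ∀ X : ℝ, {k : ℤ | k ∈ {s : ℤ | Squarefree s ∧ P s} ∧ |(k : ℝ)| ≤ X}.Finite := by
    intro X
    refine (Set.finite_Icc (-⌊X⌋) ⌊X⌋).subset ?_
    rintro k ⟨-, h1⟩
    rw [abs_le] at h1
    rw [Set.mem_Icc]
    constructor
    · rw [neg_le]
      apply Int.le_floor.2
      push_cast
      linarith [h1.1]
    · exact Int.le_floor.2 h1.2
  obtain ⟨C1, hC1⟩ := slow_count {s : ℤ | Squarefree s ∧ P s} (fun d : ℤ => |(d : ℝ)|) hfin (C := C) hδ X₀ (by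
    intro X hX
    have he : {d : ℤ | d ∈ {s : ℤ | Squarefree s ∧ P s} ∧ |(d : ℝ)| ≤ (X : ℝ)} =
        {d : ℤ | d.natAbs ≤ X ∧ Squarefree d ∧ P d} := by
      ext d
      constructor
      · rintro ⟨h1, h2⟩
        refine ⟨?_, h1⟩
        have h3 : |d| ≤ (X : ℤ) := by exact_mod_cast h2
        rw [Int.abs_eq_natAbs] at h3
        exact_mod_cast h3
      · rintro ⟨h1, h2⟩
        refine ⟨h2, ?_⟩
        have h3 : |d| ≤ (X : ℤ) := by
          rw [Int.abs_eq_natAbs]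
          exact_mod_cast h1
        exact_mod_cast h3
    rw [he]
    exact hP X hX)
  obtain ⟨C2, hC2⟩ := all_count P hδ hC1
  obtain ⟨hinf, hLf⟩ := tend_of_sum hv hL hδ hs
  obtain ⟨N, hN, hw⟩ := slow_pow {d : ℤ | ∃ s m : ℤ, Squarefree s ∧ P s ∧ 1 ≤ m ∧ d = s * m ^ 2}
    (fun d : ℤ => |(d : ℝ)|) hδ hC2 hv (fun n => by linarith [hL n]) hLf hinf hs
  refine ⟨N, hN, fun x hx hxN => ?_⟩
  obtain ⟨n₀, hn⟩ := hw x hx hxN
  refine ⟨n₀, fun n hn1 s m hsf hm hd hPs => ?_⟩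
  refine absurd (hn n hn1 (s * m ^ 2) ⟨s, m, hsf, hPs, hm, rfl⟩) (not_lt.2 ?_)
  push_cast
  exact hd

end Pool.Agent.R482.ST
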