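import Pool.Agent.R482.ST.Radial

/-!
# Thin sets of pairs of integers in boxes of the shape `R ^ 2`, `R ^ 3` and starshaped functions

`f n`, `n = 0, 1, 2, …`, are positive functions on `(a, ∞)`, `a ≥ 0`, such that `f n x / x` is nondecreasing, and
the sequence `f n x` has exponent of convergence at most `τ` for each `x > a`. If at most `C R ^ s` pairs of integers
`(A, B)`, `|A| ≤ R ^ 2`, `|B| ≤ R ^ 3` are exceptional for all `R ≥ 1`, then for all `(α, β)`, `α > a`, outside a set of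
Hausdorff dimension at most `(s + 1 - θ + τ) / (3 (1 - θ))` and every constant `c`, for all but finitely many `n`, with
`r = f n α`, no pair with `||A| - r ^ 2| ≤ c r ^ (2 θ)`, `|B - β r ^ 3| ≤ c r ^ (3 θ)` is exceptional.
-/

set_option autoImplicit false

open Filter Topology Finset MeasureTheory
open scoped ENNReal NNReal

namespace Pool.Agent.R482.ST

/-- **Limsup sets** of sets which are divided into pieces by the values of a function. -/
theorem dimH_pieces {X : Type} [EMetricSpace X] {Q : Type} [Countable Q] (S : Q → Set X) (g : X → ℝ) (N : Q → ℕ)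
    (δ d : Q → ℝ) (hδ : ∀ q, 0 < δ q) (hd : ∀ q, 0 < d q)
    (h1 : ∀ q, ∀ x ∈ S q, ∀ y ∈ S q, |g x - g y| ≤ N q * δ q)
    (h2 : ∀ q, ∀ x ∈ S q, ∀ y ∈ S q, |g x - g y| ≤ δ q → edist x y ≤ ENNReal.ofReal (d q)) {D : ℝ} (hD : 0 < D)
    (hs : Summable fun q => (2 * (N q : ℝ) + 1) * d q ^ D) :
    dimH {x | {q | x ∈ S q}.Infinite} ≤ ENNReal.ofReal D := by
  classical
  let b : Q → ℝ := fun q => if h : (S q).Nonempty then g h.some else 0
  have hb : ∀ q, ∀ x ∈ S q, |g x - b q| ≤ N q * δ q := by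
    intro q x hx
    have h : (S q).Nonempty := ⟨x, hx⟩
    simp only [b, dif_pos h]
    exact h1 q x hx _ h.some_mem
  let U : (Σ q : Q, Finset.Icc (-(N q : ℤ)) (N q : ℤ)) → Set X :=
    fun p => {x | x ∈ S p.1 ∧ ⌊(g x - b p.1) / δ p.1⌋ = (p.2 : ℤ)}
  have key := dimH_limsup' U (fun p => d p.1) (fun p => hd p.1) (fun p => by
    apply Metric.ediam_le
    intro x hx y hy
    obtain ⟨hx1, hx2⟩ := hx
    obtain ⟨hy1, hy2⟩ := hy
    apply h2 p.1 x hx1 y hy1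
    have hlt : |(g x - b p.1) / δ p.1 - (g y - b p.1) / δ p.1| < 1 :=
      Int.abs_sub_lt_one_of_floor_eq_floor (hx2.trans hy2.symm)
    rw [← sub_div, abs_div, abs_of_pos (hδ p.1), div_lt_one (hδ p.1)] at hlt
    have e : g x - b p.1 - (g y - b p.1) = g x - g y := by ring
    rw [e] at hlt
    exact hlt.le) hD (by
      rw [summable_sigma_of_nonneg (fun p => Real.rpow_nonneg (hd p.1).le _)]
      refine ⟨fun q => (hasSum_fintype _).summable, ?_⟩
      refine hs.congr fun q => ?_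
      rw [tsum_fintype]
      show (2 * (N q : ℝ) + 1) * d q ^ D = ∑ _b : Finset.Icc (-(N q : ℤ)) (N q : ℤ), d q ^ D
      rw [Finset.sum_const, Finset.card_univ, Fintype.card_coe, Int.card_Icc, nsmul_eq_mul]
      have e : ((N q : ℤ) + 1 - -(N q : ℤ)).toNat = 2 * N q + 1 := by omega
      rw [e]
      push_cast
      rfl)
  refine le_trans (dimH_mono ?_) key
  intro x hx hfin
  apply hx
  refine (hfin.image Sigma.fst).subset fun q hq => ?_
  have h3 := abs_le.1 (hb q x hq)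
  have hmem : ⌊(g x - b q) / δ q⌋ ∈ Finset.Icc (-(N q : ℤ)) (N q : ℤ) := by
    rw [Finset.mem_Icc]
    constructor
    · apply Int.le_floor.2
      rw [le_div_iff₀ (hδ q)]
      push_cast
      linarith
    · have h4 : ((⌊(g x - b q) / δ q⌋ : ℤ) : ℝ) ≤ ((N q : ℤ) : ℝ) := by
        refine (Int.floor_le _).trans ?_
        rw [div_le_iff₀ (hδ q)]
        push_cast
        linarith
      exact_mod_cast h4
  exact ⟨⟨q, ⟨_, hmem⟩⟩, ⟨hq, rfl⟩, rfl⟩

/-- the sets of the window -/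
def PW (f : ℝ → ℝ) (c a L K R B : ℝ) : Set (ℝ × ℝ) :=
  {u | L ≤ u.1 ∧ u.1 ≤ K ∧ |u.2| ≤ K ∧ R ≤ 2 * f u.1 ∧ f u.1 ≤ 2 * R ∧ |R ^ 2 - (f u.1) ^ 2| ≤ c * a ^ 2 * R ^ 2 ∧
    |B - u.2 * (f u.1) ^ 3| ≤ c * a ^ 3 * R ^ 3}

lemma pw_aux {f : ℝ → ℝ} {c a L K R B : ℝ} (hc : 0 < c) (ha : 0 < a) (hL : 0 < L)
    (hR : 0 < R) (hf : ∀ x y : ℝ, L ≤ x → x ≤ y → 0 < f x ∧ f x / x ≤ f y / y) {u v : ℝ × ℝ}
    (hu : u ∈ PW f c a L K R B) (hv : v ∈ PW f c a L K R B) (huv : u.1 ≤ v.1) :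
    0 ≤ v.1 - u.1 ∧ v.1 - u.1 ≤ 4 * K * c * a ^ 2 ∧ |v.2| - |u.2| ≤ 16 * c * a ^ 3 ∧
      |u.2| - |v.2| ≤ 192 * K * c * a ^ 2 + 16 * c * a ^ 3 ∧
      (u.2 * v.2 ≤ 0 → |u.2 - v.2| ≤ 32 * c * a ^ 3) := by
  obtain ⟨u1, u2, u3, u4, u5, u6, u7⟩ := hu
  obtain ⟨v1, v2, v3, v4, v5, v6, v7⟩ := hv
  set r := f u.1 with hr
  set r' := f v.1 with hr'
  have hr0 : 0 < r := (hf u.1 u.1 u1 le_rfl).1
  have hr0' : 0 < r' := (hf v.1 v.1 v1 le_rfl).1
  have hu0 : 0 < u.1 := lt_of_lt_of_le hL u1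
  have hv0 : 0 < v.1 := lt_of_lt_of_le hL v1
  have hK : 0 < K := lt_of_lt_of_le hu0 u2
  have hst := (hf u.1 v.1 u1 huv).2
  rw [div_le_div_iff₀ hu0 hv0] at hst
  have hrr : r ≤ r' := by
    by_contra hcon
    push Not at hcon
    nlinarith
  have hd0 : 0 ≤ r' - r := by linarith
  -- the difference of r and r'
  have hdr : r' - r ≤ 2 * c * a ^ 2 * R := by
    have h1 : (r' - r) * R ≤ 2 * c * a ^ 2 * R * R := by
      have h2 : (r' - r) * R ≤ (r' - r) * (r' + r) := mul_le_mul_of_nonneg_left (by linarith) hd0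
      have h3 := (abs_le.1 u6).2
      have h4 := (abs_le.1 v6).1
      nlinarith
    exact le_of_mul_le_mul_right h1 hR
  have hdu : v.1 - u.1 ≤ 4 * K * c * a ^ 2 := by
    have h1 : r * (v.1 - u.1) ≤ u.1 * (r' - r) := by nlinarith
    have h2 : u.1 * (r' - r) ≤ K * (2 * c * a ^ 2 * R) := mul_le_mul u2 hdr hd0 hK.le
    have h3 : K * (2 * c * a ^ 2 * R) ≤ K * (2 * c * a ^ 2 * (2 * r)) :=
      mul_le_mul_of_nonneg_left (mul_le_mul_of_nonneg_left u4 (by positivity)) hK.le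
    have h4 : r * (v.1 - u.1) ≤ r * (4 * K * c * a ^ 2) := by
      calc _ ≤ _ := h1
        _ ≤ _ := h2
        _ ≤ _ := h3
        _ = _ := by ring
    exact le_of_mul_le_mul_left h4 hr0
  have hR3 : R ^ 3 ≤ 8 * r ^ 3 := by
    calc R ^ 3 ≤ (2 * r) ^ 3 := pow_le_pow_left₀ hR.le u4 3
      _ = 8 * r ^ 3 := by ring
  have hR3' : R ^ 3 ≤ 8 * r' ^ 3 := by
    calc R ^ 3 ≤ (2 * r') ^ 3 := pow_le_pow_left₀ hR.le v4 3
      _ = 8 * r' ^ 3 := by ring
  have hr3 : 0 < r ^ 3 := by positivity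
  have hr3' : 0 < r' ^ 3 := by positivity
  have hr33 : r ^ 3 ≤ r' ^ 3 := pow_le_pow_left₀ hr0.le hrr 3
  have hca : 0 ≤ c * a ^ 3 := by positivity
  have hρ : c * a ^ 3 * R ^ 3 ≤ 8 * c * a ^ 3 * r ^ 3 := by
    calc c * a ^ 3 * R ^ 3 ≤ c * a ^ 3 * (8 * r ^ 3) := mul_le_mul_of_nonneg_left hR3 hca
      _ = _ := by ring
  have hρ' : c * a ^ 3 * R ^ 3 ≤ 8 * c * a ^ 3 * r' ^ 3 := by
    calc c * a ^ 3 * R ^ 3 ≤ c * a ^ 3 * (8 * r' ^ 3) := mul_le_mul_of_nonneg_left hR3' hca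
      _ = _ := by ring
  have huB : |B| ≤ |u.2| * r ^ 3 + c * a ^ 3 * R ^ 3 ∧ |u.2| * r ^ 3 ≤ |B| + c * a ^ 3 * R ^ 3 := by
    have h1 : |u.2 * r ^ 3| = |u.2| * r ^ 3 := by rw [abs_mul, abs_of_pos hr3]
    have h2 := abs_sub_abs_le_abs_sub B (u.2 * r ^ 3)
    have h3 := abs_sub_abs_le_abs_sub (u.2 * r ^ 3) B
    rw [abs_sub_comm (u.2 * r ^ 3) B] at h3
    rw [h1] at h2 h3
    constructor <;> linarith
  have hvB : |B| ≤ |v.2| * r' ^ 3 + c * a ^ 3 * R ^ 3 ∧ |v.2| * r' ^ 3 ≤ |B| + c * a ^ 3 * R ^ 3 := by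
    have h1 : |v.2 * r' ^ 3| = |v.2| * r' ^ 3 := by rw [abs_mul, abs_of_pos hr3']
    have h2 := abs_sub_abs_le_abs_sub B (v.2 * r' ^ 3)
    have h3 := abs_sub_abs_le_abs_sub (v.2 * r' ^ 3) B
    rw [abs_sub_comm (v.2 * r' ^ 3) B] at h3
    rw [h1] at h2 h3
    constructor <;> linarith
  have hu20 := abs_nonneg u.2
  have hv20 := abs_nonneg v.2
  refine ⟨by linarith, hdu, ?_, ?_, fun hsign => ?_⟩
  · have h1 : |v.2| * r' ^ 3 ≤ |u.2| * r' ^ 3 + 2 * (8 * c * a ^ 3 * r' ^ 3) := by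
      have h2 : |u.2| * r ^ 3 ≤ |u.2| * r' ^ 3 := mul_le_mul_of_nonneg_left hr33 hu20
      linarith [hvB.2, huB.1]
    have h3 : (|v.2| - |u.2|) * r' ^ 3 ≤ (16 * c * a ^ 3) * r' ^ 3 := by linarith
    exact le_of_mul_le_mul_right h3 hr3'
  · have h1 : r' ^ 3 - r ^ 3 ≤ 192 * c * a ^ 2 * r ^ 3 := by
      have e1 : r' ^ 3 - r ^ 3 = (r' - r) * (r' ^ 2 + r' * r + r ^ 2) := by ring
      have e2 : r' ^ 2 + r' * r + r ^ 2 ≤ 12 * R ^ 2 := by nlinarith
      rw [e1]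
      calc (r' - r) * (r' ^ 2 + r' * r + r ^ 2) ≤ (2 * c * a ^ 2 * R) * (12 * R ^ 2) :=
            mul_le_mul hdr e2 (by positivity) (by positivity)
        _ = 24 * c * a ^ 2 * R ^ 3 := by ring
        _ ≤ 24 * c * a ^ 2 * (8 * r ^ 3) := mul_le_mul_of_nonneg_left hR3 (by positivity)
        _ = _ := by ring
    have h2 : |v.2| * (r' ^ 3 - r ^ 3) ≤ K * (192 * c * a ^ 2 * r ^ 3) :=
      mul_le_mul v3 h1 (by linarith) hK.le
    have h3 : (|u.2| - |v.2|) * r ^ 3 ≤ (192 * K * c * a ^ 2 + 16 * c * a ^ 3) * r ^ 3 := by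
      nlinarith [huB.2, hvB.1]
    exact le_of_mul_le_mul_right h3 hr3
  · have h7u := abs_le.1 u7
    have h7v := abs_le.1 v7
    have key1 : |u.2| * r ^ 3 ≤ 16 * c * a ^ 3 * r ^ 3 ∧ |v.2| * r' ^ 3 ≤ 16 * c * a ^ 3 * r' ^ 3 := by
      rcases le_total 0 u.2 with h | h
      · rcases eq_or_lt_of_le h with h0 | h0
        · have hB : |B| ≤ c * a ^ 3 * R ^ 3 := by
            have := huB.1
            rw [← h0] at this
            simpa using this
          constructor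
          · rw [← h0]
            simp only [abs_zero, zero_mul]
            positivity
          · linarith [hvB.2]
        · have hv : v.2 ≤ 0 := by
            by_contra hcon
            push Not at hcon
            nlinarith
          have e1 : v.2 * r' ^ 3 ≤ 0 := mul_nonpos_of_nonpos_of_nonneg hv hr3'.le
          have e2 : 0 ≤ u.2 * r ^ 3 := by positivity
          rw [abs_of_pos h0, abs_of_nonpos hv]
          constructor <;> linarith
      · rcases eq_or_lt_of_le h with h0 | h0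
        · have hB : |B| ≤ c * a ^ 3 * R ^ 3 := by
            have := huB.1
            rw [h0] at this
            simpa using this
          constructor
          · rw [h0]
            simp only [abs_zero, zero_mul]
            positivity
          · linarith [hvB.2]
        · have hv : 0 ≤ v.2 := by
            by_contra hcon
            push Not at hcon
            nlinarith
          have e1 : 0 ≤ v.2 * r' ^ 3 := by positivity
          have e2 : u.2 * r ^ 3 ≤ 0 := mul_nonpos_of_nonpos_of_nonneg h hr3.le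
          rw [abs_of_neg h0, abs_of_nonneg hv]
          constructor <;> linarith
    have k1 := le_of_mul_le_mul_right key1.1 hr3
    have k2 := le_of_mul_le_mul_right key1.2 hr3'
    calc |u.2 - v.2| ≤ |u.2| + |v.2| := abs_sub _ _
      _ ≤ _ := by linarith

lemma pw_range {f : ℝ → ℝ} {c a L K R B : ℝ} (hc : 0 < c) (ha : 0 < a) (ha1 : a ≤ 1) (hL : 0 < L) (hK : 1 ≤ K)
    (hR : 0 < R) (hf : ∀ x y : ℝ, L ≤ x → x ≤ y → 0 < f x ∧ f x / x ≤ f y / y) {u v : ℝ × ℝ}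
    (hu : u ∈ PW f c a L K R B) (hv : v ∈ PW f c a L K R B) :
    |(u.1 - |u.2|) - (v.1 - |v.2|)| ≤ 212 * K * c * a ^ 2 := by
  have ha3 : a ^ 3 ≤ a ^ 2 := by
    calc a ^ 3 = a ^ 2 * a := by ring
      _ ≤ a ^ 2 * 1 := mul_le_mul_of_nonneg_left ha1 (by positivity)
      _ = a ^ 2 := mul_one _
  have h16 : 16 * c * a ^ 3 ≤ 16 * K * c * a ^ 2 := by
    calc 16 * c * a ^ 3 ≤ 16 * c * a ^ 2 := mul_le_mul_of_nonneg_left ha3 (by positivity)
      _ = 1 * (16 * c * a ^ 2) := (one_mul _).symm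
      _ ≤ K * (16 * c * a ^ 2) := mul_le_mul_of_nonneg_right hK (by positivity)
      _ = _ := by ring
  have hnn : 0 ≤ K * c * a ^ 2 := by positivity
  rcases le_total u.1 v.1 with h | h
  · obtain ⟨h1, h2, h3, h4, -⟩ := pw_aux hc ha hL hR hf hu hv h
    rw [abs_le]
    constructor <;> linarith
  · obtain ⟨h1, h2, h3, h4, -⟩ := pw_aux hc ha hL hR hf hv hu h
    rw [abs_le]
    constructor <;> linarith

lemma abs_abs_sub {x y : ℝ} (h : 0 < x * y) : |x - y| = |(|x| - |y|)| := by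
  rcases pos_and_pos_or_neg_and_neg_of_mul_pos h with ⟨h1, h2⟩ | ⟨h1, h2⟩
  · rw [abs_of_pos h1, abs_of_pos h2]
  · rw [abs_of_neg h1, abs_of_neg h2, ← abs_neg]
    congr 1
    ring

lemma pw_close {f : ℝ → ℝ} {c a L K R B : ℝ} (hc : 0 < c) (ha : 0 < a) (hL : 0 < L)
    (hR : 0 < R) (hf : ∀ x y : ℝ, L ≤ x → x ≤ y → 0 < f x ∧ f x / x ≤ f y / y) {u v : ℝ × ℝ}
    (hu : u ∈ PW f c a L K R B) (hv : v ∈ PW f c a L K R B)
    (h : |(u.1 - |u.2|) - (v.1 - |v.2|)| ≤ a ^ 3) : dist u v ≤ (1 + 32 * c) * a ^ 3 := by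
  have hca : 0 ≤ c * a ^ 3 := by positivity
  have ha3 : 0 < a ^ 3 := by positivity
  obtain ⟨e1, e2⟩ := abs_le.1 h
  have main : |u.1 - v.1| ≤ (1 + 16 * c) * a ^ 3 ∧ |(|u.2| - |v.2|)| ≤ (1 + 16 * c) * a ^ 3 ∧
      (u.2 * v.2 ≤ 0 → |u.2 - v.2| ≤ 32 * c * a ^ 3) := by
    rcases le_total u.1 v.1 with h | h
    · obtain ⟨h1, h2, h3, h4, h5⟩ := pw_aux hc ha hL hR hf hu hv h
      refine ⟨?_, ?_, h5⟩
      · rw [abs_le]
        constructor <;> nlinarith
      · rw [abs_le]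
        constructor <;> nlinarith
    · obtain ⟨h1, h2, h3, h4, h5⟩ := pw_aux hc ha hL hR hf hv hu h
      refine ⟨?_, ?_, fun hs => ?_⟩
      · rw [abs_le]
        constructor <;> nlinarith
      · rw [abs_le]
        constructor <;> nlinarith
      · rw [abs_sub_comm]
        exact h5 (by rwa [mul_comm])
  obtain ⟨m1, m2, m3⟩ := main
  rw [Prod.dist_eq, Real.dist_eq, Real.dist_eq]
  apply max_le
  · nlinarith
  · rcases le_or_gt (u.2 * v.2) 0 with hs | hs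
    · have := m3 hs
      nlinarith
    · rw [abs_abs_sub hs]
      nlinarith

end Pool.Agent.R482.ST
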