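import Pool.Agent.R482.ST.Polar

/-!
# Thin sets of pairs of integers in boxes of the shape `R ^ 2`, `R ^ 3` and starshaped functions: the windows
-/

set_option autoImplicit false

open Filter Topology Finset MeasureTheory
open scoped ENNReal NNReal

namespace Pool.Agent.R482.ST

/-- the square root of the absolute value of the first component -/
noncomputable def rt (z : ℤ × ℤ) : ℝ := Real.sqrt |(z.1 : ℝ)|

lemma rt_sq (z : ℤ × ℤ) : rt z ^ 2 = |(z.1 : ℝ)| := Real.sq_sqrt (abs_nonneg _)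

/-- the exceptional pairs -/
def TK (P : ℤ × ℤ → ℝ → Prop) (K : ℝ) : Set (ℤ × ℤ) :=
  {z | |(z.2 : ℝ)| ≤ (16 * K * rt z) ^ 3 ∧ P z (2 * rt z)}

lemma count_tk {P : ℤ × ℤ → ℝ → Prop} (hP : ∀ z X Y, X ≤ Y → P z X → P z Y) {s C : ℝ}
    (hcount : ∀ R : ℝ, 1 ≤ R → {z : ℤ × ℤ | |(z.1 : ℝ)| ≤ R ^ 2 ∧ |(z.2 : ℝ)| ≤ R ^ 3 ∧ P z R}.Finite ∧
      ({z : ℤ × ℤ | |(z.1 : ℝ)| ≤ R ^ 2 ∧ |(z.2 : ℝ)| ≤ R ^ 3 ∧ P z R}.ncard : ℝ) ≤ C * R ^ s) {K : ℝ} (hK : 1 ≤ K)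
    {X : ℝ} (hX : 1 ≤ X) : {z | z ∈ TK P K ∧ rt z ≤ X}.Finite ∧
      ({z | z ∈ TK P K ∧ rt z ≤ X}.ncard : ℝ) ≤ |C| * (16 * K) ^ s * X ^ s := by
  have hX0 : 0 < X := by linarith
  have hKX : 1 ≤ 16 * K * X := by nlinarith
  obtain ⟨h1, h2⟩ := hcount (16 * K * X) hKX
  have hsub : {z | z ∈ TK P K ∧ rt z ≤ X} ⊆
      {z : ℤ × ℤ | |(z.1 : ℝ)| ≤ (16 * K * X) ^ 2 ∧ |(z.2 : ℝ)| ≤ (16 * K * X) ^ 3 ∧ P z (16 * K * X)} := by
    rintro z ⟨⟨h3, h4⟩, h5⟩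
    have h0 : 0 ≤ rt z := Real.sqrt_nonneg _
    have h6 : 16 * K * rt z ≤ 16 * K * X := mul_le_mul_of_nonneg_left h5 (by positivity)
    refine ⟨?_, h3.trans (pow_le_pow_left₀ (by positivity) h6 3), hP z _ _ (by nlinarith) h4⟩
    rw [← rt_sq]
    refine pow_le_pow_left₀ h0 ?_ 2
    nlinarith
  refine ⟨h1.subset hsub, ?_⟩
  calc ({z | z ∈ TK P K ∧ rt z ≤ X}.ncard : ℝ) ≤ _ := by exact_mod_cast Set.ncard_le_ncard hsub h1
    _ ≤ C * (16 * K * X) ^ s := h2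
    _ ≤ |C| * (16 * K * X) ^ s := mul_le_mul_of_nonneg_right (le_abs_self C) (by positivity)
    _ = |C| * (16 * K) ^ s * X ^ s := by
        rw [Real.mul_rpow (by positivity) hX0.le]
        ring

/-- the windows with bounded parameters -/
theorem dim_polar {P : ℤ × ℤ → ℝ → Prop} (hP : ∀ z X Y, X ≤ Y → P z X → P z Y) {s C : ℝ} (hs : 0 ≤ s)
    (hcount : ∀ R : ℝ, 1 ≤ R → {z : ℤ × ℤ | |(z.1 : ℝ)| ≤ R ^ 2 ∧ |(z.2 : ℝ)| ≤ R ^ 3 ∧ P z R}.Finite ∧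
      ({z : ℤ × ℤ | |(z.1 : ℝ)| ≤ R ^ 2 ∧ |(z.2 : ℝ)| ≤ R ^ 3 ∧ P z R}.ncard : ℝ) ≤ C * R ^ s)
    {f : ℕ → ℝ → ℝ} {a τ θ : ℝ} (ha : 0 ≤ a) (hf : Star a f) (hv : Conv a f τ) (hτ : 0 ≤ τ) (hθ : θ < 1)
    {c L K : ℝ} (hc : 0 < c) (hL : a < L) (hK : 1 ≤ K) :
    dimH {x : ℝ × ℝ | {p : ℕ × (ℤ × ℤ) | (p.2 ∈ TK P K ∧ 1 ≤ rt p.2 ∧ f p.1 L ≤ 2 * rt p.2) ∧
      x ∈ PW (f p.1) c ((rt p.2) ^ (-(1 - θ))) L K (rt p.2) p.2.2}.Infinite} ≤
        ENNReal.ofReal ((s + (1 - θ) + τ) / (3 * (1 - θ))) := by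
  classical
  have hθ' : 0 < 1 - θ := by linarith
  set t : ℝ := 1 - θ with ht
  have hL0 : 0 < L := by linarith
  have hK0 : 0 < K := by linarith
  apply ENNReal.le_of_forall_pos_le_add
  intro ε hε _
  have hε' : (0 : ℝ) < ε := by exact_mod_cast hε
  rw [← ENNReal.ofReal_coe_nnreal (p := ε), ← ENNReal.ofReal_add (by positivity) hε'.le]
  set D : ℝ := (s + t + τ) / (3 * t) + ε with hD
  have hD0 : 0 < D := by positivity
  have hDτ : 3 * t * D - t = s + τ + 3 * t * ε := by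
    rw [hD]
    field_simp
    ring
  set Q : Set (ℕ × (ℤ × ℤ)) := {p | p.2 ∈ TK P K ∧ 1 ≤ rt p.2 ∧ f p.1 L ≤ 2 * rt p.2} with hQ
  set η : ℝ := t * ε with hη
  have hη0 : 0 < η := by positivity
  obtain ⟨C2, hC2, hcn⟩ := few hf hv hτ hL η hη0
  have hone : ∀ p : Q, (1 : ℝ) ≤ rt p.1.2 := fun p => p.2.2.1
  have hpos : ∀ p : Q, (0 : ℝ) < rt p.1.2 := fun p => lt_of_lt_of_le one_pos (hone p)
  have hapos : ∀ p : Q, 0 < (rt p.1.2) ^ (-t) := fun p => Real.rpow_pos_of_pos (hpos p) _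
  have ha1 : ∀ p : Q, (rt p.1.2) ^ (-t) ≤ 1 := fun p => Real.rpow_le_one_of_one_le_of_nonpos (hone p) (by linarith)
  set M : ℝ := 212 * K * c with hM
  have hM0 : 0 < M := by positivity
  have hst : ∀ n : ℕ, ∀ x y : ℝ, L ≤ x → x ≤ y → 0 < f n x ∧ f n x / x ≤ f n y / y := fun n x y h1 h2 =>
    hf n x y (lt_of_lt_of_le hL h1) h2
  have h1 := dimH_pieces (fun p : Q => PW (f p.1.1) c ((rt p.1.2) ^ (-t)) L K (rt p.1.2) p.1.2.2)
    (fun u => u.1 - |u.2|) (fun p => ⌈M * (rt p.1.2) ^ t⌉₊) (fun p => ((rt p.1.2) ^ (-t)) ^ 3)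
    (fun p => (1 + 32 * c) * ((rt p.1.2) ^ (-t)) ^ 3)
    (fun p => pow_pos (hapos p) 3)
    (fun p => mul_pos (by positivity) (pow_pos (hapos p) 3))
    (fun p x hx y hy => by
      have h2 := pw_range hc (hapos p) (ha1 p) hL0 hK (hpos p) (hst p.1.1) hx hy
      refine h2.trans ?_
      have h3 : M * (rt p.1.2) ^ t ≤ (⌈M * (rt p.1.2) ^ t⌉₊ : ℝ) := Nat.le_ceil _
      have h4 : (rt p.1.2) ^ t * (rt p.1.2) ^ (-t) = 1 := by
        rw [← Real.rpow_add (hpos p), add_neg_cancel, Real.rpow_zero]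
      have h5 := pow_pos (hapos p) 3
      calc 212 * K * c * ((rt p.1.2) ^ (-t)) ^ 2 = M * ((rt p.1.2) ^ t * (rt p.1.2) ^ (-t)) * ((rt p.1.2) ^ (-t)) ^ 2 := by
            rw [h4, mul_one]
        _ = M * (rt p.1.2) ^ t * ((rt p.1.2) ^ (-t)) ^ 3 := by ring
        _ ≤ _ := mul_le_mul_of_nonneg_right h3 h5.le)
    (fun p x hx y hy hxy => by
      rw [edist_dist]
      exact ENNReal.ofReal_le_ofReal (pw_close hc (hapos p) hL0 (hpos p) (hst p.1.1) hx hy hxy)) hD0 (by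
      have h2 := Pool.Agent.R479.DA.summable_heights (ι := Q) (fun p => rt p.1.2) hone
        (s := s + (τ + η)) (p := 3 * t * D - t) (C := |C| * (16 * K) ^ s * C2)
        (by rw [hDτ, hη]; nlinarith [mul_pos hε' hθ']) (by rw [hDτ]; positivity) (by
          intro X hX
          have hX0 : 0 < X := by linarith
          have hinj : Set.InjOn (Subtype.val : Q → ℕ × (ℤ × ℤ)) {p | rt p.1.2 ≤ X} :=
            Subtype.val_injective.injOn
          have himg : (Subtype.val : Q → ℕ × (ℤ × ℤ)) '' {p | rt p.1.2 ≤ X} ⊆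
              {n : ℕ | f n L ≤ 2 * X} ×ˢ {z | z ∈ TK P K ∧ rt z ≤ X} := by
            rintro _ ⟨p, hp, rfl⟩
            refine ⟨?_, p.2.1, hp⟩
            refine p.2.2.2.trans ?_
            have : rt p.1.2 ≤ X := hp
            linarith
          have hfn := (hcn X hX).1
          obtain ⟨hfd, hfd2⟩ := count_tk hP hcount hK hX
          have hfp := hfn.prod hfd
          refine ⟨Set.Finite.of_finite_image (hfp.subset himg) hinj, ?_⟩
          rw [← hinj.ncard_image]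
          have h3 := Set.ncard_le_ncard himg hfp
          rw [Set.ncard_prod] at h3
          calc (((Subtype.val : Q → ℕ × (ℤ × ℤ)) '' {p | rt p.1.2 ≤ X}).ncard : ℝ)
              ≤ ((({n : ℕ | f n L ≤ 2 * X}.ncard *
                {z | z ∈ TK P K ∧ rt z ≤ X}.ncard : ℕ)) : ℝ) := by exact_mod_cast h3
            _ = ({n : ℕ | f n L ≤ 2 * X}.ncard : ℝ) *
                ({z | z ∈ TK P K ∧ rt z ≤ X}.ncard : ℝ) := by push_cast; rfl
            _ ≤ (C2 * X ^ (τ + η)) * (|C| * (16 * K) ^ s * X ^ s) :=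
                mul_le_mul (hcn X hX).2 hfd2 (Nat.cast_nonneg _) (by positivity)
            _ = |C| * (16 * K) ^ s * C2 * (X ^ s * X ^ (τ + η)) := by ring
            _ = |C| * (16 * K) ^ s * C2 * X ^ (s + (τ + η)) := by rw [← Real.rpow_add hX0])
      refine Summable.of_nonneg_of_le (fun p => by
        have := hpos p
        positivity) (fun p => ?_) (h2.mul_left ((2 * M + 3) * (1 + 32 * c) ^ D))
      have hp := hpos p
      have e1 : ((1 + 32 * c) * ((rt p.1.2) ^ (-t)) ^ 3) ^ D = (1 + 32 * c) ^ D * (rt p.1.2) ^ (-(3 * t * D)) := by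
        rw [Real.mul_rpow (by positivity) (by positivity)]
        congr 1
        rw [← Real.rpow_natCast, ← Real.rpow_mul hp.le, ← Real.rpow_mul hp.le]
        congr 1
        push_cast
        ring
      have e2 : 2 * (⌈M * (rt p.1.2) ^ t⌉₊ : ℝ) + 1 ≤ (2 * M + 3) * (rt p.1.2) ^ t := by
        have h3 : (⌈M * (rt p.1.2) ^ t⌉₊ : ℝ) ≤ M * (rt p.1.2) ^ t + 1 := (Nat.ceil_lt_add_one (by positivity)).le
        have h4 : 1 ≤ (rt p.1.2) ^ t := Real.one_le_rpow (hone p) hθ'.le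
        nlinarith
      rw [e1]
      calc (2 * (⌈M * (rt p.1.2) ^ t⌉₊ : ℝ) + 1) * ((1 + 32 * c) ^ D * (rt p.1.2) ^ (-(3 * t * D)))
          ≤ ((2 * M + 3) * (rt p.1.2) ^ t) * ((1 + 32 * c) ^ D * (rt p.1.2) ^ (-(3 * t * D))) :=
            mul_le_mul_of_nonneg_right e2 (by positivity)
        _ = (2 * M + 3) * (1 + 32 * c) ^ D * ((rt p.1.2) ^ t * (rt p.1.2) ^ (-(3 * t * D))) := by ring
        _ = (2 * M + 3) * (1 + 32 * c) ^ D * (rt p.1.2) ^ (-(3 * t * D - t)) := by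
            rw [← Real.rpow_add hp]
            congr 2
            ring)
  refine le_trans (dimH_mono ?_) h1
  intro x hx
  simp only [Set.mem_ofPred_eq] at hx ⊢
  have himg : (Subtype.val : Q → ℕ × (ℤ × ℤ)) '' {p | x ∈ PW (f p.1.1) c ((rt p.1.2) ^ (-t)) L K (rt p.1.2) p.1.2.2} =
      {p : ℕ × (ℤ × ℤ) | (p.2 ∈ TK P K ∧ 1 ≤ rt p.2 ∧ f p.1 L ≤ 2 * rt p.2) ∧
        x ∈ PW (f p.1) c ((rt p.2) ^ (-t)) L K (rt p.2) p.2.2} := by
    ext p
    constructor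
    · rintro ⟨u, hu, rfl⟩
      exact ⟨u.2, hu⟩
    · rintro ⟨hp, hpα⟩
      exact ⟨⟨p, hp⟩, hpα, rfl⟩
  rw [← himg] at hx
  exact fun hfin => hx (hfin.image _)

/-- **Thin sets of pairs of integers and starshaped functions.** -/
theorem polar_windows {P : ℤ × ℤ → ℝ → Prop} (hP : ∀ z X Y, X ≤ Y → P z X → P z Y) {s C : ℝ} (hs : 0 ≤ s)
    (hcount : ∀ R : ℝ, 1 ≤ R → {z : ℤ × ℤ | |(z.1 : ℝ)| ≤ R ^ 2 ∧ |(z.2 : ℝ)| ≤ R ^ 3 ∧ P z R}.Finite ∧
      ({z : ℤ × ℤ | |(z.1 : ℝ)| ≤ R ^ 2 ∧ |(z.2 : ℝ)| ≤ R ^ 3 ∧ P z R}.ncard : ℝ) ≤ C * R ^ s)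
    {f : ℕ → ℝ → ℝ} {a τ θ : ℝ} (hfs : Starshaped a f) (hτ : 0 ≤ τ) (hv : Conv a f τ) (hθ : θ < 1) :
    ∃ E : Set (ℝ × ℝ), dimH E ≤ ENNReal.ofReal ((s + (1 - θ) + τ) / (3 * (1 - θ))) ∧
      ∀ α β : ℝ, a < α → (α, β) ∉ E → ∀ c : ℝ, ∃ n₀ : ℕ, ∀ n : ℕ, n₀ ≤ n → ∀ z : ℤ × ℤ,
        |(|(z.1 : ℝ)| - (f n α) ^ 2)| ≤ c * ((f n α) ^ θ) ^ 2 → |(z.2 : ℝ) - β * (f n α) ^ 3| ≤ c * ((f n α) ^ θ) ^ 3 →
          ¬ P z (f n α) := by
  classical
  obtain ⟨ha, hf⟩ := hfs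
  have hθ' : 0 < 1 - θ := by linarith
  refine ⟨⋃ K : ℕ, {x : ℝ × ℝ | {p : ℕ × (ℤ × ℤ) | (p.2 ∈ TK P ((K : ℝ) + 1) ∧ 1 ≤ rt p.2 ∧
      f p.1 (a + 1 / ((K : ℝ) + 1)) ≤ 2 * rt p.2) ∧ x ∈ PW (f p.1) (8 * (2 ^ |θ|) ^ 3 * ((K : ℝ) + 1))
        ((rt p.2) ^ (-(1 - θ))) (a + 1 / ((K : ℝ) + 1)) ((K : ℝ) + 1) (rt p.2) p.2.2}.Infinite}, ?_, ?_⟩
  · rw [dimH_iUnion]
    refine iSup_le fun K => ?_
    have hK : (0 : ℝ) ≤ K := Nat.cast_nonneg K
    have h1 : (0 : ℝ) < 1 / ((K : ℝ) + 1) := by positivity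
    exact dim_polar hP hs hcount ha hf hv hτ hθ (by positivity) (by linarith) (by linarith)
  · intro x β hx hxE c
    have hx0 : 0 < x := lt_of_le_of_lt ha hx
    obtain ⟨K, hK⟩ := exists_nat_ge (max (1 / (x - a)) (max x (max c |β|)))
    have hK1 := (le_max_left _ _).trans hK
    have hK2 := (le_max_left _ _).trans ((le_max_right _ _).trans hK)
    have hK3 := (le_max_left _ _).trans ((le_max_right _ _).trans ((le_max_right _ _).trans hK))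
    have hK4 := (le_max_right _ _).trans ((le_max_right _ _).trans ((le_max_right _ _).trans hK))
    have hxa : 0 < x - a := by linarith
    have hK0 : (0 : ℝ) ≤ K := Nat.cast_nonneg K
    have hL0 : (0 : ℝ) < 1 / ((K : ℝ) + 1) := by positivity
    have hfin : ¬ {p : ℕ × (ℤ × ℤ) | (p.2 ∈ TK P ((K : ℝ) + 1) ∧ 1 ≤ rt p.2 ∧
      f p.1 (a + 1 / ((K : ℝ) + 1)) ≤ 2 * rt p.2) ∧ (x, β) ∈ PW (f p.1) (8 * (2 ^ |θ|) ^ 3 * ((K : ℝ) + 1))
        ((rt p.2) ^ (-(1 - θ))) (a + 1 / ((K : ℝ) + 1)) ((K : ℝ) + 1) (rt p.2) p.2.2}.Infinite := fun hi =>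
      hxE (Set.mem_iUnion.2 ⟨K, hi⟩)
    rw [Set.not_infinite] at hfin
    have hfp : ∀ n, 0 < f n x := fun n => (hf n x x hx le_rfl).1
    have hlarge := large hfp (show 0 < τ + 1 by linarith) (hv x hx (τ + 1) (by linarith))
      (max 2 ((2 * ((K : ℝ) + 1)) ^ (1 / (1 - θ))))
    obtain ⟨n1, hn1⟩ := eventually_atTop.1 hlarge
    refine ⟨max n1 ((hfin.toFinset.image Prod.fst).sup id + 1), fun n hn z hz1 hz2 hz3 => ?_⟩
    have hbig := hn1 n ((le_max_left _ _).trans hn)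
    have hu2 : 2 ≤ f n x := (le_max_left _ _).trans hbig
    have hu3 : (2 * ((K : ℝ) + 1)) ^ (1 / (1 - θ)) ≤ f n x := (le_max_right _ _).trans hbig
    have hu0 := hfp n
    set r := f n x with hr
    set ρ := r ^ θ with hρ
    have hρ0 : 0 < ρ := Real.rpow_pos_of_pos hu0 _
    have h3 : 2 * ((K : ℝ) + 1) ≤ r ^ (1 - θ) := by
      calc 2 * ((K : ℝ) + 1) = ((2 * ((K : ℝ) + 1)) ^ (1 / (1 - θ))) ^ (1 - θ) := by
            rw [← Real.rpow_mul (by positivity), one_div_mul_cancel hθ'.ne', Real.rpow_one]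
        _ ≤ r ^ (1 - θ) := Real.rpow_le_rpow (by positivity) hu3 hθ'.le
    -- `ρ (K + 1) ≤ r / 2`
    have h4 : ((K : ℝ) + 1) * ρ ≤ r / 2 := by
      have e1 : ρ * r ^ (1 - θ) = r := by
        rw [hρ, ← Real.rpow_add hu0, show θ + (1 - θ) = 1 by ring, Real.rpow_one]
      nlinarith
    have hρr : ρ ≤ r / 2 := by nlinarith
    have hz1' : |(|(z.1 : ℝ)| - r ^ 2)| ≤ ((K : ℝ) + 1) * ρ ^ 2 :=
      hz1.trans (mul_le_mul_of_nonneg_right (by linarith) (by positivity))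
    have hz2' : |(z.2 : ℝ) - β * r ^ 3| ≤ ((K : ℝ) + 1) * ρ ^ 3 :=
      hz2.trans (mul_le_mul_of_nonneg_right (by linarith) (by positivity))
    have h5 : ((K : ℝ) + 1) * ρ ^ 2 ≤ r ^ 2 / 4 := by
      calc ((K : ℝ) + 1) * ρ ^ 2 = (((K : ℝ) + 1) * ρ) * ρ := by ring
        _ ≤ (r / 2) * (r / 2) := mul_le_mul h4 hρr hρ0.le (by positivity)
        _ = _ := by ring
    have hR0 : 0 ≤ rt z := Real.sqrt_nonneg _
    have hRsq : |rt z ^ 2 - r ^ 2| ≤ ((K : ℝ) + 1) * ρ ^ 2 := by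
      rw [rt_sq]
      exact hz1'
    have h6 := (abs_le.mp hRsq).1
    have h7 := (abs_le.mp hRsq).2
    have h8 : r ≤ 2 * rt z := by
      by_contra hcon
      push Not at hcon
      nlinarith
    have h9 : rt z ≤ 2 * r := by
      by_contra hcon
      push Not at hcon
      nlinarith
    have hRpos : 0 < rt z := by linarith
    -- comparison of `ρ` with the power of `rt z`
    have h10 : ρ ≤ 2 ^ |θ| * (rt z) ^ θ := by
      rcases le_total 0 θ with hθ0 | hθ0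
      · rw [abs_of_nonneg hθ0, ← Real.mul_rpow (by norm_num) hRpos.le]
        exact Real.rpow_le_rpow hu0.le h8 hθ0
      · rw [abs_of_nonpos hθ0, Real.rpow_neg (by norm_num), ← div_eq_inv_mul, le_div_iff₀ (by positivity), mul_comm,
          ← Real.mul_rpow (by norm_num) hu0.le]
        exact Real.rpow_le_rpow_of_nonpos hRpos h9 hθ0
    have h11 : (rt z) ^ θ = (rt z) ^ (-(1 - θ)) * rt z := by
      rw [← Real.rpow_add_one hRpos.ne']
      congr 1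
      ring
    set A := (rt z) ^ (-(1 - θ)) with hA
    have hA0 : 0 < A := Real.rpow_pos_of_pos hRpos _
    rw [h11] at h10
    have h2θ : (1 : ℝ) ≤ 2 ^ |θ| := Real.one_le_rpow (by norm_num) (abs_nonneg _)
    set w : ℝ := 2 ^ |θ| with hw
    have hρ2 : ρ ^ 2 ≤ w ^ 2 * A ^ 2 * rt z ^ 2 := by
      calc ρ ^ 2 ≤ (w * (A * rt z)) ^ 2 := pow_le_pow_left₀ hρ0.le h10 2
        _ = _ := by ring
    have hρ3 : ρ ^ 3 ≤ w ^ 3 * A ^ 3 * rt z ^ 3 := by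
      calc ρ ^ 3 ≤ (w * (A * rt z)) ^ 3 := pow_le_pow_left₀ hρ0.le h10 3
        _ = _ := by ring
    have hw3 : w ^ 2 ≤ 8 * w ^ 3 := by nlinarith [pow_pos (lt_of_lt_of_le one_pos h2θ) 2]
    have hx9 : a + 1 / ((K : ℝ) + 1) ≤ x := by
      have e1 : 1 / ((K : ℝ) + 1) ≤ x - a := by
        rw [div_le_iff₀ (by positivity)]
        rw [div_le_iff₀ hxa] at hK1
        nlinarith
      linarith
    have hmono : f n (a + 1 / ((K : ℝ) + 1)) ≤ r := by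
      obtain ⟨q1, q2⟩ := hf n (a + 1 / ((K : ℝ) + 1)) x (by linarith) hx9
      have hL : 0 < a + 1 / ((K : ℝ) + 1) := by linarith
      rw [div_le_div_iff₀ hL hx0] at q2
      by_contra hcon2
      rw [not_le] at hcon2
      nlinarith
    have hTK : z ∈ TK P ((K : ℝ) + 1) := by
      refine ⟨?_, hP z _ _ h8 hz3⟩
      have e1 : |(z.2 : ℝ)| ≤ |β| * r ^ 3 + ((K : ℝ) + 1) * ρ ^ 3 := by
        have := abs_sub_abs_le_abs_sub (z.2 : ℝ) (β * r ^ 3)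
        rw [abs_mul, abs_of_pos (pow_pos hu0 3)] at this
        linarith
      have e2 : ρ ^ 3 ≤ r ^ 3 := pow_le_pow_left₀ hρ0.le (by linarith) 3
      have e3 : r ^ 3 ≤ 8 * rt z ^ 3 := by
        calc r ^ 3 ≤ (2 * rt z) ^ 3 := pow_le_pow_left₀ hu0.le h8 3
          _ = _ := by ring
      have e4 : |β| * r ^ 3 ≤ ((K : ℝ) + 1) * r ^ 3 := mul_le_mul_of_nonneg_right (by linarith) (by positivity)
      have e5 : ((K : ℝ) + 1) * ρ ^ 3 ≤ ((K : ℝ) + 1) * r ^ 3 := mul_le_mul_of_nonneg_left e2 (by positivity)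
      have e6 : ((K : ℝ) + 1) * r ^ 3 ≤ ((K : ℝ) + 1) * (8 * rt z ^ 3) := mul_le_mul_of_nonneg_left e3 (by positivity)
      have e7 : (K : ℝ) + 1 ≤ ((K : ℝ) + 1) ^ 3 := by nlinarith [mul_nonneg hK0 hK0, mul_nonneg hK0 (mul_nonneg hK0 hK0)]
      have e8 : 0 ≤ rt z ^ 3 := by positivity
      calc |(z.2 : ℝ)| ≤ 16 * ((K : ℝ) + 1) * rt z ^ 3 := by linarith
        _ ≤ 4096 * ((K : ℝ) + 1) ^ 3 * rt z ^ 3 := by
            apply mul_le_mul_of_nonneg_right _ e8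
            have : 0 ≤ ((K : ℝ) + 1) := by positivity
            nlinarith
        _ = (16 * ((K : ℝ) + 1) * rt z) ^ 3 := by ring
    have hmem : (n, z) ∈ hfin.toFinset := by
      rw [Set.Finite.mem_toFinset]
      refine ⟨⟨hTK, by linarith, hmono.trans h8⟩, hx9, by linarith, by linarith, by linarith, by linarith, ?_, ?_⟩
      · refine hRsq.trans ?_
        calc ((K : ℝ) + 1) * ρ ^ 2 ≤ ((K : ℝ) + 1) * (w ^ 2 * A ^ 2 * rt z ^ 2) :=
              mul_le_mul_of_nonneg_left hρ2 (by positivity)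
          _ = (w ^ 2) * (((K : ℝ) + 1) * A ^ 2 * rt z ^ 2) := by ring
          _ ≤ (8 * w ^ 3) * (((K : ℝ) + 1) * A ^ 2 * rt z ^ 2) := mul_le_mul_of_nonneg_right hw3 (by positivity)
          _ = _ := by ring
      · refine hz2'.trans ?_
        calc ((K : ℝ) + 1) * ρ ^ 3 ≤ ((K : ℝ) + 1) * (w ^ 3 * A ^ 3 * rt z ^ 3) :=
              mul_le_mul_of_nonneg_left hρ3 (by positivity)
          _ = (w ^ 3) * (((K : ℝ) + 1) * A ^ 3 * rt z ^ 3) := by ring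
          _ ≤ (8 * w ^ 3) * (((K : ℝ) + 1) * A ^ 3 * rt z ^ 3) := by
              apply mul_le_mul_of_nonneg_right _ (by positivity)
              have : 0 < w ^ 3 := by positivity
              linarith
          _ = _ := by ring
    have h11 : n ≤ (hfin.toFinset.image Prod.fst).sup id :=
      Finset.le_sup (f := id) (Finset.mem_image_of_mem Prod.fst hmem)
    have h12 := (le_max_right _ _).trans hn
    omega

end Pool.Agent.R482.ST
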