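import Pool.Agent.R482.ST.Dens

/-!
# Sets with at most `C X (1 + log X) ^ q` members of height at most `X`, `C` small, in short windows around the values of
starshaped functions, for almost all arguments
-/

set_option autoImplicit false

open Filter Topology Finset MeasureTheory
open scoped ENNReal

namespace Pool.Agent.R482.ST

theorem star_poly {T : Type} (S : ℕ → Set T) (h : T → ℝ) {f : ℕ → ℝ → ℝ} {a : ℝ} (hf : Starshaped a f)
    (hm : ∀ x : ℝ, a < x → ∃ m : ℝ, 0 < m ∧ ∀ n, m ≤ f n x) {q : ℝ} (hq : 0 ≤ q) {C L : ℕ → ℝ} (hC : ∀ n, 0 ≤ C n)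
    (hL : ∀ n, 0 ≤ L n) (hLf : ∀ x : ℝ, a < x → ∀ᶠ n in atTop, L n ≤ f n x)
    (hsum : ∀ x y : ℝ, a < x → x ≤ y → Summable fun n =>
      C n * L n * (1 + |Real.log (f n y)|) ^ q * (1 + Real.log (f n y / f n x)))
    (hS : ∀ n, ∀ X : ℝ, 1 ≤ X →
      {t | t ∈ S n ∧ h t ≤ X}.Finite ∧ ({t | t ∈ S n ∧ h t ≤ X}.ncard : ℝ) ≤ C n * (X * (1 + Real.log X) ^ q)) :
    ∃ N : Set ℝ, volume N = 0 ∧ ∀ x : ℝ, a < x → x ∉ N →
      ∃ n₀ : ℕ, ∀ n : ℕ, n₀ ≤ n → ∀ t ∈ S n, L n < |h t - f n x| := by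
  obtain ⟨ha, hf⟩ := hf
  apply ae_core S h
  intro lo hi hlo hlh
  have hlo0 : 0 < lo := lt_of_le_of_lt ha hlo
  have hhi0 : 0 < hi := lt_of_lt_of_le hlo0 hlh
  obtain ⟨m, hm0, hmf⟩ := hm lo hlo
  refine ⟨fun n => |16 * hi * (1 + 1 / m) * ((2 * (2 + 1 / m)) ^ q) *
    (C n * L n * (1 + |Real.log (f n hi)|) ^ q * (1 + Real.log (f n hi / f n lo)))|,
    fun n => abs_nonneg _, ((hsum lo hi hlo hlh).mul_left _).abs, ?_⟩
  filter_upwards [hLf lo hlo] with n hn3
  have hmono : ∀ x y : ℝ, a < x → x ≤ y → f n x ≤ f n y := by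
    intro x y hx hxy
    have hx0 : 0 < x := lt_of_le_of_lt ha hx
    have hy0 : 0 < y := lt_of_lt_of_le hx0 hxy
    obtain ⟨p1, p2⟩ := hf n x y hx hxy
    rw [div_le_div_iff₀ hx0 hy0] at p2
    by_contra hcon
    rw [not_le] at hcon
    have p3 : 0 < f n y := (hf n y y (lt_of_lt_of_le hx hxy) le_rfl).1
    nlinarith
  have hp1 : 0 < f n lo := (hf n lo lo hlo le_rfl).1
  have hp2 : f n lo ≤ f n hi := hmono lo hi hlo hlh
  have hp3 : 0 < f n hi := lt_of_lt_of_le hp1 hp2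
  have hlogq : 0 ≤ Real.log (f n hi / f n lo) := Real.log_nonneg (by rw [le_div_iff₀ hp1]; linarith)
  -- the members which matter
  set M : ℝ := 2 * (1 + 1 / m) * f n hi with hM
  have hmhi : m ≤ f n hi := (hmf n).trans hp2
  have h1m : (1 : ℝ) ≤ (1 + 1 / m) * f n hi := by
    have e1 : 1 / m * m = 1 := one_div_mul_cancel hm0.ne'
    have e2 : 1 / m * m ≤ 1 / m * f n hi := mul_le_mul_of_nonneg_left hmhi (by positivity)
    nlinarith
  have hM1 : 1 ≤ M := by
    rw [hM]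
    nlinarith
  have hM0 : 0 < M := by linarith
  have hsub : B (S n) h (f n) (L n) lo hi ⊆ B {t | t ∈ S n ∧ h t ≤ M} h (f n) (L n) lo hi := by
    rintro x ⟨hx1, hx2, t, ht, htx⟩
    refine ⟨hx1, hx2, t, ⟨ht, ?_⟩, htx⟩
    have e1 := (abs_le.mp htx).2
    have e2 := hmono x hi (lt_of_lt_of_le hlo hx1) hx2
    have e3 : 0 ≤ 1 / m * f n hi := by positivity
    have e4 : M = 2 * f n hi + 2 * (1 / m * f n hi) := by rw [hM]; ring
    linarith
  have hlogM : 1 + Real.log M ≤ 2 * (2 + 1 / m) * (1 + |Real.log (f n hi)|) := by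
    have e1 : Real.log M = Real.log 2 + Real.log (1 + 1 / m) + Real.log (f n hi) := by
      rw [hM, Real.log_mul (by positivity) hp3.ne', Real.log_mul (by norm_num) (by positivity)]
    have e2 : Real.log (1 + 1 / m) ≤ 1 / m := by
      have := Real.log_le_sub_one_of_pos (show 0 < 1 + 1 / m by positivity)
      linarith
    have e3 := Real.log_two_lt_d9
    have e4 := le_abs_self (Real.log (f n hi))
    have e5 := abs_nonneg (Real.log (f n hi))
    have e6 : 0 < 1 / m := by positivity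
    have e7 : 0 ≤ 1 / m * |Real.log (f n hi)| := by positivity
    nlinarith
  have hlM0 : 0 ≤ Real.log M := Real.log_nonneg hM1
  refine (measure_mono hsub).trans ((vol_B {t | t ∈ S n ∧ h t ≤ M} h ha (hf n) (C := C n * (1 + Real.log M) ^ q)
    (m := m) hlo hlh (hL n) (by have := hC n; positivity) hm0 (hmf n) hn3 ?_).trans ?_)
  · intro X hX
    have hX0 : 0 < X := by linarith
    have hlX : 0 ≤ Real.log X := Real.log_nonneg hX
    rcases le_total X M with hle | hge
    · have hs : {t | t ∈ {t | t ∈ S n ∧ h t ≤ M} ∧ h t ≤ X} ⊆ {t | t ∈ S n ∧ h t ≤ X} := by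
        rintro t ⟨⟨h1, -⟩, h3⟩
        exact ⟨h1, h3⟩
      refine ⟨(hS n X hX).1.subset hs, ?_⟩
      calc ({t | t ∈ {t | t ∈ S n ∧ h t ≤ M} ∧ h t ≤ X}.ncard : ℝ)
          ≤ ({t | t ∈ S n ∧ h t ≤ X}.ncard : ℝ) := by exact_mod_cast Set.ncard_le_ncard hs (hS n X hX).1
        _ ≤ C n * (X * (1 + Real.log X) ^ q) := (hS n X hX).2
        _ ≤ C n * (X * (1 + Real.log M) ^ q) := by
            apply mul_le_mul_of_nonneg_left _ (hC n)
            apply mul_le_mul_of_nonneg_left _ hX0.le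
            exact Real.rpow_le_rpow (by linarith) (by linarith [Real.log_le_log hX0 hle]) hq
        _ = C n * (1 + Real.log M) ^ q * X := by ring
    · have hs : {t | t ∈ {t | t ∈ S n ∧ h t ≤ M} ∧ h t ≤ X} ⊆ {t | t ∈ S n ∧ h t ≤ M} := by
        rintro t ⟨h1, -⟩
        exact h1
      refine ⟨(hS n M hM1).1.subset hs, ?_⟩
      calc ({t | t ∈ {t | t ∈ S n ∧ h t ≤ M} ∧ h t ≤ X}.ncard : ℝ)
          ≤ ({t | t ∈ S n ∧ h t ≤ M}.ncard : ℝ) := by exact_mod_cast Set.ncard_le_ncard hs (hS n M hM1).1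
        _ ≤ C n * (M * (1 + Real.log M) ^ q) := (hS n M hM1).2
        _ = C n * (1 + Real.log M) ^ q * M := by ring
        _ ≤ C n * (1 + Real.log M) ^ q * X := by
            apply mul_le_mul_of_nonneg_left hge
            have := hC n
            positivity
  · apply ENNReal.ofReal_le_ofReal
    refine le_trans ?_ (le_abs_self _)
    have e1 : (1 + Real.log M) ^ q ≤ (2 * (2 + 1 / m)) ^ q * (1 + |Real.log (f n hi)|) ^ q := by
      rw [← Real.mul_rpow (by positivity) (by positivity)]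
      exact Real.rpow_le_rpow (by linarith) hlogM hq
    have e2 : 0 ≤ C n * L n * (1 + Real.log (f n hi / f n lo)) := by
      have := hC n
      have := hL n
      positivity
    have e3 : 0 ≤ 16 * hi * (1 + 1 / m) := by positivity
    calc 16 * hi * (1 + 1 / m) * (C n * (1 + Real.log M) ^ q * L n * (1 + Real.log (f n hi / f n lo)))
        = 16 * hi * (1 + 1 / m) * ((1 + Real.log M) ^ q * (C n * L n * (1 + Real.log (f n hi / f n lo)))) := by ring
      _ ≤ 16 * hi * (1 + 1 / m) * (((2 * (2 + 1 / m)) ^ q * (1 + |Real.log (f n hi)|) ^ q) *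
          (C n * L n * (1 + Real.log (f n hi / f n lo)))) :=
          mul_le_mul_of_nonneg_left (mul_le_mul_of_nonneg_right e1 e2) e3
      _ = _ := by ring

theorem pow_poly {T : Type} (S : ℕ → Set T) (h : T → ℝ) {v : ℕ → ℝ} (hv : ∀ n, 1 ≤ v n)
    {q : ℝ} (hq : 0 ≤ q) {C L : ℕ → ℝ} (hC : ∀ n, 0 ≤ C n)
    (hL : ∀ n, 0 ≤ L n) (hLf : ∀ x : ℝ, 1 < x → ∀ᶠ n in atTop, L n ≤ x ^ (v n))
    (hsum : Summable fun n => C n * L n * (v n) ^ (q + 1))
    (hS : ∀ n, ∀ X : ℝ, 1 ≤ X →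
      {t | t ∈ S n ∧ h t ≤ X}.Finite ∧ ({t | t ∈ S n ∧ h t ≤ X}.ncard : ℝ) ≤ C n * (X * (1 + Real.log X) ^ q)) :
    ∃ N : Set ℝ, volume N = 0 ∧ ∀ x : ℝ, 1 < x → x ∉ N →
      ∃ n₀ : ℕ, ∀ n : ℕ, n₀ ≤ n → ∀ t ∈ S n, L n < |h t - x ^ (v n)| := by
  refine star_poly S h (f := fun n x => x ^ (v n)) ⟨zero_le_one, star_pow hv⟩ (pow_lower hv) hq hC hL hLf ?_ hS
  intro x y hx hxy
  have hx0 : 0 < x := by linarith
  have hy0 : 0 < y := by linarith
  have hly : 0 < Real.log y := Real.log_pos (by linarith)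
  have hl : 0 ≤ Real.log (y / x) := Real.log_nonneg (by rw [le_div_iff₀ hx0]; linarith)
  have e : ∀ n, Real.log (y ^ (v n) / x ^ (v n)) = v n * Real.log (y / x) := by
    intro n
    rw [← Real.div_rpow hy0.le hx0.le, Real.log_rpow (by positivity)]
  have e' : ∀ n, |Real.log (y ^ (v n))| = v n * Real.log y := by
    intro n
    rw [Real.log_rpow hy0, abs_of_nonneg]
    have := hv n
    positivity
  refine Summable.of_nonneg_of_le (fun n => ?_) (fun n => ?_)
    (hsum.mul_right ((1 + Real.log y) ^ q * (1 + Real.log (y / x))))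
  · show 0 ≤ C n * L n * (1 + |Real.log (y ^ (v n))|) ^ q * (1 + Real.log (y ^ (v n) / x ^ (v n)))
    rw [e, e']
    have := hC n
    have := hL n
    have := hv n
    positivity
  · show C n * L n * (1 + |Real.log (y ^ (v n))|) ^ q * (1 + Real.log (y ^ (v n) / x ^ (v n))) ≤ _
    rw [e, e']
    have hvn := hv n
    have hvn0 : 0 < v n := by linarith
    have e1 : (1 + v n * Real.log y) ^ q ≤ (v n) ^ q * (1 + Real.log y) ^ q := by
      rw [← Real.mul_rpow hvn0.le (by positivity)]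
      exact Real.rpow_le_rpow (by positivity) (by nlinarith) hq
    have e2 : 1 + v n * Real.log (y / x) ≤ v n * (1 + Real.log (y / x)) := by nlinarith
    have e3 : 0 ≤ C n * L n := mul_nonneg (hC n) (hL n)
    have e4 : (v n) ^ (q + 1) = (v n) ^ q * v n := by rw [Real.rpow_add hvn0, Real.rpow_one]
    rw [e4]
    calc C n * L n * (1 + v n * Real.log y) ^ q * (1 + v n * Real.log (y / x))
        = C n * L n * ((1 + v n * Real.log y) ^ q * (1 + v n * Real.log (y / x))) := by ring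
      _ ≤ C n * L n * (((v n) ^ q * (1 + Real.log y) ^ q) * (v n * (1 + Real.log (y / x)))) := by
          apply mul_le_mul_of_nonneg_left _ e3
          exact mul_le_mul e1 e2 (by positivity) (by positivity)
      _ = _ := by ring

end Pool.Agent.R482.ST
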