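import Pool.Agent.R482.ST.Star

/-!
# Thin sets of vectors and the radial extensions of starshaped functions

`f n`, `n = 0, 1, 2, …`, are positive functions on `(a, ∞)`, `a ≥ 0`, such that `f n x / x` is nondecreasing, and
the sequence `f n x` has exponent of convergence at most `τ` for each `x > a`. If a set of vectors of a normed space has
at most `C X ^ (s + ε)` members of norm at most `X`, then for all vectors `u`, `‖u‖ > a`, outside a set of Hausdorff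
dimension at most `(s + τ) / (1 - θ)` and every constant `c`, for all but finitely many `n` there is no member of the set
at the distance at most `c r ^ θ` from `(r / ‖u‖) u`, `r = f n ‖u‖`.
-/

set_option autoImplicit false

open Filter Topology Finset MeasureTheory
open scoped ENNReal NNReal

namespace Pool.Agent.R482.ST

/-- **Limsup sets** in a metric space. -/
theorem dimH_limsup' {X : Type} [EMetricSpace X] {ι : Type} [Countable ι] (U : ι → Set X) (d : ι → ℝ)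
    (hd : ∀ i, 0 < d i) (hU : ∀ i, Metric.ediam (U i) ≤ ENNReal.ofReal (d i)) {D : ℝ} (hD : 0 < D)
    (hs : Summable fun i => d i ^ D) :
    dimH {x | {i | x ∈ U i}.Infinite} ≤ ENNReal.ofReal D := by
  borelize X
  have hDn : ((Real.toNNReal D : ℝ≥0) : ℝ) = D := Real.coe_toNNReal D hD.le
  have hgoal : ENNReal.ofReal D = ((Real.toNNReal D : ℝ≥0) : ℝ≥0∞) := rfl
  rw [hgoal]
  apply dimH_le_of_hausdorffMeasure_ne_top
  rw [hDn]
  -- the diameters tend to zero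
  have hd0 : Tendsto d cofinite (𝓝 0) := by
    have h1 := hs.tendsto_cofinite_zero
    have h2 : Tendsto (fun i => (d i ^ D) ^ (1 / D)) cofinite (𝓝 (0 ^ (1 / D))) :=
      h1.rpow_const (Or.inr (by positivity))
    rw [Real.zero_rpow (by positivity)] at h2
    refine h2.congr fun i => ?_
    rw [← Real.rpow_mul (hd i).le, mul_one_div_cancel hD.ne', Real.rpow_one]
  set r : Finset ι → ℝ≥0∞ := fun F => ⨆ i : {i // i ∉ F}, ENNReal.ofReal (d i) with hr
  have hrt : Tendsto r atTop (𝓝 0) := by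
    rw [ENNReal.tendsto_nhds_zero]
    intro ε hε
    have h1 := ENNReal.tendsto_ofReal hd0
    rw [ENNReal.ofReal_zero] at h1
    have h2 := h1.eventually (ge_mem_nhds hε)
    rw [Filter.eventually_cofinite] at h2
    filter_upwards [eventually_ge_atTop h2.toFinset] with F hF
    refine iSup_le fun i => ?_
    by_contra hcon
    apply i.2
    apply hF
    rw [Set.Finite.mem_toFinset]
    exact hcon
  have key := Measure.hausdorffMeasure_le_liminf_tsum (X := X) (β := Finset ι)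
    (ι := fun F => {i // i ∉ F}) D {x | {i | x ∈ U i}.Infinite} (l := atTop) r hrt
    (fun F i => U i)
    (Eventually.of_forall fun F i =>
      (hU i).trans (le_iSup (fun i : {i // i ∉ F} => ENNReal.ofReal (d i)) i))
    (Eventually.of_forall fun F x hx => by
      obtain ⟨i, hi, hiF⟩ := hx.exists_notMem_finset F
      rw [Set.mem_iUnion]
      exact ⟨⟨i, hiF⟩, hi⟩)
  refine ne_top_of_le_ne_top ?_ key
  have hnn : ∀ i, 0 ≤ d i ^ D := fun i => Real.rpow_nonneg (hd i).le _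
  have htot : (∑' i, ENNReal.ofReal (d i ^ D)) ≠ ⊤ := by
    rw [← ENNReal.ofReal_tsum_of_nonneg hnn hs]
    exact ENNReal.ofReal_ne_top
  have hbound : ∀ F : Finset ι, (∑' i : {i // i ∉ F}, Metric.ediam (U i) ^ D) ≤
      ∑' i, ENNReal.ofReal (d i ^ D) := by
    intro F
    calc (∑' i : {i // i ∉ F}, Metric.ediam (U i) ^ D)
        ≤ ∑' i : {i // i ∉ F}, ENNReal.ofReal (d i ^ D) := by
          apply ENNReal.tsum_le_tsum
          intro i
          rw [← ENNReal.ofReal_rpow_of_pos (hd i)]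
          exact ENNReal.rpow_le_rpow (hU i) hD.le
      _ ≤ ∑' i, ENNReal.ofReal (d i ^ D) :=
          ENNReal.tsum_comp_le_tsum_of_injective (f := fun i : {i // i ∉ F} => (i : ι))
            Subtype.val_injective (fun i => ENNReal.ofReal (d i ^ D))
  refine ne_top_of_le_ne_top htot ?_
  apply Filter.liminf_le_of_le
  · isBoundedDefault
  · intro b hb
    obtain ⟨n, hn⟩ := hb.exists
    exact hn.trans (hbound n)

section radial

variable {W : Type} [NormedAddCommGroup W] [NormedSpace ℝ W]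

/-- the radial extension of the function `g`: the vector `u` is multiplied by `g ‖u‖ / ‖u‖` -/
noncomputable def rad (g : ℝ → ℝ) (u : W) : W := (g ‖u‖ / ‖u‖) • u

lemma norm_rad {g : ℝ → ℝ} {u : W} (hu : 0 < ‖u‖) (hg : 0 ≤ g ‖u‖) : ‖rad g u‖ = g ‖u‖ := by
  rw [rad, norm_smul, Real.norm_of_nonneg (div_nonneg hg hu.le), div_mul_cancel₀ _ hu.ne']

lemma near_norm {g : ℝ → ℝ} {u w : W} {δ : ℝ} (hu : 0 < ‖u‖) (hg : 0 ≤ g ‖u‖) (h : ‖w - rad g u‖ ≤ δ) :
    |‖w‖ - g ‖u‖| ≤ δ := by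
  rw [← norm_rad hu hg]
  exact (abs_norm_sub_norm_le _ _).trans h

/-- the sets of the window -/
def WR {T : Type} (V : T → W) (f : ℕ → ℝ → ℝ) (θ c L R : ℝ) (p : ℕ × T) : Set W :=
  {u : W | L ≤ ‖u‖ ∧ ‖u‖ ≤ R ∧ ‖V p.2 - rad (f p.1) u‖ ≤ c * (f p.1 ‖u‖) ^ θ ∧ f p.1 ‖u‖ ≤ 2 * ‖V p.2‖ ∧
    ‖V p.2‖ ≤ 2 * f p.1 ‖u‖}

lemma closeR {f : ℕ → ℝ → ℝ} {a θ c L R : ℝ} (ha : 0 ≤ a) (hf : Star a f) (hL : a < L) (hc : 0 < c) {n : ℕ}
    {w u v : W} (hH : 0 < ‖w‖) (hu : L ≤ ‖u‖) (hu' : ‖u‖ ≤ R) (hv : L ≤ ‖v‖) (hv' : ‖v‖ ≤ R)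
    (x1 : ‖w - rad (f n) u‖ ≤ c * (f n ‖u‖) ^ θ) (x2 : f n ‖u‖ ≤ 2 * ‖w‖) (x3 : ‖w‖ ≤ 2 * f n ‖u‖)
    (y1 : ‖w - rad (f n) v‖ ≤ c * (f n ‖v‖) ^ θ) (y2 : f n ‖v‖ ≤ 2 * ‖w‖) (y3 : ‖w‖ ≤ 2 * f n ‖v‖) :
    ‖u - v‖ ≤ 12 * 2 ^ |θ| * c * R * ‖w‖ ^ (θ - 1) := by
  have hau : a < ‖u‖ := lt_of_lt_of_le hL hu
  have hav : a < ‖v‖ := lt_of_lt_of_le hL hv
  have hu0 : 0 < ‖u‖ := lt_of_le_of_lt ha hau
  have hv0 : 0 < ‖v‖ := lt_of_le_of_lt ha hav
  have hR0 : 0 < R := lt_of_lt_of_le hu0 hu'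
  have hr : 0 < f n ‖u‖ := (hf n _ _ hau le_rfl).1
  have hr' : 0 < f n ‖v‖ := (hf n _ _ hav le_rfl).1
  have z1 := near_norm hu0 hr.le x1
  have z2 := near_norm hv0 hr'.le y1
  set H : ℝ := ‖w‖ with hHd
  set r : ℝ := f n ‖u‖ with hrd
  set r' : ℝ := f n ‖v‖ with hrd'
  have hP : (0 : ℝ) < H ^ (θ - 1) := by positivity
  have h8 : H ^ θ = H ^ (θ - 1) * H := by
    rw [Real.rpow_sub hH, Real.rpow_one, div_mul_cancel₀ _ hH.ne']
  -- the norms
  have hA : |‖u‖ - ‖v‖| ≤ 4 * 2 ^ |θ| * c * R * H ^ (θ - 1) := by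
    rcases le_total ‖u‖ ‖v‖ with hle | hle
    · rw [abs_sub_comm, abs_of_nonneg (by linarith)]
      exact close ha hf hL hc hH hu hle hv' z1 x2 x3 z2 y2 y3
    · rw [abs_of_nonneg (by linarith)]
      exact close ha hf hL hc hH hv hle hu' z2 y2 y3 z1 x2 x3
  have e1 := mul_le_mul_of_nonneg_left (rpow_le (θ := θ) hr hH x2 x3) hc.le
  have e2 := mul_le_mul_of_nonneg_left (rpow_le (θ := θ) hr' hH y2 y3) hc.le
  have hB : |r' - r| ≤ 2 * (c * (2 ^ |θ| * H ^ θ)) := by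
    have e3 := abs_le.mp z1
    have e4 := abs_le.mp z2
    rw [abs_le]
    constructor
    · linarith [e3.1, e3.2, e4.1, e4.2]
    · linarith [e3.1, e3.2, e4.1, e4.2]
  have hC : ‖rad (f n) u - rad (f n) v‖ ≤ 2 * (c * (2 ^ |θ| * H ^ θ)) := by
    have e3 : rad (f n) u - rad (f n) v = (w - rad (f n) v) - (w - rad (f n) u) := by abel
    rw [e3]
    refine (norm_sub_le _ _).trans ?_
    linarith
  have hxr : ‖u‖ / r ≤ 2 * R / H := by
    rw [div_le_div_iff₀ hr hH]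
    nlinarith
  have hD : u - v = (‖u‖ / r) • (rad (f n) u - rad (f n) v) + (‖u‖ / r - ‖v‖ / r') • rad (f n) v := by
    have g1 : (‖u‖ / r) • rad (f n) u = u := by
      rw [rad, smul_smul, ← hrd, div_mul_div_cancel₀ hr.ne', div_self hu0.ne', one_smul]
    have g2 : (‖v‖ / r') • rad (f n) v = v := by
      rw [rad, smul_smul, ← hrd', div_mul_div_cancel₀ hr'.ne', div_self hv0.ne', one_smul]
    rw [smul_sub, sub_smul, g1, g2]
    abel
  have hT1 : ‖(‖u‖ / r) • (rad (f n) u - rad (f n) v)‖ ≤ 4 * 2 ^ |θ| * c * R * H ^ (θ - 1) := by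
    rw [norm_smul, Real.norm_of_nonneg (by positivity)]
    calc ‖u‖ / r * ‖rad (f n) u - rad (f n) v‖ ≤ 2 * R / H * (2 * (c * (2 ^ |θ| * H ^ θ))) :=
          mul_le_mul hxr hC (norm_nonneg _) (by positivity)
      _ = 4 * 2 ^ |θ| * c * R * H ^ (θ - 1) := by
          rw [h8]
          field_simp
          ring
  have hT2 : ‖(‖u‖ / r - ‖v‖ / r') • rad (f n) v‖ ≤ 8 * 2 ^ |θ| * c * R * H ^ (θ - 1) := by
    rw [norm_smul, norm_rad hv0 hr'.le, Real.norm_eq_abs, ← abs_of_pos (show 0 < f n ‖v‖ from hr'), ← abs_mul,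
      ← hrd']
    have g3 : (‖u‖ / r - ‖v‖ / r') * r' = (‖u‖ - ‖v‖) + ‖u‖ / r * (r' - r) := by
      field_simp
      ring
    rw [g3]
    refine (abs_add_le _ _).trans ?_
    rw [abs_mul, abs_of_nonneg (show 0 ≤ ‖u‖ / r by positivity)]
    have g4 : ‖u‖ / r * |r' - r| ≤ 4 * 2 ^ |θ| * c * R * H ^ (θ - 1) := by
      calc ‖u‖ / r * |r' - r| ≤ 2 * R / H * (2 * (c * (2 ^ |θ| * H ^ θ))) :=
            mul_le_mul hxr hB (abs_nonneg _) (by positivity)
        _ = 4 * 2 ^ |θ| * c * R * H ^ (θ - 1) := by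
            rw [h8]
            field_simp
            ring
    linarith
  rw [hD]
  refine (norm_add_le _ _).trans ?_
  linarith

/-- the windows with the norm of `u` in a fixed interval -/
theorem dim_radial {T : Type} (S : Set T) (V : T → W) {f : ℕ → ℝ → ℝ} {a s τ θ : ℝ} (ha : 0 ≤ a)
    (hf : Star a f) (hv : Conv a f τ) (hs : 0 ≤ s) (hτ : 0 ≤ τ) (hθ : θ < 1)
    (hS : ∀ ε : ℝ, 0 < ε → ∃ C : ℝ, ∀ X : ℝ, 1 ≤ X →
      {t | t ∈ S ∧ ‖V t‖ ≤ X}.Finite ∧ ({t | t ∈ S ∧ ‖V t‖ ≤ X}.ncard : ℝ) ≤ C * X ^ (s + ε))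
    {c L R : ℝ} (hc : 0 < c) (hL : a < L) (hLR : L ≤ R) :
    dimH {x : W | {p : ℕ × T | (p.2 ∈ S ∧ 1 ≤ ‖V p.2‖ ∧ f p.1 L ≤ 2 * ‖V p.2‖) ∧
      x ∈ WR V f θ c L R p}.Infinite} ≤ ENNReal.ofReal ((s + τ) / (1 - θ)) := by
  classical
  have hθ' : 0 < 1 - θ := by linarith
  apply ENNReal.le_of_forall_pos_le_add
  intro ε hε _
  have hε' : (0 : ℝ) < ε := by exact_mod_cast hε
  rw [← ENNReal.ofReal_coe_nnreal (p := ε), ← ENNReal.ofReal_add (by positivity) hε'.le]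
  set D : ℝ := (s + τ) / (1 - θ) + ε with hD
  have hD0 : 0 < D := by positivity
  have hDτ : D * (1 - θ) = s + τ + ε * (1 - θ) := by
    rw [hD, add_mul, div_mul_cancel₀ _ hθ'.ne']
  set Q : Set (ℕ × T) := {p | p.2 ∈ S ∧ 1 ≤ ‖V p.2‖ ∧ f p.1 L ≤ 2 * ‖V p.2‖} with hQ
  set η : ℝ := ε * (1 - θ) / 4 with hη
  have hη0 : 0 < η := by positivity
  obtain ⟨C1, hcP⟩ := hS η hη0
  obtain ⟨C2, hC2, hcn⟩ := few hf hv hτ hL η hη0
  have hR0 : 0 < R := by linarith
  have hScount : S.Countable := by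
    have h1 : S ⊆ ⋃ N : ℕ, {t | t ∈ S ∧ ‖V t‖ ≤ (N : ℝ) + 1} := by
      intro t ht
      obtain ⟨N, hN⟩ := exists_nat_ge ‖V t‖
      exact Set.mem_iUnion.2 ⟨N, ht, by linarith⟩
    refine (Set.countable_iUnion fun N => ?_).mono h1
    refine (hcP _ ?_).1.countable
    have : (0 : ℝ) ≤ N := Nat.cast_nonneg N
    linarith
  have hQc : Countable Q := by
    have h1 : Q ⊆ (Set.univ : Set ℕ) ×ˢ S := fun p hp => ⟨Set.mem_univ _, hp.1⟩
    exact ((Set.countable_univ.prod hScount).mono h1).to_subtype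
  have hone : ∀ p : Q, (1 : ℝ) ≤ ‖V p.1.2‖ := fun p => p.2.2.1
  have hpos : ∀ p : Q, (0 : ℝ) < ‖V p.1.2‖ := fun p => lt_of_lt_of_le one_pos (hone p)
  have h1 := dimH_limsup' (fun p : Q => WR V f θ c L R p.1)
    (fun p => 12 * 2 ^ |θ| * c * R * ‖V p.1.2‖ ^ (θ - 1))
    (fun p => by
      have := hpos p
      positivity)
    (fun p => by
      apply Metric.ediam_le
      intro x hx y hy
      rw [edist_dist]
      apply ENNReal.ofReal_le_ofReal
      rw [dist_eq_norm]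
      obtain ⟨x1, x2, x3, x4, x5⟩ := hx
      obtain ⟨y1, y2, y3, y4, y5⟩ := hy
      exact closeR ha hf hL hc (hpos p) x1 x2 y1 y2 x3 x4 x5 y3 y4 y5) hD0 (by
      have h2 := Pool.Agent.R479.DA.summable_heights (ι := Q) (fun p => ‖V p.1.2‖) hone
        (s := s + η + (τ + η)) (p := D * (1 - θ)) (C := |C1| * C2)
        (by rw [hDτ, hη]; nlinarith [mul_pos hε' hθ']) (by positivity) (by
          intro X hX
          have hX0 : 0 < X := by linarith
          have hinj : Set.InjOn (Subtype.val : Q → ℕ × T) {p | ‖V p.1.2‖ ≤ X} :=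
            Subtype.val_injective.injOn
          have himg : (Subtype.val : Q → ℕ × T) '' {p | ‖V p.1.2‖ ≤ X} ⊆
              {n : ℕ | f n L ≤ 2 * X} ×ˢ {t : T | t ∈ S ∧ ‖V t‖ ≤ X} := by
            rintro _ ⟨p, hp, rfl⟩
            refine ⟨?_, p.2.1, hp⟩
            refine p.2.2.2.trans ?_
            have : ‖V p.1.2‖ ≤ X := hp
            linarith
          have hfn := (hcn X hX).1
          have hfd := (hcP X hX).1
          have hfp := hfn.prod hfd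
          refine ⟨Set.Finite.of_finite_image (hfp.subset himg) hinj, ?_⟩
          rw [← hinj.ncard_image]
          have h3 := Set.ncard_le_ncard himg hfp
          rw [Set.ncard_prod] at h3
          have h4 : ({t : T | t ∈ S ∧ ‖V t‖ ≤ X}.ncard : ℝ) ≤ |C1| * X ^ (s + η) :=
            (hcP X hX).2.trans (mul_le_mul_of_nonneg_right (le_abs_self C1) (by positivity))
          calc (((Subtype.val : Q → ℕ × T) '' {p | ‖V p.1.2‖ ≤ X}).ncard : ℝ)
              ≤ ((({n : ℕ | f n L ≤ 2 * X}.ncard *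
                {t : T | t ∈ S ∧ ‖V t‖ ≤ X}.ncard : ℕ)) : ℝ) := by exact_mod_cast h3
            _ = ({n : ℕ | f n L ≤ 2 * X}.ncard : ℝ) *
                ({t : T | t ∈ S ∧ ‖V t‖ ≤ X}.ncard : ℝ) := by push_cast; rfl
            _ ≤ (C2 * X ^ (τ + η)) * (|C1| * X ^ (s + η)) :=
                mul_le_mul (hcn X hX).2 h4 (Nat.cast_nonneg _) (by positivity)
            _ = |C1| * C2 * (X ^ (s + η) * X ^ (τ + η)) := by ring
            _ = |C1| * C2 * X ^ (s + η + (τ + η)) := by rw [← Real.rpow_add hX0])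
      refine (h2.mul_left ((12 * 2 ^ |θ| * c * R) ^ D)).congr fun p => ?_
      have := hpos p
      have e : (12 * 2 ^ |θ| * c * R * ‖V p.1.2‖ ^ (θ - 1)) ^ D =
          (12 * 2 ^ |θ| * c * R) ^ D * (‖V p.1.2‖ ^ (θ - 1)) ^ D :=
        Real.mul_rpow (by positivity) (by positivity)
      rw [e, ← Real.rpow_mul this.le]
      congr 2
      ring)
  refine le_trans (dimH_mono ?_) h1
  intro x hx
  simp only [Set.mem_ofPred_eq] at hx ⊢
  have himg : (Subtype.val : Q → ℕ × T) '' {p | x ∈ WR V f θ c L R p.1} =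
      {p : ℕ × T | (p.2 ∈ S ∧ 1 ≤ ‖V p.2‖ ∧ f p.1 L ≤ 2 * ‖V p.2‖) ∧ x ∈ WR V f θ c L R p} := by
    ext p
    constructor
    · rintro ⟨u, hu, rfl⟩
      exact ⟨u.2, hu⟩
    · rintro ⟨hp, hpα⟩
      exact ⟨⟨p, hp⟩, hpα, rfl⟩
  rw [← himg] at hx
  exact fun hfin => hx (hfin.image _)

/-- **Thin sets of vectors and radial starshaped maps.** -/
theorem radial_windows {T : Type} (S : Set T) (V : T → W) {f : ℕ → ℝ → ℝ} {a s τ θ : ℝ} (ha : 0 ≤ a)
    (hf : Star a f) (hv : Conv a f τ) (hs : 0 ≤ s) (hτ : 0 ≤ τ) (hθ : θ < 1)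
    (hS : ∀ ε : ℝ, 0 < ε → ∃ C : ℝ, ∀ X : ℝ, 1 ≤ X →
      {t | t ∈ S ∧ ‖V t‖ ≤ X}.Finite ∧ ({t | t ∈ S ∧ ‖V t‖ ≤ X}.ncard : ℝ) ≤ C * X ^ (s + ε)) :
    ∃ E : Set W, dimH E ≤ ENNReal.ofReal ((s + τ) / (1 - θ)) ∧ ∀ u : W, a < ‖u‖ → u ∉ E → ∀ c : ℝ,
      ∃ n₀ : ℕ, ∀ n : ℕ, n₀ ≤ n → ∀ t ∈ S, c * (f n ‖u‖) ^ θ < ‖V t - rad (f n) u‖ := by
  classical
  have hθ' : 0 < 1 - θ := by linarith
  refine ⟨⋃ K : ℕ, {x : W | {p : ℕ × T | (p.2 ∈ S ∧ 1 ≤ ‖V p.2‖ ∧ f p.1 (a + 1 / ((K : ℝ) + 1)) ≤ 2 * ‖V p.2‖) ∧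
      x ∈ WR V f θ ((K : ℝ) + 1) (a + 1 / ((K : ℝ) + 1)) (a + 1 + (K : ℝ)) p}.Infinite}, ?_, ?_⟩
  · rw [dimH_iUnion]
    refine iSup_le fun K => ?_
    have hK : (0 : ℝ) ≤ K := Nat.cast_nonneg K
    have h1 : (0 : ℝ) < 1 / ((K : ℝ) + 1) := by positivity
    have h2 : 1 / ((K : ℝ) + 1) ≤ 1 := by
      rw [div_le_one (by positivity)]
      linarith
    exact dim_radial S V ha hf hv hs hτ hθ hS (by linarith) (by linarith) (by linarith)
  · intro u hx hxE c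
    set x : ℝ := ‖u‖ with hxd
    have hx0 : 0 < x := lt_of_le_of_lt ha hx
    obtain ⟨K, hK⟩ := exists_nat_ge (max (1 / (x - a)) (max x c))
    have hK1 := (le_max_left _ _).trans hK
    have hK2 := (le_max_left _ _).trans ((le_max_right _ _).trans hK)
    have hK3 := (le_max_right _ _).trans ((le_max_right _ _).trans hK)
    have hxa : 0 < x - a := by linarith
    have hK0 : (0 : ℝ) ≤ K := Nat.cast_nonneg K
    have hL0 : (0 : ℝ) < 1 / ((K : ℝ) + 1) := by positivity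
    have hfin : ¬ {p : ℕ × T | (p.2 ∈ S ∧ 1 ≤ ‖V p.2‖ ∧ f p.1 (a + 1 / ((K : ℝ) + 1)) ≤ 2 * ‖V p.2‖) ∧
      u ∈ WR V f θ ((K : ℝ) + 1) (a + 1 / ((K : ℝ) + 1)) (a + 1 + (K : ℝ)) p}.Infinite := fun hi =>
      hxE (Set.mem_iUnion.2 ⟨K, hi⟩)
    rw [Set.not_infinite] at hfin
    have hfp : ∀ n, 0 < f n x := fun n => (hf n x x hx le_rfl).1
    have hlarge := large hfp (show 0 < τ + 1 by linarith) (hv x hx (τ + 1) (by linarith))
      (max 2 ((2 * ((K : ℝ) + 1)) ^ (1 / (1 - θ))))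
    obtain ⟨n1, hn1⟩ := eventually_atTop.1 hlarge
    refine ⟨max n1 ((hfin.toFinset.image Prod.fst).sup id + 1), fun n hn t ht => ?_⟩
    by_contra hcon
    rw [not_lt] at hcon
    have hbig := hn1 n ((le_max_left _ _).trans hn)
    have hu2 : 2 ≤ f n x := (le_max_left _ _).trans hbig
    have hu3 : (2 * ((K : ℝ) + 1)) ^ (1 / (1 - θ)) ≤ f n x := (le_max_right _ _).trans hbig
    have hu0 := hfp n
    have hconV : ‖V t - rad (f n) u‖ ≤ ((K : ℝ) + 1) * (f n x) ^ θ :=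
      hcon.trans (mul_le_mul_of_nonneg_right (by linarith) (by positivity))
    have hcon : |‖V t‖ - f n x| ≤ ((K : ℝ) + 1) * (f n x) ^ θ := near_norm hx0 hu0.le hconV
    have h3 : 2 * ((K : ℝ) + 1) ≤ (f n x) ^ (1 - θ) := by
      calc 2 * ((K : ℝ) + 1) = ((2 * ((K : ℝ) + 1)) ^ (1 / (1 - θ))) ^ (1 - θ) := by
            rw [← Real.rpow_mul (by positivity), one_div_mul_cancel hθ'.ne', Real.rpow_one]
        _ ≤ (f n x) ^ (1 - θ) := Real.rpow_le_rpow (by positivity) hu3 hθ'.le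
    have h4 : ((K : ℝ) + 1) * (f n x) ^ θ ≤ f n x / 2 := by
      have e1 : (f n x) ^ θ * (f n x) ^ (1 - θ) = f n x := by
        rw [← Real.rpow_add hu0]
        rw [show θ + (1 - θ) = 1 by ring, Real.rpow_one]
      have e2 : (0 : ℝ) < (f n x) ^ θ := by positivity
      nlinarith
    have h5 := (abs_le.mp hcon).1
    have h6 := (abs_le.mp hcon).2
    have h7 : f n x ≤ 2 * ‖V t‖ := by linarith
    have h8 : ‖V t‖ ≤ 2 * f n x := by linarith
    have h9 : a + 1 / ((K : ℝ) + 1) ≤ x := by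
      have e1 : 1 / ((K : ℝ) + 1) ≤ x - a := by
        rw [div_le_iff₀ (by positivity)]
        rw [div_le_iff₀ hxa] at hK1
        nlinarith
      linarith
    have h10 : f n (a + 1 / ((K : ℝ) + 1)) ≤ f n x := by
      obtain ⟨q1, q2⟩ := hf n (a + 1 / ((K : ℝ) + 1)) x (by linarith) h9
      have hL : 0 < a + 1 / ((K : ℝ) + 1) := by linarith
      rw [div_le_div_iff₀ hL hx0] at q2
      by_contra hcon2
      rw [not_le] at hcon2
      nlinarith
    have hmem : (n, t) ∈ hfin.toFinset := by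
      rw [Set.Finite.mem_toFinset]
      exact ⟨⟨ht, by linarith, h10.trans h7⟩, h9, by linarith, hconV, h7, h8⟩
    have h11 : n ≤ (hfin.toFinset.image Prod.fst).sup id :=
      Finset.le_sup (f := id) (Finset.mem_image_of_mem Prod.fst hmem)
    have h12 := (le_max_right _ _).trans hn
    omega

end radial

end Pool.Agent.R482.ST
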