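import Pool.Agent.R482.ST.Dens

/-!
# Sets with `O (X (log X) ^ (-δ))` members of height at most `X`, `δ > 0` arbitrary, and powers

For almost all `x > 1` and all large `n` there is no member of height `H` with `|H - x ^ (v n)| ≤ L n`, if the sum of
`L n (v n) ^ (-δ)` converges.
-/

set_option autoImplicit false

open Filter Topology Finset MeasureTheory
open scoped ENNReal

namespace Pool.Agent.R482.ST

lemma vol_piece_pow {v H L lo hi G : ℝ} (hv : 1 ≤ v) (hlo : 1 < lo) (hL : 0 ≤ L) (hG : 0 < G) :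
    volume {x : ℝ | lo ≤ x ∧ x ≤ hi ∧ G ≤ x ^ v ∧ |H - x ^ v| ≤ L} ≤ ENNReal.ofReal (2 * hi * L / (v * G)) := by
  refine (Real.volume_le_diam _).trans ?_
  have key : ∀ x y : ℝ, lo ≤ x → x ≤ y → y ≤ hi → G ≤ x ^ v → |H - x ^ v| ≤ L → |H - y ^ v| ≤ L →
      y - x ≤ 2 * hi * L / (v * G) := by
    intro x y hx hxy hy hGx h1 h2
    have hx0 : 0 < x := by linarith
    have hy0 : 0 < y := by linarith
    have h3 : y ^ v - x ^ v ≤ 2 * L := by
      have e1 := (abs_le.mp h1).2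
      have e2 := (abs_le.mp h2).1
      linarith
    have h4 : 1 + v * ((y - x) / x) ≤ (1 + (y - x) / x) ^ v :=
      one_add_mul_self_le_rpow_one_add (by
        have : 0 ≤ (y - x) / x := div_nonneg (by linarith) hx0.le
        linarith) hv
    have h5 : 1 + (y - x) / x = y / x := by
      field_simp
      ring
    rw [h5, Real.div_rpow hy0.le hx0.le, le_div_iff₀ (by positivity)] at h4
    -- (1 + v (y-x)/x) x^v ≤ y^v
    have h6 : x ^ v * (v * ((y - x) / x)) ≤ 2 * L := by nlinarith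
    have h7 : 0 ≤ v * ((y - x) / x) := mul_nonneg (by linarith) (div_nonneg (by linarith) hx0.le)
    have h8 : G * (v * ((y - x) / x)) ≤ 2 * L := (mul_le_mul_of_nonneg_right hGx h7).trans h6
    rw [le_div_iff₀ (by positivity)]
    have h9 : (y - x) * (v * G) = G * (v * ((y - x) / x)) * x := by field_simp
    rw [h9]
    calc G * (v * ((y - x) / x)) * x ≤ 2 * L * x := mul_le_mul_of_nonneg_right h8 hx0.le
      _ ≤ 2 * L * hi := mul_le_mul_of_nonneg_left (by linarith) (by linarith)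
      _ = 2 * hi * L := by ring
  apply Metric.ediam_le
  intro x hx y hy
  rw [edist_dist]
  apply ENNReal.ofReal_le_ofReal
  rw [Real.dist_eq]
  obtain ⟨x1, x2, x3, x4⟩ := hx
  obtain ⟨y1, y2, y3, y4⟩ := hy
  rcases le_total x y with hle | hle
  · rw [abs_sub_comm, abs_of_nonneg (by linarith)]
    exact key x y x1 hle y2 x3 x4 y4
  · rw [abs_of_nonneg (by linarith)]
    exact key y x y1 hle x2 y3 y4 x4

lemma vol_B_pow {T : Type} (S : Set T) (h : T → ℝ) {v C L lo hi : ℝ} (hv : 1 ≤ v) (hlo : 1 < lo)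
    (hlh : lo ≤ hi) (hL : 0 ≤ L) (hC : 0 ≤ C) (hLf : L ≤ lo ^ v)
    (hS : ∀ X : ℝ, 1 ≤ X → {t | t ∈ S ∧ h t ≤ X}.Finite ∧ ({t | t ∈ S ∧ h t ≤ X}.ncard : ℝ) ≤ C * X) :
    volume (B S h (fun x => x ^ v) L lo hi) ≤
      ENNReal.ofReal (16 * hi * (1 + Real.log (hi / lo)) * (C * L)) := by
  classical
  have hlo0 : 0 < lo := by linarith
  have hhi0 : 0 < hi := by linarith
  have hv0 : 0 < v := by linarith
  set F0 : ℝ := lo ^ v with hF0
  have hF01 : 1 ≤ F0 := Real.one_le_rpow hlo.le hv0.le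
  have hF0p : 0 < F0 := by linarith
  have hF1 : F0 ≤ hi ^ v := Real.rpow_le_rpow hlo0.le hlh hv0.le
  set K : ℕ := ⌊Real.log (hi ^ v / F0) / Real.log 2⌋₊ with hK
  have hl2 : 0 < Real.log 2 := Real.log_pos (by norm_num)
  have hq : hi ^ v / F0 = (hi / lo) ^ v := by rw [hF0, Real.div_rpow hhi0.le hlo0.le]
  have hlq : Real.log (hi ^ v / F0) = v * Real.log (hi / lo) := by
    rw [hq, Real.log_rpow (by positivity)]
  have hlog0 : 0 ≤ Real.log (hi / lo) := Real.log_nonneg (by rw [le_div_iff₀ hlo0]; linarith)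
  have hX : ∀ k : ℕ, (1 : ℝ) ≤ 2 ^ (k + 2) * F0 := by
    intro k
    have e1 : (1 : ℝ) ≤ 2 ^ (k + 2) := one_le_pow₀ (by norm_num)
    nlinarith
  have hsub : B S h (fun x => x ^ v) L lo hi ⊆ ⋃ k ∈ range (K + 1),
      ⋃ t ∈ (hS _ (hX k)).1.toFinset, {x : ℝ | lo ≤ x ∧ x ≤ hi ∧ 2 ^ k * F0 ≤ x ^ v ∧ |h t - x ^ v| ≤ L} := by
    rintro x ⟨hx1, hx2, t, ht, htx⟩
    have hx0 : 0 < x := by linarith
    have htx : |h t - x ^ v| ≤ L := htx
    have hfx : F0 ≤ x ^ v := Real.rpow_le_rpow hlo0.le hx1 hv0.le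
    obtain ⟨k, hk1, hk2⟩ := exists_nat_pow_near (x := x ^ v / F0) (y := (2 : ℝ))
      (by rw [le_div_iff₀ hF0p]; linarith) (by norm_num)
    rw [le_div_iff₀ hF0p] at hk1
    rw [div_lt_iff₀ hF0p] at hk2
    rw [Set.mem_iUnion₂]
    refine ⟨k, ?_, ?_⟩
    · rw [mem_range, Nat.lt_succ_iff]
      apply Nat.le_floor
      rw [le_div_iff₀ hl2, ← Real.log_pow]
      apply Real.log_le_log (by positivity)
      rw [le_div_iff₀ hF0p]
      exact hk1.trans (Real.rpow_le_rpow hx0.le hx2 hv0.le)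
    · rw [Set.mem_iUnion₂]
      refine ⟨t, ?_, hx1, hx2, hk1, htx⟩
      rw [Set.Finite.mem_toFinset]
      refine ⟨ht, ?_⟩
      have e1 := (abs_le.mp htx).2
      have e3 : F0 ≤ 2 ^ (k + 1) * F0 := le_mul_of_one_le_left hF0p.le (one_le_pow₀ (by norm_num))
      have e2 : 2 ^ (k + 2) * F0 = 2 ^ (k + 1) * F0 + 2 ^ (k + 1) * F0 := by ring
      linarith
  refine (measure_mono hsub).trans ((measure_biUnion_finset_le _ _).trans ?_)
  have hterm : ∀ k ∈ range (K + 1), volume (⋃ t ∈ (hS _ (hX k)).1.toFinset,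
      {x : ℝ | lo ≤ x ∧ x ≤ hi ∧ 2 ^ k * F0 ≤ x ^ v ∧ |h t - x ^ v| ≤ L}) ≤
        ENNReal.ofReal (8 * hi * (C * L) / v) := by
    intro k _
    refine (measure_biUnion_finset_le _ _).trans ?_
    have hG : (0 : ℝ) < 2 ^ k * F0 := by positivity
    have hnn : 0 ≤ 2 * hi * L / (v * (2 ^ k * F0)) := by positivity
    calc ∑ t ∈ (hS _ (hX k)).1.toFinset, volume {x : ℝ | lo ≤ x ∧ x ≤ hi ∧ 2 ^ k * F0 ≤ x ^ v ∧ |h t - x ^ v| ≤ L}
        ≤ ∑ _t ∈ (hS _ (hX k)).1.toFinset, ENNReal.ofReal (2 * hi * L / (v * (2 ^ k * F0))) :=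
          sum_le_sum fun t _ => vol_piece_pow hv hlo hL hG
      _ = ENNReal.ofReal (((hS _ (hX k)).1.toFinset.card : ℝ) * (2 * hi * L / (v * (2 ^ k * F0)))) := by
          rw [sum_const, nsmul_eq_mul, ENNReal.ofReal_mul (Nat.cast_nonneg _), ENNReal.ofReal_natCast]
      _ ≤ ENNReal.ofReal (C * (2 ^ (k + 2) * F0) * (2 * hi * L / (v * (2 ^ k * F0)))) := by
          apply ENNReal.ofReal_le_ofReal
          apply mul_le_mul_of_nonneg_right _ hnn
          have := (hS _ (hX k)).2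
          rwa [Set.ncard_eq_toFinset_card _ (hS _ (hX k)).1] at this
      _ = ENNReal.ofReal (8 * hi * (C * L) / v) := by
          congr 1
          field_simp
          ring
  refine (sum_le_sum hterm).trans ?_
  rw [sum_const, card_range, nsmul_eq_mul, ← ENNReal.ofReal_natCast, ← ENNReal.ofReal_mul (Nat.cast_nonneg _)]
  apply ENNReal.ofReal_le_ofReal
  have hKle : ((K + 1 : ℕ) : ℝ) ≤ 2 * (v * (1 + Real.log (hi / lo))) := by
    push_cast
    have e1 : (K : ℝ) ≤ Real.log (hi ^ v / F0) / Real.log 2 := Nat.floor_le (by rw [hlq]; positivity)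
    rw [hlq] at e1
    have e2 : v * Real.log (hi / lo) / Real.log 2 ≤ 2 * (v * Real.log (hi / lo)) := by
      rw [div_le_iff₀ hl2]
      have := Real.log_two_gt_d9
      have e3 : 0 ≤ v * Real.log (hi / lo) := by positivity
      nlinarith
    nlinarith
  have hnn : 0 ≤ 8 * hi * (C * L) / v := by positivity
  calc ((K + 1 : ℕ) : ℝ) * (8 * hi * (C * L) / v) ≤
      (2 * (v * (1 + Real.log (hi / lo)))) * (8 * hi * (C * L) / v) := mul_le_mul_of_nonneg_right hKle hnn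
    _ = 16 * hi * (1 + Real.log (hi / lo)) * (C * L) := by
        field_simp
        ring

/-- **Sets with a saving of a power of the logarithm, and powers.** -/
theorem slow_pow {T : Type} (S : Set T) (h : T → ℝ) {δ C : ℝ} (hδ : 0 < δ)
    (hS : ∀ X : ℝ, 1 ≤ X → {t | t ∈ S ∧ h t ≤ X}.Finite ∧
      ({t | t ∈ S ∧ h t ≤ X}.ncard : ℝ) ≤ C * X * (1 + Real.log X) ^ (-δ))
    {v L : ℕ → ℝ} (hv : ∀ n, 1 ≤ v n) (hL : ∀ n, 0 ≤ L n) (hLf : ∀ x : ℝ, 1 < x → ∀ᶠ n in atTop, 2 * L n ≤ x ^ (v n))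
    (hvinf : Tendsto v atTop atTop) (hsum : Summable fun n => L n * (v n) ^ (-δ)) :
    ∃ N : Set ℝ, volume N = 0 ∧ ∀ x : ℝ, 1 < x → x ∉ N →
      ∃ n₀ : ℕ, ∀ n : ℕ, n₀ ≤ n → ∀ t ∈ S, L n < |h t - x ^ (v n)| := by
  apply ae_core (fun _ => S) h (a := 1)
  intro lo hi hlo hlh
  have hlo0 : 0 < lo := by linarith
  have hhi0 : 0 < hi := by linarith
  have hll : 0 < Real.log lo := Real.log_pos hlo
  refine ⟨fun n => |16 * hi * (1 + Real.log (hi / lo)) * (|C| * (Real.log lo) ^ (-δ)) * (L n * (v n) ^ (-δ))|,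
    fun n => abs_nonneg _, (hsum.mul_left _).abs, ?_⟩
  have h2 : ∀ᶠ n in atTop, 2 ≤ lo ^ (v n) := by
    have h1 : Tendsto (fun n => Real.log lo * v n) atTop atTop := hvinf.const_mul_atTop hll
    have h2 := (Real.tendsto_exp_atTop.comp h1).eventually (eventually_ge_atTop 2)
    filter_upwards [h2] with n hn
    rw [Real.rpow_def_of_pos hlo0]
    exact hn
  filter_upwards [h2, hLf lo hlo] with n hn2 hn3
  have hvn := hv n
  have hvn0 : 0 < v n := by linarith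
  set D : ℝ := |C| * (1 + Real.log (lo ^ (v n) / 2)) ^ (-δ) with hD
  have e0 : Real.log (lo ^ (v n) / 2) = v n * Real.log lo - Real.log 2 := by
    rw [Real.log_div (by positivity) (by norm_num), Real.log_rpow hlo0]
  have e3 : v n * Real.log lo ≤ 1 + Real.log (lo ^ (v n) / 2) := by
    rw [e0]
    have := Real.log_two_lt_d9
    linarith
  have e4 : 0 < v n * Real.log lo := by positivity
  have hD0 : 0 ≤ D := by
    have : 0 < 1 + Real.log (lo ^ (v n) / 2) := lt_of_lt_of_le e4 e3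
    positivity
  have hsub : B S h (fun x => x ^ (v n)) (L n) lo hi ⊆
      B {t | t ∈ S ∧ lo ^ (v n) / 2 ≤ h t} h (fun x => x ^ (v n)) (L n) lo hi := by
    rintro x ⟨hx1, hx2, t, ht, htx⟩
    refine ⟨hx1, hx2, t, ⟨ht, ?_⟩, htx⟩
    have htx : |h t - x ^ (v n)| ≤ L n := htx
    have e1 := (abs_le.mp htx).1
    have e2 : lo ^ (v n) ≤ x ^ (v n) := Real.rpow_le_rpow hlo0.le hx1 hvn0.le
    linarith
  refine (measure_mono hsub).trans ((vol_B_pow {t | t ∈ S ∧ lo ^ (v n) / 2 ≤ h t} h (C := D) hvn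
    hlo hlh (hL n) hD0 (by linarith [hL n]) ?_).trans ?_)
  · intro X hX
    have hs : {t | t ∈ {t | t ∈ S ∧ lo ^ (v n) / 2 ≤ h t} ∧ h t ≤ X} ⊆ {t | t ∈ S ∧ h t ≤ X} := by
      rintro t ⟨⟨h1, -⟩, h3⟩
      exact ⟨h1, h3⟩
    refine ⟨(hS X hX).1.subset hs, ?_⟩
    have hX0 : 0 < X := by linarith
    rcases lt_or_ge X (lo ^ (v n) / 2) with hlt | hge
    · have he : {t | t ∈ {t | t ∈ S ∧ lo ^ (v n) / 2 ≤ h t} ∧ h t ≤ X} = ∅ := by
        rw [Set.eq_empty_iff_forall_notMem]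
        rintro t ⟨⟨-, h2⟩, h3⟩
        linarith
      rw [he, Set.ncard_empty, Nat.cast_zero]
      positivity
    · have hlX : Real.log (lo ^ (v n) / 2) ≤ Real.log X := Real.log_le_log (by positivity) hge
      have hpos : 0 < 1 + Real.log (lo ^ (v n) / 2) := lt_of_lt_of_le e4 e3
      have e5 : (1 + Real.log X) ^ (-δ) ≤ (1 + Real.log (lo ^ (v n) / 2)) ^ (-δ) :=
        Real.rpow_le_rpow_of_nonpos hpos (by linarith) (by linarith)
      have e6 : 0 ≤ (1 + Real.log X) ^ (-δ) := Real.rpow_nonneg (by linarith) _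
      calc ({t | t ∈ {t | t ∈ S ∧ lo ^ (v n) / 2 ≤ h t} ∧ h t ≤ X}.ncard : ℝ)
          ≤ ({t | t ∈ S ∧ h t ≤ X}.ncard : ℝ) := by exact_mod_cast Set.ncard_le_ncard hs (hS X hX).1
        _ ≤ C * X * (1 + Real.log X) ^ (-δ) := (hS X hX).2
        _ ≤ |C| * X * (1 + Real.log X) ^ (-δ) :=
            mul_le_mul_of_nonneg_right (mul_le_mul_of_nonneg_right (le_abs_self C) hX0.le) e6
        _ ≤ |C| * X * (1 + Real.log (lo ^ (v n) / 2)) ^ (-δ) := mul_le_mul_of_nonneg_left e5 (by positivity)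
        _ = D * X := by rw [hD]; ring
  · apply ENNReal.ofReal_le_ofReal
    refine le_trans ?_ (le_abs_self _)
    have hlog0 : 0 ≤ Real.log (hi / lo) := Real.log_nonneg (by rw [le_div_iff₀ hlo0]; linarith)
    have e5 : D ≤ |C| * ((v n) ^ (-δ) * (Real.log lo) ^ (-δ)) := by
      rw [hD, ← Real.mul_rpow hvn0.le hll.le]
      apply mul_le_mul_of_nonneg_left _ (abs_nonneg C)
      exact Real.rpow_le_rpow_of_nonpos e4 e3 (by linarith)
    have e6 : 0 ≤ 16 * hi * (1 + Real.log (hi / lo)) := by positivity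
    calc 16 * hi * (1 + Real.log (hi / lo)) * (D * L n)
        ≤ 16 * hi * (1 + Real.log (hi / lo)) * ((|C| * ((v n) ^ (-δ) * (Real.log lo) ^ (-δ))) * L n) :=
          mul_le_mul_of_nonneg_left (mul_le_mul_of_nonneg_right e5 (hL n)) e6
      _ = _ := by ring

/-- from natural numbers `X ≥ X₀` to all real `X ≥ 1` -/
lemma slow_count {T : Type} (S : Set T) (h : T → ℝ) (hfin : ∀ X : ℝ, {t | t ∈ S ∧ h t ≤ X}.Finite) {δ C : ℝ}
    (hδ : 0 < δ) (X₀ : ℕ) (hS : ∀ X : ℕ, X₀ ≤ X → ({t | t ∈ S ∧ h t ≤ X}.ncard : ℝ) ≤ C * X * (Real.log X) ^ (-δ)) :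
    ∃ C' : ℝ, ∀ X : ℝ, 1 ≤ X → {t | t ∈ S ∧ h t ≤ X}.Finite ∧
      ({t | t ∈ S ∧ h t ≤ X}.ncard : ℝ) ≤ C' * X * (1 + Real.log X) ^ (-δ) := by
  set M : ℕ := X₀ + 3 with hM
  set K : ℝ := ({t | t ∈ S ∧ h t ≤ (M : ℝ)}.ncard : ℝ) with hK
  refine ⟨|C| * 2 * 2 ^ δ + K * (δ ^ δ * Real.exp 1), fun X hX => ⟨hfin X, ?_⟩⟩
  have hX0 : 0 < X := by linarith
  have hlog : 0 ≤ Real.log X := Real.log_nonneg hX
  have hy : 0 < 1 + Real.log X := by linarith
  have hK0 : 0 ≤ K := Nat.cast_nonneg _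
  have h4 : (1 + Real.log X) ^ δ ≤ δ ^ δ * Real.exp 1 * X := by
    have e1 : (1 + Real.log X) / δ ≤ Real.exp ((1 + Real.log X) / δ) := by
      have := Real.add_one_le_exp ((1 + Real.log X) / δ)
      linarith
    have e2 : ((1 + Real.log X) / δ) ^ δ ≤ (Real.exp ((1 + Real.log X) / δ)) ^ δ :=
      Real.rpow_le_rpow (by positivity) e1 hδ.le
    rw [Real.div_rpow hy.le hδ.le, ← Real.exp_mul, div_mul_cancel₀ _ hδ.ne', Real.exp_add, Real.exp_log hX0,
      div_le_iff₀ (by positivity)] at e2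
    linarith
  have h5 : 1 ≤ δ ^ δ * Real.exp 1 * X * (1 + Real.log X) ^ (-δ) := by
    rw [Real.rpow_neg hy.le, ← div_eq_mul_inv, le_div_iff₀ (by positivity), one_mul]
    exact h4
  have h6 : 0 ≤ X * (1 + Real.log X) ^ (-δ) := by positivity
  rcases le_or_gt X (M : ℝ) with hle | hgt
  · have hs1 : {t | t ∈ S ∧ h t ≤ X} ⊆ {t | t ∈ S ∧ h t ≤ (M : ℝ)} := fun t ht => ⟨ht.1, ht.2.trans hle⟩
    have e1 : ({t | t ∈ S ∧ h t ≤ X}.ncard : ℝ) ≤ K := by
      rw [hK]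
      exact_mod_cast Set.ncard_le_ncard hs1 (hfin _)
    have e2 : K ≤ K * (δ ^ δ * Real.exp 1 * X * (1 + Real.log X) ^ (-δ)) := le_mul_of_one_le_right hK0 h5
    have e3 : 0 ≤ |C| * 2 * 2 ^ δ * (X * (1 + Real.log X) ^ (-δ)) := by positivity
    nlinarith
  · have hM3 : (3 : ℝ) ≤ M := by
      rw [hM]
      push_cast
      have : (0 : ℝ) ≤ X₀ := Nat.cast_nonneg _
      linarith
    set Y : ℕ := ⌈X⌉₊ with hY
    have hYX : X ≤ Y := Nat.le_ceil X
    have hY2 : (Y : ℝ) ≤ 2 * X := by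
      have := Nat.ceil_lt_add_one hX0.le
      linarith
    have hY0 : X₀ ≤ Y := by
      have e1 : (M : ℝ) < Y := lt_of_lt_of_le hgt hYX
      have e2 : M < Y := by exact_mod_cast e1
      omega
    have hs1 : {t | t ∈ S ∧ h t ≤ X} ⊆ {t | t ∈ S ∧ h t ≤ (Y : ℝ)} := fun t ht => ⟨ht.1, ht.2.trans hYX⟩
    have e1 : ({t | t ∈ S ∧ h t ≤ X}.ncard : ℝ) ≤ ({t | t ∈ S ∧ h t ≤ (Y : ℝ)}.ncard : ℝ) := by
      exact_mod_cast Set.ncard_le_ncard hs1 (hfin _)
    have e2 := hS Y hY0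
    have hlX1 : 1 ≤ Real.log X := by
      rw [Real.le_log_iff_exp_le hX0]
      have := Real.exp_one_lt_d9
      linarith
    have hlY : (1 + Real.log X) / 2 ≤ Real.log Y := by
      have := Real.log_le_log hX0 hYX
      linarith
    have hlY0 : 0 < Real.log Y := by linarith
    have e3 : (Real.log Y) ^ (-δ) ≤ 2 ^ δ * (1 + Real.log X) ^ (-δ) := by
      calc (Real.log Y) ^ (-δ) ≤ ((1 + Real.log X) / 2) ^ (-δ) :=
            Real.rpow_le_rpow_of_nonpos (by positivity) hlY (by linarith)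
        _ = 2 ^ δ * (1 + Real.log X) ^ (-δ) := by
            rw [Real.div_rpow hy.le (by norm_num), Real.rpow_neg (by norm_num : (0:ℝ) ≤ 2)]
            field_simp
    have e4 : C * Y * (Real.log Y) ^ (-δ) ≤ |C| * 2 * 2 ^ δ * (X * (1 + Real.log X) ^ (-δ)) := by
      calc C * Y * (Real.log Y) ^ (-δ) ≤ |C| * Y * (Real.log Y) ^ (-δ) := by
            apply mul_le_mul_of_nonneg_right _ (by positivity)
            exact mul_le_mul_of_nonneg_right (le_abs_self C) (Nat.cast_nonneg _)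
        _ ≤ |C| * (2 * X) * (2 ^ δ * (1 + Real.log X) ^ (-δ)) := by
            apply mul_le_mul (mul_le_mul_of_nonneg_left hY2 (abs_nonneg C)) e3 (by positivity) (by positivity)
        _ = |C| * 2 * 2 ^ δ * (X * (1 + Real.log X) ^ (-δ)) := by ring
    have e5 : 0 ≤ K * (δ ^ δ * Real.exp 1) * (X * (1 + Real.log X) ^ (-δ)) := by positivity
    nlinarith

/-- integers with a saving of a power of the logarithm -/
theorem slow_int (P : ℤ → Prop) {δ C : ℝ} (hδ : 0 < δ) (X₀ : ℕ)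
    (hP : ∀ X : ℕ, X₀ ≤ X → ({d : ℤ | d.natAbs ≤ X ∧ P d}.ncard : ℝ) ≤ C * X * (Real.log X) ^ (-δ))
    {v L : ℕ → ℝ} (hv : ∀ n, 1 ≤ v n) (hL : ∀ n, 0 ≤ L n) (hLf : ∀ x : ℝ, 1 < x → ∀ᶠ n in atTop, 2 * L n ≤ x ^ (v n))
    (hvinf : Tendsto v atTop atTop) (hsum : Summable fun n => L n * (v n) ^ (-δ)) :
    ∃ N : Set ℝ, volume N = 0 ∧ ∀ x : ℝ, 1 < x → x ∉ N →
      ∃ n₀ : ℕ, ∀ n : ℕ, n₀ ≤ n → ∀ d : ℤ, |(|d| : ℝ) - x ^ (v n)| ≤ L n → ¬ P d := by
  have hfin : ∀ X : ℝ, {k : ℤ | k ∈ {d : ℤ | P d} ∧ |(k : ℝ)| ≤ X}.Finite := by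
    intro X
    refine (Set.finite_Icc (-⌊X⌋) ⌊X⌋).subset ?_
    rintro k ⟨-, h1⟩
    rw [abs_le] at h1
    rw [Set.mem_Icc]
    constructor
    · rw [neg_le]
      apply Int.le_floor.2
      push_cast
      linarith [h1.1]
    · exact Int.le_floor.2 h1.2
  obtain ⟨C', hC'⟩ := slow_count {d : ℤ | P d} (fun d : ℤ => |(d : ℝ)|) hfin (C := C) hδ X₀ (by
    intro X hX
    have he : {d : ℤ | d ∈ {d : ℤ | P d} ∧ |(d : ℝ)| ≤ (X : ℝ)} = {d : ℤ | d.natAbs ≤ X ∧ P d} := by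
      ext d
      constructor
      · rintro ⟨h1, h2⟩
        refine ⟨?_, h1⟩
        have h3 : |d| ≤ (X : ℤ) := by exact_mod_cast h2
        rw [Int.abs_eq_natAbs] at h3
        exact_mod_cast h3
      · rintro ⟨h1, h2⟩
        refine ⟨h2, ?_⟩
        have h3 : |d| ≤ (X : ℤ) := by
          rw [Int.abs_eq_natAbs]
          exact_mod_cast h1
        exact_mod_cast h3
    rw [he]
    exact hP X hX)
  obtain ⟨N, hN, hw⟩ := slow_pow {d : ℤ | P d} (fun d : ℤ => |(d : ℝ)|) hδ hC' hv hL hLf hvinf hsum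
  refine ⟨N, hN, fun x hx hxN => ?_⟩
  obtain ⟨n₀, hn⟩ := hw x hx hxN
  refine ⟨n₀, fun n hn1 d hd hPd => ?_⟩
  exact absurd (hn n hn1 d hPd) (not_lt.2 hd)

end Pool.Agent.R482.ST
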