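import Pool.Agent.R482.ST.Slow

/-!
# Countable families of sets of integers which are thinner than every power of the logarithm, near powers

If the sets `P i`, `i` in a countable set, have `o(X / log ^ U X)` members up to `X` for all `U`, and `v n ≥ 1` has a finite
exponent of convergence, then for almost every `x > 1`, all `i` and all `A` the integers within `(v n) ^ A` of `± x ^ (v n)`
are not in `P i`, for all large `n`.
-/

set_option autoImplicit false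

open Filter Topology Finset MeasureTheory

namespace Pool.Agent.R482.ST

theorem slow_family {I : Type} [Countable I] (P : I → ℤ → Prop)
    (hP : ∀ i, ∀ U : ℕ, ∃ X₀ : ℕ, ∀ X : ℕ, X₀ ≤ X →
      ({d : ℤ | d.natAbs ≤ X ∧ P i d}.ncard : ℝ) ≤ X / Real.log X ^ U)
    {v : ℕ → ℝ} (hv : ∀ n, 1 ≤ v n) {t : ℝ} (ht : Summable fun n => (v n) ^ (-t)) :
    ∃ N : Set ℝ, volume N = 0 ∧ ∀ x : ℝ, 1 < x → x ∉ N → ∀ i, ∀ A : ℕ, ∃ n₀ : ℕ, ∀ n : ℕ, n₀ ≤ n →
      ∀ d : ℤ, |(|d| : ℝ) - x ^ (v n)| ≤ (v n) ^ A → ¬ P i d := by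
  have hv0 : ∀ n, 0 < v n := fun n => lt_of_lt_of_le one_pos (hv n)
  have hvinf : Tendsto v atTop atTop := by
    have ht' : Summable fun n => (v n) ^ (-(|t| + 1)) := by
      refine Summable.of_nonneg_of_le (fun n => Real.rpow_nonneg (hv0 n).le _) (fun n => ?_) ht
      exact Real.rpow_le_rpow_of_exponent_le (hv n) (by linarith [le_abs_self t])
    have h0 := ht'.tendsto_atTop_zero
    have hp : 0 < |t| + 1 := by positivity
    rw [tendsto_atTop_atTop]
    intro b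
    have hb : 0 < (max b 1) ^ (-(|t| + 1)) := Real.rpow_pos_of_pos (lt_of_lt_of_le one_pos (le_max_right _ _)) _
    obtain ⟨n0, hn0⟩ := eventually_atTop.1 (h0.eventually (gt_mem_nhds hb))
    refine ⟨n0, fun n hn => ?_⟩
    have h1 := hn0 n hn
    by_contra hcon
    push Not at hcon
    have h2 : v n ≤ max b 1 := hcon.le.trans (le_max_left _ _)
    exact absurd h1 (not_lt.2 (Real.rpow_le_rpow_of_nonpos (hv0 n) h2 (by linarith)))
  have hone : ∀ p : I × ℕ, ∃ N : Set ℝ, volume N = 0 ∧ ∀ x : ℝ, 1 < x → x ∉ N → ∃ n₀ : ℕ, ∀ n : ℕ, n₀ ≤ n →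
      ∀ d : ℤ, |(|d| : ℝ) - x ^ (v n)| ≤ (v n) ^ p.2 → ¬ P p.1 d := by
    rintro ⟨i, A⟩
    obtain ⟨U, hU⟩ := exists_nat_ge (|t| + A + 1)
    obtain ⟨X₀, hX⟩ := hP i U
    have hU0 : (0 : ℝ) < U := lt_of_lt_of_le (by positivity) hU
    refine slow_int (P i) (δ := U) (C := 1) hU0 X₀ (fun X h => ?_) hv (L := fun n => (v n) ^ A)
      (fun n => pow_nonneg (hv0 n).le _) ?_ hvinf ?_
    · refine (hX X h).trans (le_of_eq ?_)
      rw [Real.rpow_neg (Real.log_natCast_nonneg X), Real.rpow_natCast]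
      ring
    · intro x hx
      have h1 := (isLittleO_rpow_exp_pos_mul_atTop (A : ℝ) (Real.log_pos hx)).def (show (0 : ℝ) < 1 / 2 by norm_num)
      filter_upwards [hvinf.eventually h1] with n hn
      rw [Real.norm_of_nonneg (Real.rpow_nonneg (hv0 n).le _), Real.norm_of_nonneg (Real.exp_pos _).le,
        Real.rpow_natCast] at hn
      rw [Real.rpow_def_of_pos (by linarith)]
      linarith
    · refine Summable.of_nonneg_of_le (fun n => mul_nonneg (pow_nonneg (hv0 n).le _) (Real.rpow_nonneg (hv0 n).le _))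
        (fun n => ?_) ht
      rw [← Real.rpow_natCast, ← Real.rpow_add (hv0 n)]
      apply Real.rpow_le_rpow_of_exponent_le (hv n)
      linarith [le_abs_self t]
  choose N hN1 hN2 using hone
  refine ⟨⋃ p, N p, measure_iUnion_null hN1, fun x hx hxN i A => ?_⟩
  exact hN2 (i, A) x hx fun h => hxN (Set.mem_iUnion.2 ⟨(i, A), h⟩)

lemma sum_nat : Summable fun n : ℕ => (((n : ℝ) + 1)) ^ (-(2 : ℝ)) := by
  have h := (Real.summable_nat_rpow (p := -2)).2 (by norm_num)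
  have h1 := (summable_nat_add_iff 1).2 h
  refine h1.congr fun n => ?_
  push_cast
  rfl

/-- the powers `x ^ n` -/
theorem slow_family_pow {I : Type} [Countable I] (P : I → ℤ → Prop)
    (hP : ∀ i, ∀ U : ℕ, ∃ X₀ : ℕ, ∀ X : ℕ, X₀ ≤ X →
      ({d : ℤ | d.natAbs ≤ X ∧ P i d}.ncard : ℝ) ≤ X / Real.log X ^ U) :
    ∃ N : Set ℝ, volume N = 0 ∧ ∀ x : ℝ, 1 < x → x ∉ N → ∀ i, ∀ A : ℕ, ∃ n₀ : ℕ, ∀ n : ℕ, n₀ ≤ n →
      ∀ d : ℤ, |(|d| : ℝ) - x ^ n| ≤ (n : ℝ) ^ A → ¬ P i d := by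
  obtain ⟨N, h1, h2⟩ := slow_family P hP (v := fun n => (n : ℝ) + 1) (fun n => by
    have : (0 : ℝ) ≤ n := Nat.cast_nonneg n
    linarith) sum_nat
  refine ⟨N, h1, fun x hx hxN i A => ?_⟩
  obtain ⟨n₀, hn⟩ := h2 x hx hxN i A
  refine ⟨n₀ + 1, fun n hn1 d hd => ?_⟩
  obtain ⟨m, rfl⟩ : ∃ m, n = m + 1 := ⟨n - 1, by omega⟩
  refine hn m (by omega) d ?_
  rw [show (m : ℝ) + 1 = ((m + 1 : ℕ) : ℝ) by push_cast; rfl, Real.rpow_natCast]
  exact hd

end Pool.Agent.R482.ST
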