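import Pool.Agent.R482.ST.SlowC

/-!
# Countable families of sets of integers which are thinner than every power of the logarithm, near powers: a variant
-/

set_option autoImplicit false

open Filter Topology Finset MeasureTheory

namespace Pool.Agent.R482.ST

/-- the set `Q` has at most `X / log ^ U X` members in `[-X, X]`, for large `X`, for every `U` -/
def Thin (Q : ℤ → Prop) : Prop :=
  ∀ U : ℕ, ∃ X₀ : ℕ, ∀ X : ℕ, X₀ ≤ X → ({d : ℤ | d.natAbs ≤ X ∧ Q d}.ncard : ℝ) ≤ X / Real.log X ^ U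

theorem thin_of_card (Q : ℤ → Prop) [DecidablePred Q]
    (h : ∀ U : ℕ, ∃ X₀ : ℕ, ∀ X : ℕ, X₀ ≤ X → (#{k ∈ Icc (-(X : ℤ)) X | Q k} : ℝ) ≤ X / Real.log X ^ U) : Thin Q := by
  intro U
  obtain ⟨X₀, hX⟩ := h U
  refine ⟨X₀, fun X h1 => le_trans ?_ (hX X h1)⟩
  rw [← Set.ncard_coe_finset]
  have hsub : {d : ℤ | d.natAbs ≤ X ∧ Q d} ⊆ (({k ∈ Icc (-(X : ℤ)) X | Q k} : Finset ℤ) : Set ℤ) := by
    rintro d ⟨h2, h3⟩
    rw [Finset.mem_coe, Finset.mem_filter, Finset.mem_Icc]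
    exact ⟨by omega, h3⟩
  exact_mod_cast Set.ncard_le_ncard hsub (Finset.finite_toSet _)

theorem thin_family {J : Type} [Countable J] (Q : J → ℤ → Prop) {v : ℕ → ℝ} (hv : ∀ n, 1 ≤ v n) {t : ℝ}
    (ht : Summable fun n => (v n) ^ (-t)) :
    ∃ N : Set ℝ, volume N = 0 ∧ ∀ x : ℝ, 1 < x → x ∉ N → ∀ j, Thin (Q j) → ∀ A : ℕ, ∃ n₀ : ℕ, ∀ n : ℕ, n₀ ≤ n →
      ∀ d : ℤ, |(|d| : ℝ) - x ^ (v n)| ≤ (v n) ^ A → ¬ Q j d := by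
  obtain ⟨N, h1, h2⟩ := slow_family (I := {j : J // Thin (Q j)}) (fun p => Q p.1) (fun p => p.2) hv ht
  exact ⟨N, h1, fun x hx hxN j hj => h2 x hx hxN ⟨j, hj⟩⟩

theorem thin_family_pow {J : Type} [Countable J] (Q : J → ℤ → Prop) :
    ∃ N : Set ℝ, volume N = 0 ∧ ∀ x : ℝ, 1 < x → x ∉ N → ∀ j, Thin (Q j) → ∀ A : ℕ, ∃ n₀ : ℕ, ∀ n : ℕ, n₀ ≤ n →
      ∀ d : ℤ, |(|d| : ℝ) - x ^ n| ≤ (n : ℝ) ^ A → ¬ Q j d := by
  obtain ⟨N, h1, h2⟩ := slow_family_pow (I := {j : J // Thin (Q j)}) (fun p => Q p.1) (fun p => p.2)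
  exact ⟨N, h1, fun x hx hxN j hj => h2 x hx hxN ⟨j, hj⟩⟩

end Pool.Agent.R482.ST
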