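import Pool.Agent.R482.ST.Frac

/-!
# Families of exceptional integral vectors and radial starshaped maps

For each `X ≥ 1` let the integral vectors of norm at most `X` with the property `P z X` be at most `C X ^ s` in number.
Then for all vectors `u` outside a set of Hausdorff dimension at most `(s + τ) / (1 - θ)` and all large `k` no integral
vector `z` near `(r / ‖u‖) u`, `r = f k ‖u‖`, has the property `P z r`.
-/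

set_option autoImplicit false

open Filter Topology Finset MeasureTheory

namespace Pool.Agent.R482.ST

lemma finite_int {ι : Type} [Fintype ι] (X : ℝ) : {z : ι → ℤ | ∀ i, |(z i : ℝ)| ≤ X}.Finite := by
  classical
  refine ((Finset.finite_toSet (Fintype.piFinset fun _ : ι => Finset.Icc (-(⌊X⌋)) ⌊X⌋))).subset fun z hz => ?_
  rw [Finset.mem_coe, Fintype.mem_piFinset]
  intro i
  have h := abs_le.mp (hz i)
  have e1 : z i ≤ ⌊X⌋ := Int.le_floor.2 h.2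
  have e2 : -z i ≤ ⌊X⌋ := Int.le_floor.2 (by push_cast; linarith [h.1])
  exact Finset.mem_Icc.2 ⟨by omega, e1⟩

theorem vec_windows {ι : Type} [Fintype ι] (P : (ι → ℤ) → ℝ → Prop) (hP : ∀ z X Y, X ≤ Y → P z X → P z Y)
    {s : ℝ} (hs : 0 < s)
    (hcount : ∃ C : ℝ, ∀ X : ℝ, 1 ≤ X → ({z : ι → ℤ | (∀ i, |(z i : ℝ)| ≤ X) ∧ P z X}.ncard : ℝ) ≤ C * X ^ s)
    (f : ℕ → ℝ → ℝ) (a τ θ : ℝ) (hf : Starshaped a f) (hτ : 0 ≤ τ) (hv : Conv a f τ) (hθ : θ < 1) :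
    ∃ E : Set (ι → ℝ), dimH E ≤ ENNReal.ofReal ((s + τ) / (1 - θ)) ∧
      ∀ u : ι → ℝ, a < ‖u‖ → u ∉ E → ∀ c : ℝ, ∃ k₀ : ℕ, ∀ k : ℕ, k₀ ≤ k → ∀ z : ι → ℤ,
        (∀ i, |(z i : ℝ) - f k ‖u‖ / ‖u‖ * u i| ≤ c * (f k ‖u‖) ^ θ) → ¬ P z (f k ‖u‖) := by
  rcases isEmpty_or_nonempty ι with hι | hι
  · refine ⟨∅, by simp, fun u hu => ?_⟩
    exfalso
    have : u = 0 := Subsingleton.elim _ _
    rw [this, norm_zero] at hu
    exact absurd hu (not_lt.2 hf.1)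
  obtain ⟨C, hC⟩ := hcount
  have hnorm : ∀ (z : ι → ℤ) (X : ℝ), ‖(fun i => (z i : ℝ) : ι → ℝ)‖ ≤ X ↔ ∀ i, |(z i : ℝ)| ≤ X := by
    intro z X
    rw [pi_norm_le_iff_of_nonempty]
    rfl
  obtain ⟨B, h⟩ := rel_windows (W := ι → ℝ) (Set.univ : Set (ι → ℤ)) (fun z => (fun i => (z i : ℝ)))
    (fun z X => ∀ i, |(z i : ℝ)| ≤ X) (fun z X _ => P z X) (fun z X h => (hnorm z X).1 h)
    (fun z M _ M' _ h1 _ h2 => hP z M M' h1 h2) (fun X => by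
      simp only [hnorm]
      exact finite_int X) (A := 1) (s := s) zero_le_one hs ⟨0, C, fun X hX => by
        simp only [Set.mem_univ, true_and, Real.rpow_one]
        exact ⟨(finite_int X).subset fun z hz => hz.1, hC X hX⟩⟩
  obtain ⟨E, hE, h1⟩ := h f a τ θ hf hτ hv hθ
  refine ⟨E, hE, fun u hu huE c => ?_⟩
  obtain ⟨k0, h2⟩ := h1 u hu huE c
  refine ⟨k0, fun k hk z hz hPz => h2 k hk z (Set.mem_univ _) ?_ ?_⟩
  · rw [pi_norm_le_iff_of_nonempty]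
    exact hz
  · rw [Real.rpow_one]
    exact hPz

/-- the same with counts for natural numbers -/
theorem vec_windows_nat {ι : Type} [Fintype ι] (P : (ι → ℤ) → ℝ → Prop) (hP : ∀ z X Y, X ≤ Y → P z X → P z Y)
    {s : ℝ} (hs : 0 < s)
    (hcount : ∃ C : ℝ, ∀ H : ℕ, 1 ≤ H → ({z : ι → ℤ | (∀ i, |z i| ≤ (H : ℤ)) ∧ P z H}.ncard : ℝ) ≤ C * (H : ℝ) ^ s)
    (f : ℕ → ℝ → ℝ) (a τ θ : ℝ) (hf : Starshaped a f) (hτ : 0 ≤ τ) (hv : Conv a f τ) (hθ : θ < 1) :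
    ∃ E : Set (ι → ℝ), dimH E ≤ ENNReal.ofReal ((s + τ) / (1 - θ)) ∧
      ∀ u : ι → ℝ, a < ‖u‖ → u ∉ E → ∀ c : ℝ, ∃ k₀ : ℕ, ∀ k : ℕ, k₀ ≤ k → ∀ z : ι → ℤ,
        (∀ i, |(z i : ℝ) - f k ‖u‖ / ‖u‖ * u i| ≤ c * (f k ‖u‖) ^ θ) → ¬ P z (f k ‖u‖) := by
  obtain ⟨C, hC⟩ := hcount
  refine vec_windows P hP hs ⟨|C| * 2 ^ s, fun X hX => ?_⟩ f a τ θ hf hτ hv hθ
  have hX0 : 0 < X := by linarith
  have h1 : 1 ≤ ⌈X⌉₊ := Nat.one_le_ceil_iff.2 hX0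
  have h2 : X ≤ (⌈X⌉₊ : ℝ) := Nat.le_ceil X
  have h3 : (⌈X⌉₊ : ℝ) ≤ 2 * X := by
    have := Nat.ceil_lt_add_one hX0.le
    linarith
  have hsub : {z : ι → ℤ | (∀ i, |(z i : ℝ)| ≤ X) ∧ P z X} ⊆
      {z : ι → ℤ | (∀ i, |z i| ≤ ((⌈X⌉₊ : ℕ) : ℤ)) ∧ P z (⌈X⌉₊ : ℕ)} := by
    rintro z ⟨g1, g2⟩
    refine ⟨fun i => ?_, hP z X _ h2 g2⟩
    have g3 := (g1 i).trans h2
    exact_mod_cast g3
  have hfin : {z : ι → ℤ | (∀ i, |z i| ≤ ((⌈X⌉₊ : ℕ) : ℤ)) ∧ P z (⌈X⌉₊ : ℕ)}.Finite := by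
    refine (finite_int (⌈X⌉₊ : ℝ)).subset fun z hz i => ?_
    have := hz.1 i
    exact_mod_cast this
  calc ({z : ι → ℤ | (∀ i, |(z i : ℝ)| ≤ X) ∧ P z X}.ncard : ℝ)
      ≤ ({z : ι → ℤ | (∀ i, |z i| ≤ ((⌈X⌉₊ : ℕ) : ℤ)) ∧ P z (⌈X⌉₊ : ℕ)}.ncard : ℝ) :=
        Nat.cast_le.2 (Set.ncard_le_ncard hsub hfin)
    _ ≤ C * (⌈X⌉₊ : ℝ) ^ s := hC _ h1
    _ ≤ |C| * (2 * X) ^ s :=
        mul_le_mul (le_abs_self C) (Real.rpow_le_rpow (by positivity) h3 hs.le) (by positivity) (abs_nonneg C)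
    _ = |C| * 2 ^ s * X ^ s := by rw [Real.mul_rpow (by norm_num) hX0.le, mul_assoc]

section prop

variable {W : Type} [NormedAddCommGroup W] [NormedSpace ℝ W]

/-- exceptional sets of objects with vectors -/
theorem prop_windows {T : Type} (I : Set T) (V : T → W) (D : T → ℝ → Prop) (P : T → ℝ → Prop)
    (hD : ∀ t X, ‖V t‖ ≤ X → D t X) (hP : ∀ t X Y, X ≤ Y → P t X → P t Y)
    (hF : ∀ X : ℝ, {t | ‖V t‖ ≤ X}.Finite) {s : ℝ} (hs : 0 ≤ s)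
    (hcount : ∀ ε : ℝ, 0 < ε → ∃ C : ℝ, ∀ X : ℝ, 1 ≤ X → {t | t ∈ I ∧ D t X ∧ P t X}.Finite ∧
      ({t | t ∈ I ∧ D t X ∧ P t X}.ncard : ℝ) ≤ C * X ^ (s + ε))
    (f : ℕ → ℝ → ℝ) (a τ θ : ℝ) (hf : Starshaped a f) (hτ : 0 ≤ τ) (hv : Conv a f τ) (hθ : θ < 1) :
    ∃ E : Set W, dimH E ≤ ENNReal.ofReal ((s + τ) / (1 - θ)) ∧ ∀ u : W, a < ‖u‖ → u ∉ E → ∀ c : ℝ,
      ∃ k₀ : ℕ, ∀ k : ℕ, k₀ ≤ k → ∀ t ∈ I, ‖V t - rad (f k) u‖ ≤ c * (f k ‖u‖) ^ θ → ¬ P t (f k ‖u‖) := by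
  have hθ' : 0 < 1 - θ := by linarith
  obtain ⟨E, hE, h⟩ := radial_windows {t | t ∈ I ∧ P t ((2 * ‖V t‖) ^ (1 : ℝ))} V hf.1 hf.2 hv hs hτ hθ (by
      intro ε hε
      obtain ⟨C, hC⟩ := hcount ε hε
      have hC2 : ∀ X : ℝ, 1 ≤ X → {t | t ∈ I ∧ D t X ∧ P t (X ^ (1 : ℝ))}.Finite ∧
          ({t | t ∈ I ∧ D t X ∧ P t (X ^ (1 : ℝ))}.ncard : ℝ) ≤ C * X ^ (s + ε) := by
        intro X hX
        rw [Real.rpow_one]
        exact hC X hX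
      obtain ⟨C', hC'⟩ := dyadic (B := 0) I V D (fun t M _ => P t M) hD
        (fun t M _ M' _ h1 _ h2 => hP t M M' h1 h2) hF (A := 1) zero_le_one (s := s + ε) (by linarith) hC2
      exact ⟨C', hC'⟩)
  refine ⟨E, hE, fun u hu huE c => ?_⟩
  obtain ⟨n0, hn⟩ := h u hu huE c
  have hu0 : 0 < ‖u‖ := lt_of_le_of_lt hf.1 hu
  have hfp : ∀ n, 0 < f n ‖u‖ := fun n => (hf.2 n _ _ hu le_rfl).1
  set K : ℝ := max 1 (2 * |c|) with hK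
  have hK1 : 1 ≤ K := le_max_left _ _
  have hK0 : 0 < K := by linarith
  have hlarge := large hfp (show 0 < τ + 1 by linarith) (hv ‖u‖ hu (τ + 1) (by linarith)) (K ^ (1 / (1 - θ)))
  obtain ⟨n1, hn1⟩ := eventually_atTop.1 hlarge
  refine ⟨max n0 n1, fun k hk t ht htw hPt => ?_⟩
  set r : ℝ := f k ‖u‖ with hr
  have hr0 : 0 < r := hfp k
  have g0 := hn1 k ((le_max_right _ _).trans hk)
  have g1 : K ≤ r ^ (1 - θ) := by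
    calc K = (K ^ (1 / (1 - θ))) ^ (1 - θ) := by
          rw [← Real.rpow_mul hK0.le, one_div_mul_cancel hθ'.ne', Real.rpow_one]
      _ ≤ r ^ (1 - θ) := Real.rpow_le_rpow (by positivity) g0 hθ'.le
  have g2 : c * r ^ θ ≤ r / 2 := by
    have e1 : r ^ θ * r ^ (1 - θ) = r := by
      rw [← Real.rpow_add hr0, show θ + (1 - θ) = 1 by ring, Real.rpow_one]
    have e2 : (0 : ℝ) < r ^ θ := by positivity
    have e3 : 2 * |c| ≤ r ^ (1 - θ) := (le_max_right _ _).trans g1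
    have e4 := le_abs_self c
    nlinarith
  have g3 := near_norm hu0 hr0.le (htw.trans g2)
  rw [← hr] at g3
  have g4 := abs_le.mp g3
  have g5 : r ≤ 2 * ‖V t‖ := by linarith [g4.1]
  refine absurd (hn k ((le_max_left _ _).trans hk) t ⟨ht, ?_⟩) (not_lt.2 htw)
  rw [Real.rpow_one]
  exact hP t _ _ g5 hPt

end prop

/-- exceptional sets of integral vectors -/
theorem vec_prop {ι : Type} [Fintype ι] (P : (ι → ℤ) → ℝ → Prop) (hP : ∀ z X Y, X ≤ Y → P z X → P z Y)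
    {s : ℝ} (hs : 0 ≤ s)
    (hcount : ∀ ε : ℝ, 0 < ε → ∃ C : ℝ, ∀ H : ℕ, 1 ≤ H →
      ({z : ι → ℤ | (∀ i, |z i| ≤ (H : ℤ)) ∧ P z H}.ncard : ℝ) ≤ C * (H : ℝ) ^ (s + ε))
    (f : ℕ → ℝ → ℝ) (a τ θ : ℝ) (hf : Starshaped a f) (hτ : 0 ≤ τ) (hv : Conv a f τ) (hθ : θ < 1) :
    ∃ E : Set (ι → ℝ), dimH E ≤ ENNReal.ofReal ((s + τ) / (1 - θ)) ∧
      ∀ u : ι → ℝ, a < ‖u‖ → u ∉ E → ∀ c : ℝ, ∃ k₀ : ℕ, ∀ k : ℕ, k₀ ≤ k → ∀ z : ι → ℤ,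
        (∀ i, |(z i : ℝ) - f k ‖u‖ / ‖u‖ * u i| ≤ c * (f k ‖u‖) ^ θ) → ¬ P z (f k ‖u‖) := by
  rcases isEmpty_or_nonempty ι with hι | hι
  · refine ⟨∅, by simp, fun u hu => ?_⟩
    exfalso
    have : u = 0 := Subsingleton.elim _ _
    rw [this, norm_zero] at hu
    exact absurd hu (not_lt.2 hf.1)
  have hnorm : ∀ (z : ι → ℤ) (X : ℝ), ‖(fun i => (z i : ℝ) : ι → ℝ)‖ ≤ X ↔ ∀ i, |(z i : ℝ)| ≤ X := by
    intro z X
    rw [pi_norm_le_iff_of_nonempty]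
    rfl
  obtain ⟨E, hE, h1⟩ := prop_windows (W := ι → ℝ) (Set.univ : Set (ι → ℤ)) (fun z => (fun i => (z i : ℝ)))
    (fun z X => ∀ i, |(z i : ℝ)| ≤ X) P (fun z X h => (hnorm z X).1 h) hP (fun X => by
      simp only [hnorm]
      exact finite_int X) hs (fun ε hε => by
        obtain ⟨C, hC⟩ := hcount ε hε
        refine ⟨|C| * 2 ^ (s + ε), fun X hX => ?_⟩
        simp only [Set.mem_univ, true_and]
        refine ⟨(finite_int X).subset fun z hz => hz.1, ?_⟩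
        have hX0 : 0 < X := by linarith
        have h1 : 1 ≤ ⌈X⌉₊ := Nat.one_le_ceil_iff.2 hX0
        have h2 : X ≤ (⌈X⌉₊ : ℝ) := Nat.le_ceil X
        have h3 : (⌈X⌉₊ : ℝ) ≤ 2 * X := by
          have := Nat.ceil_lt_add_one hX0.le
          linarith
        have hsub : {z : ι → ℤ | (∀ i, |(z i : ℝ)| ≤ X) ∧ P z X} ⊆
            {z : ι → ℤ | (∀ i, |z i| ≤ ((⌈X⌉₊ : ℕ) : ℤ)) ∧ P z (⌈X⌉₊ : ℕ)} := by
          rintro z ⟨g1, g2⟩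
          refine ⟨fun i => ?_, hP z X _ h2 g2⟩
          have g3 := (g1 i).trans h2
          exact_mod_cast g3
        have hfin : {z : ι → ℤ | (∀ i, |z i| ≤ ((⌈X⌉₊ : ℕ) : ℤ)) ∧ P z (⌈X⌉₊ : ℕ)}.Finite := by
          refine (finite_int (⌈X⌉₊ : ℝ)).subset fun z hz i => ?_
          have := hz.1 i
          exact_mod_cast this
        calc ({z : ι → ℤ | (∀ i, |(z i : ℝ)| ≤ X) ∧ P z X}.ncard : ℝ)
            ≤ ({z : ι → ℤ | (∀ i, |z i| ≤ ((⌈X⌉₊ : ℕ) : ℤ)) ∧ P z (⌈X⌉₊ : ℕ)}.ncard : ℝ) :=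
              Nat.cast_le.2 (Set.ncard_le_ncard hsub hfin)
          _ ≤ C * (⌈X⌉₊ : ℝ) ^ (s + ε) := hC _ h1
          _ ≤ |C| * (2 * X) ^ (s + ε) :=
              mul_le_mul (le_abs_self C) (Real.rpow_le_rpow (by positivity) h3 (by linarith)) (by positivity)
                (abs_nonneg C)
          _ = |C| * 2 ^ (s + ε) * X ^ (s + ε) := by rw [Real.mul_rpow (by norm_num) hX0.le, mul_assoc])
      f a τ θ hf hτ hv hθ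
  refine ⟨E, hE, fun u hu huE c => ?_⟩
  obtain ⟨k0, h2⟩ := h1 u hu huE c
  refine ⟨k0, fun k hk z hz => h2 k hk z (Set.mem_univ _) ?_⟩
  rw [pi_norm_le_iff_of_nonempty]
  exact hz

lemma count_bound {e K Δ q m H : ℕ} {κ : ℝ} (hH : 1 ≤ H) (hΔ : (Δ : ℝ) ≤ (H : ℝ) ^ κ) (hm : 1 ≤ m)
    (h : e * (2 * H + 1) ≤ K * Δ ^ q * (2 * H + 1) ^ m) :
    (e : ℝ) ≤ K * 3 ^ m * (H : ℝ) ^ ((m : ℝ) - 1 + κ * q) := by
  obtain ⟨m', rfl⟩ : ∃ m', m = m' + 1 := ⟨m - 1, by omega⟩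
  have h1 : e * (2 * H + 1) ≤ K * Δ ^ q * (2 * H + 1) ^ m' * (2 * H + 1) := by
    rw [mul_assoc (K * Δ ^ q), ← pow_succ]
    exact h
  have h2 : e ≤ K * Δ ^ q * (2 * H + 1) ^ m' := Nat.le_of_mul_le_mul_right h1 (by omega)
  have hH1 : (1 : ℝ) ≤ H := by exact_mod_cast hH
  have hH0 : (0 : ℝ) < H := by linarith
  calc (e : ℝ) ≤ ((K * Δ ^ q * (2 * H + 1) ^ m' : ℕ) : ℝ) := Nat.cast_le.2 h2
    _ = K * (Δ : ℝ) ^ q * (2 * (H : ℝ) + 1) ^ m' := by push_cast; ring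
    _ ≤ K * ((H : ℝ) ^ κ) ^ q * (3 * H) ^ m' := by
        apply mul_le_mul
        · exact mul_le_mul_of_nonneg_left (pow_le_pow_left₀ (Nat.cast_nonneg _) hΔ q) (Nat.cast_nonneg _)
        · exact pow_le_pow_left₀ (by positivity) (by linarith) m'
        · positivity
        · positivity
    _ = K * 3 ^ m' * (H : ℝ) ^ (((m' + 1 : ℕ) : ℝ) - 1 + κ * q) := by
        rw [mul_pow, ← Real.rpow_natCast ((H : ℝ) ^ κ) q, ← Real.rpow_mul hH0.le,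
          show ((m' + 1 : ℕ) : ℝ) - 1 + κ * q = κ * q + m' by push_cast; ring, Real.rpow_add hH0, Real.rpow_natCast]
        ring
    _ ≤ K * 3 ^ (m' + 1) * (H : ℝ) ^ (((m' + 1 : ℕ) : ℝ) - 1 + κ * q) := by
        apply mul_le_mul_of_nonneg_right _ (by positivity)
        apply mul_le_mul_of_nonneg_left _ (Nat.cast_nonneg _)
        exact pow_le_pow_right₀ (by norm_num) (by omega)

end Pool.Agent.R482.ST
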